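import Mathlib
import Pool.Agent.Lib.AbcO.Conc

/-!
# The gap argument for two triples concentrated on the same three primes
-/

namespace Pool.Agent.Lib.AbcO

open Finset

/-- the reduced numerator -/
def num (P m m' : Fin 3 → ℕ) (n q : ℕ) (j k : Fin 3) : ℕ :=
  P j ^ (2 * n * ev P m j - 2 * q * ev P m' j) * P k ^ (2 * q * ev P m' k - 2 * n * ev P m k) *
    co P m j ^ (2 * n) * co P m' k ^ (2 * q)

theorem num_mul {δ h1 h2 : ℝ} {P m m' : Fin 3 → ℕ} (H1 : Conc δ h1 P m) (H2 : Conc δ h2 P m')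
    (n q : ℕ) (j k : Fin 3) :
    num P m m' n q j k * (P j ^ min (2 * n * ev P m j) (2 * q * ev P m' j) *
      P k ^ min (2 * q * ev P m' k) (2 * n * ev P m k)) = m j ^ (2 * n) * m' k ^ (2 * q) := by
  have e1 : P j ^ (2 * n * ev P m j - 2 * q * ev P m' j) *
      P j ^ min (2 * n * ev P m j) (2 * q * ev P m' j) = (P j ^ ev P m j) ^ (2 * n) := by
    rw [← pow_add, ← pow_mul, Nat.sub_add_min_cancel]
    congr 1
    ring
  have e2 : P k ^ (2 * q * ev P m' k - 2 * n * ev P m k) *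
      P k ^ min (2 * q * ev P m' k) (2 * n * ev P m k) = (P k ^ ev P m' k) ^ (2 * q) := by
    rw [← pow_add, ← pow_mul, Nat.sub_add_min_cancel]
    congr 1
    ring
  unfold num
  calc P j ^ (2 * n * ev P m j - 2 * q * ev P m' j) *
        P k ^ (2 * q * ev P m' k - 2 * n * ev P m k) *
        co P m j ^ (2 * n) * co P m' k ^ (2 * q) *
        (P j ^ min (2 * n * ev P m j) (2 * q * ev P m' j) *
        P k ^ min (2 * q * ev P m' k) (2 * n * ev P m k))
      = (P j ^ (2 * n * ev P m j - 2 * q * ev P m' j) *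
      P j ^ min (2 * n * ev P m j) (2 * q * ev P m' j)) *
        (P k ^ (2 * q * ev P m' k - 2 * n * ev P m k) *
      P k ^ min (2 * q * ev P m' k) (2 * n * ev P m k)) *
        co P m j ^ (2 * n) * co P m' k ^ (2 * q) := by ring
    _ = (P j ^ ev P m j * co P m j) ^ (2 * n) * (P k ^ ev P m' k * co P m' k) ^ (2 * q) := by
        rw [e1, e2, mul_pow, mul_pow]
        ring
    _ = m j ^ (2 * n) * m' k ^ (2 * q) := by rw [H1.eq j, H2.eq k]

theorem num_pos {δ h1 h2 : ℝ} {P m m' : Fin 3 → ℕ} (H1 : Conc δ h1 P m) (H2 : Conc δ h2 P m')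
    (n q : ℕ) (j k : Fin 3) : 0 < num P m m' n q j k := by
  unfold num
  have a1 := (H1.prime j).pos
  have a2 := (H1.prime k).pos
  have a3 := H1.co_pos j
  have a4 := H2.co_pos k
  positivity

theorem log_num_le {δ h1 h2 : ℝ} {P m m' : Fin 3 → ℕ} (H1 : Conc δ h1 P m) (H2 : Conc δ h2 P m')
    (hδ0 : 0 ≤ δ) (n q : ℕ) (j k : Fin 3) :
    Real.log (num P m m' n q j k : ℕ) ≤ 2 * |(n : ℝ) * h1 - q * h2| + 4 * (n * (δ * h1)) +
      4 * (q * (δ * h2)) := by
  have hPj : (0 : ℝ) < P j := by exact_mod_cast (H1.prime j).pos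
  have hPk : (0 : ℝ) < P k := by exact_mod_cast (H1.prime k).pos
  have hcj : (0 : ℝ) < co P m j := by exact_mod_cast H1.co_pos j
  have hck : (0 : ℝ) < co P m' k := by exact_mod_cast H2.co_pos k
  have hlj := H1.logP_pos j
  have hlk := H1.logP_pos k
  have hh1 := H1.h_nonneg
  have hh2 := H2.h_nonneg
  have hn0 : (0 : ℝ) ≤ n := Nat.cast_nonneg _
  have hq0 : (0 : ℝ) ≤ q := Nat.cast_nonneg _
  have t1 : ((2 * n * ev P m j - 2 * q * ev P m' j : ℕ) : ℝ) * Real.log (P j) ≤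
      (|(n : ℝ) * h1 - q * h2| + (n * h1 - q * h2)) + 2 * (q * (δ * h2)) := by
    rcases le_total (2 * n * ev P m j) (2 * q * ev P m' j) with hle | hle
    · rw [Nat.sub_eq_zero_of_le hle, Nat.cast_zero, zero_mul]
      have a1 := neg_abs_le ((n : ℝ) * h1 - q * h2)
      have a2 : 0 ≤ (q : ℝ) * (δ * h2) := by positivity
      linarith
    · rw [Nat.cast_sub hle]
      push_cast
      have a1 := le_abs_self ((n : ℝ) * h1 - q * h2)
      have b1 : (n : ℝ) * (ev P m j * Real.log (P j)) ≤ n * h1 :=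
        mul_le_mul_of_nonneg_left (H1.ub' j) hn0
      have b2 : (q : ℝ) * ((1 - δ) * h2) ≤ q * (ev P m' j * Real.log (P j)) :=
        mul_le_mul_of_nonneg_left (H2.lb' j) hq0
      have b3 : (2 * (n : ℝ) * ev P m j - 2 * q * ev P m' j) * Real.log (P j) =
          2 * (n * (ev P m j * Real.log (P j))) - 2 * (q * (ev P m' j * Real.log (P j))) := by ring
      have b4 : (q : ℝ) * ((1 - δ) * h2) = q * h2 - q * (δ * h2) := by ring
      rw [b3]
      linarith
  have t2 : ((2 * q * ev P m' k - 2 * n * ev P m k : ℕ) : ℝ) * Real.log (P k) ≤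
      (|(n : ℝ) * h1 - q * h2| - (n * h1 - q * h2)) + 2 * (n * (δ * h1)) := by
    rcases le_total (2 * q * ev P m' k) (2 * n * ev P m k) with hle | hle
    · rw [Nat.sub_eq_zero_of_le hle, Nat.cast_zero, zero_mul]
      have a1 := le_abs_self ((n : ℝ) * h1 - q * h2)
      have a2 : 0 ≤ (n : ℝ) * (δ * h1) := by positivity
      linarith
    · rw [Nat.cast_sub hle]
      push_cast
      have a1 := neg_abs_le ((n : ℝ) * h1 - q * h2)
      have b1 : (q : ℝ) * (ev P m' k * Real.log (P k)) ≤ q * h2 :=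
        mul_le_mul_of_nonneg_left (H2.ub' k) hq0
      have b2 : (n : ℝ) * ((1 - δ) * h1) ≤ n * (ev P m k * Real.log (P k)) :=
        mul_le_mul_of_nonneg_left (H1.lb' k) hn0
      have b3 : (2 * (q : ℝ) * ev P m' k - 2 * n * ev P m k) * Real.log (P k) =
          2 * (q * (ev P m' k * Real.log (P k))) - 2 * (n * (ev P m k * Real.log (P k))) := by ring
      have b4 : (n : ℝ) * ((1 - δ) * h1) = n * h1 - n * (δ * h1) := by ring
      rw [b3]
      linarith
  have t3 : (n : ℝ) * Real.log (co P m j) ≤ n * (δ * h1) :=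
    mul_le_mul_of_nonneg_left (H1.co_le j) hn0
  have t4 : (q : ℝ) * Real.log (co P m' k) ≤ q * (δ * h2) :=
    mul_le_mul_of_nonneg_left (H2.co_le k) hq0
  unfold num
  rw [Nat.cast_mul, Nat.cast_mul, Nat.cast_mul, Nat.cast_pow, Nat.cast_pow, Nat.cast_pow,
    Nat.cast_pow, Real.log_mul (by positivity) (by positivity),
    Real.log_mul (by positivity) (by positivity), Real.log_mul (by positivity) (by positivity),
    Real.log_pow, Real.log_pow, Real.log_pow, Real.log_pow]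
  have t5 : ((2 * n : ℕ) : ℝ) * Real.log (co P m j) = 2 * (n * Real.log (co P m j)) := by
    push_cast
    ring
  have t6 : ((2 * q : ℕ) : ℝ) * Real.log (co P m' k) = 2 * (q * Real.log (co P m' k)) := by
    push_cast
    ring
  rw [t5, t6]
  linarith

/-- one pair of indices -/
theorem pair_eq {δ h1 h2 : ℝ} {P m m' : Fin 3 → ℕ} (H1 : Conc δ h1 P m) (H2 : Conc δ h2 P m')
    (hδ0 : 0 ≤ δ) (hδ1 : δ < 1) (hh1 : 0 < h1) (h12 : h1 ≤ h2) (n q : ℕ)
    (hs : 2 * |(n : ℝ) * h1 - q * h2| + 4 * (n * (δ * h1)) + 4 * (q * (δ * h2)) < (1 - δ) * h1)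
    (i j k : Fin 3) (hij : i ≠ j) (hjk : j ≠ k) (hik : i ≠ k) :
    m j ^ n = m' j ^ q := by
  have hh2 : 0 < h2 := by linarith
  set U := min (ev P m i) (ev P m' i) with hU
  set X := num P m m' n q j k with hX
  set Y := num P m m' n q k j with hY
  set G := P j ^ min (2 * n * ev P m j) (2 * q * ev P m' j) *
      P k ^ min (2 * q * ev P m' k) (2 * n * ev P m k) with hG
  have hXG : X * G = m j ^ (2 * n) * m' k ^ (2 * q) := num_mul H1 H2 n q j k
  have hYG : Y * G = m k ^ (2 * n) * m' j ^ (2 * q) := by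
    have h := num_mul H1 H2 n q k j
    rw [← h, hY, hG, min_comm (2 * n * ev P m k), min_comm (2 * q * ev P m' j)]
    ring
  have hpU1 : ((P i ^ U : ℕ) : ℤ) ∣ (m j : ℤ) ^ 2 - (m k : ℤ) ^ 2 := by
    refine (Int.natCast_dvd_natCast.2 ?_).trans (H1.dvd i j k hij hjk hik)
    exact (pow_dvd_pow _ (min_le_left _ _)).trans (H1.dvd_pow i)
  have hpU2 : ((P i ^ U : ℕ) : ℤ) ∣ (m' j : ℤ) ^ 2 - (m' k : ℤ) ^ 2 := by
    refine (Int.natCast_dvd_natCast.2 ?_).trans (H2.dvd i j k hij hjk hik)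
    exact (pow_dvd_pow _ (min_le_right _ _)).trans (H2.dvd_pow i)
  have hdiv : ((P i ^ U : ℕ) : ℤ) ∣ ((X : ℤ) - Y) * G := by
    have e1 : ((X : ℤ) - Y) * G =
        ((m j : ℤ) ^ 2) ^ n * ((m' k : ℤ) ^ 2) ^ q - ((m k : ℤ) ^ 2) ^ n * ((m' j : ℤ) ^ 2) ^ q := by
      have f1 : (X : ℤ) * G = (m j : ℤ) ^ (2 * n) * (m' k : ℤ) ^ (2 * q) := by exact_mod_cast hXG
      have f2 : (Y : ℤ) * G = (m k : ℤ) ^ (2 * n) * (m' j : ℤ) ^ (2 * q) := by exact_mod_cast hYG
      rw [sub_mul, f1, f2, ← pow_mul, ← pow_mul, ← pow_mul, ← pow_mul]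
    rw [e1]
    have e2 : ((P i ^ U : ℕ) : ℤ) ∣ ((m j : ℤ) ^ 2) ^ n - ((m k : ℤ) ^ 2) ^ n :=
      hpU1.trans (sub_dvd_pow_sub_pow _ _ n)
    have e3 : ((P i ^ U : ℕ) : ℤ) ∣ ((m' k : ℤ) ^ 2) ^ q - ((m' j : ℤ) ^ 2) ^ q := by
      refine ((dvd_sub_comm).1 ?_)
      exact hpU2.trans (sub_dvd_pow_sub_pow _ _ q)
    have e4 : ((m j : ℤ) ^ 2) ^ n * ((m' k : ℤ) ^ 2) ^ q -
        ((m k : ℤ) ^ 2) ^ n * ((m' j : ℤ) ^ 2) ^ q =
        (((m j : ℤ) ^ 2) ^ n - ((m k : ℤ) ^ 2) ^ n) * ((m' k : ℤ) ^ 2) ^ q +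
        ((m k : ℤ) ^ 2) ^ n * (((m' k : ℤ) ^ 2) ^ q - ((m' j : ℤ) ^ 2) ^ q) := by ring
    rw [e4]
    exact dvd_add (e2.mul_right _) (e3.mul_left _)
  have hPij : P i ≠ P j := H1.P_ne hδ1 hh1 hij
  have hPik : P i ≠ P k := H1.P_ne hδ1 hh1 hik
  have hcopG : IsCoprime ((P i ^ U : ℕ) : ℤ) (G : ℤ) := by
    rw [Nat.isCoprime_iff_coprime]
    refine Nat.Coprime.pow_left _ ?_
    rw [hG]
    refine Nat.Coprime.mul_right ?_ ?_
    · exact ((Nat.coprime_primes (H1.prime i) (H1.prime j)).2 hPij).pow_right _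
    · exact ((Nat.coprime_primes (H1.prime i) (H1.prime k)).2 hPik).pow_right _
  have hdiv2 : ((P i ^ U : ℕ) : ℤ) ∣ (X : ℤ) - Y := hcopG.dvd_of_dvd_mul_right hdiv
  have hXp : 0 < X := num_pos H1 H2 n q j k
  have hYp : 0 < Y := num_pos H1 H2 n q k j
  have hPU : (1 - δ) * h1 ≤ Real.log ((P i ^ U : ℕ) : ℝ) := by
    push_cast
    rw [Real.log_pow]
    rcases min_choice (ev P m i) (ev P m' i) with h | h
    · rw [hU, h]
      exact H1.lb' i
    · rw [hU, h]
      refine le_trans ?_ (H2.lb' i)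
      apply mul_le_mul_of_nonneg_left h12
      linarith
  have hPUp : (0 : ℝ) < ((P i ^ U : ℕ) : ℝ) := by
    exact_mod_cast pow_pos (H1.prime i).pos _
  have hXlt : X < P i ^ U := by
    have h := (log_num_le H1 H2 hδ0 n q j k).trans_lt (hs.trans_le hPU)
    rw [Real.log_lt_log_iff (by exact_mod_cast hXp) hPUp] at h
    exact_mod_cast h
  have hYlt : Y < P i ^ U := by
    have h := (log_num_le H1 H2 hδ0 n q k j).trans_lt (hs.trans_le hPU)
    rw [Real.log_lt_log_iff (by exact_mod_cast hYp) hPUp] at h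
    exact_mod_cast h
  have hXY : X = Y := by
    have h1 : (X : ℤ) - Y = 0 := by
      apply Int.eq_zero_of_abs_lt_dvd hdiv2
      rw [abs_lt]
      constructor
      · have : (Y : ℤ) < ((P i ^ U : ℕ) : ℤ) := by exact_mod_cast hYlt
        have : (0 : ℤ) ≤ X := by positivity
        omega
      · have : (X : ℤ) < ((P i ^ U : ℕ) : ℤ) := by exact_mod_cast hXlt
        have : (0 : ℤ) ≤ Y := by positivity
        omega
    omega
  have hmain : m j ^ (2 * n) * m' k ^ (2 * q) = m k ^ (2 * n) * m' j ^ (2 * q) := by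
    rw [← hXG, ← hYG, hXY]
  have c1 : Nat.Coprime (m j ^ (2 * n)) (m k ^ (2 * n)) := Nat.Coprime.pow _ _ (H1.cop j k hjk)
  have c2 : Nat.Coprime (m' j ^ (2 * q)) (m' k ^ (2 * q)) := Nat.Coprime.pow _ _ (H2.cop j k hjk)
  have d1 : m j ^ (2 * n) ∣ m' j ^ (2 * q) :=
    c1.dvd_of_dvd_mul_left (hmain ▸ Dvd.intro _ rfl)
  have d2 : m' j ^ (2 * q) ∣ m j ^ (2 * n) :=
    c2.dvd_of_dvd_mul_right (hmain ▸ Dvd.intro_left _ rfl)
  have h3 : m j ^ (2 * n) = m' j ^ (2 * q) := Nat.dvd_antisymm d1 d2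
  rw [mul_comm 2 n, mul_comm 2 q, pow_mul, pow_mul] at h3
  exact Nat.pow_left_injective (n := 2) (by norm_num) h3

/-- Two triples of comparable height concentrated on the same primes are multiplicatively
dependent. -/
theorem gap {δ h1 h2 : ℝ} {P m m' : Fin 3 → ℕ} (H1 : Conc δ h1 P m) (H2 : Conc δ h2 P m')
    (hδ0 : 0 ≤ δ) (hδ : δ ≤ 1 / 100000000) (hh1 : 0 < h1) (h12 : h1 ≤ h2)
    (hK : h2 ≤ 40000 * h1) :
    ∃ n q : ℕ, 0 < n ∧ 0 < q ∧ ∀ i, m i ^ n = m' i ^ q := by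
  obtain ⟨j, k, hk0, hk3, hjk⟩ := Real.exists_int_int_abs_mul_sub_le (h2 / h1) (n := 3) (by norm_num)
  have hρ1 : 1 ≤ h2 / h1 := (one_le_div hh1).2 h12
  have hρ2 : h2 / h1 ≤ 40000 := (div_le_iff₀ hh1).2 hK
  have hk1R : (1 : ℝ) ≤ k := by exact_mod_cast hk0
  have hk3R : (k : ℝ) ≤ 3 := by exact_mod_cast hk3
  rw [abs_le] at hjk
  norm_num at hjk
  have hj0 : (0 : ℝ) < j := by nlinarith
  have hj0' : 0 < j := by exact_mod_cast hj0
  have hjup : (j : ℝ) ≤ 120001 := by nlinarith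
  lift k to ℕ using hk0.le
  lift j to ℕ using hj0'.le
  simp only [Int.cast_natCast] at *
  have hkpos : 0 < k := by exact_mod_cast hk0
  have hjpos : 0 < j := by exact_mod_cast hj0'
  refine ⟨j, k, hjpos, hkpos, ?_⟩
  have habs : |(j : ℝ) * h1 - k * h2| ≤ h1 / 4 := by
    have e1 : (k : ℝ) * h2 = k * (h2 / h1) * h1 := by field_simp
    have e2 : (j : ℝ) * h1 - k * h2 = -((k * (h2 / h1) - j) * h1) := by rw [e1]; ring
    rw [e2, abs_neg, abs_mul, abs_of_pos hh1]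
    have e3 : |(k : ℝ) * (h2 / h1) - j| ≤ 1 / 4 := by
      rw [abs_le]
      constructor <;> linarith
    calc |(k : ℝ) * (h2 / h1) - j| * h1 ≤ 1 / 4 * h1 := by gcongr
      _ = h1 / 4 := by ring
  have hs : 2 * |(j : ℝ) * h1 - k * h2| + 4 * (j * (δ * h1)) + 4 * (k * (δ * h2)) <
      (1 - δ) * h1 := by
    have f1 : δ * h1 ≤ h1 / 100000000 := by
      calc δ * h1 ≤ 1 / 100000000 * h1 := by gcongr
        _ = _ := by ring
    have f2 : δ * h2 ≤ 40000 * (h1 / 100000000) := by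
      calc δ * h2 ≤ δ * (40000 * h1) := by gcongr
        _ = 40000 * (δ * h1) := by ring
        _ ≤ _ := by linarith
    have f3 : (j : ℝ) * (δ * h1) ≤ 120001 * (h1 / 100000000) := by
      have : 0 ≤ δ * h1 := by positivity
      calc (j : ℝ) * (δ * h1) ≤ 120001 * (δ * h1) := by gcongr
        _ ≤ _ := by linarith
    have hh2 : 0 < h2 := by linarith
    have f4 : (k : ℝ) * (δ * h2) ≤ 3 * (40000 * (h1 / 100000000)) := by
      have : 0 ≤ δ * h2 := by positivity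
      calc (k : ℝ) * (δ * h2) ≤ 3 * (δ * h2) := by gcongr
        _ ≤ _ := by linarith
    have f5 : (1 - δ) * h1 = h1 - δ * h1 := by ring
    rw [f5]
    linarith
  have hδ1 : δ < 1 := by linarith
  intro i
  fin_cases i
  · exact pair_eq H1 H2 hδ0 hδ1 hh1 h12 j k hs 1 0 2 (by decide) (by decide) (by decide)
  · exact pair_eq H1 H2 hδ0 hδ1 hh1 h12 j k hs 0 1 2 (by decide) (by decide) (by decide)
  · exact pair_eq H1 H2 hδ0 hδ1 hh1 h12 j k hs 0 2 1 (by decide) (by decide) (by decide)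

/-- If `x + y = z` and `x^θ + y^θ = z^θ` for positive integers, then `θ = 1`; here in terms of
`m^n = m'^q`. -/
theorem eq_of_sum {x y z x' y' z' n q : ℕ} (hx : 0 < x) (hy : 0 < y) (hx' : 0 < x')
    (hy' : 0 < y') (hn : 0 < n) (hq : 0 < q) (h : x + y = z) (h' : x' + y' = z')
    (e1 : x ^ n = x' ^ q) (e2 : y ^ n = y' ^ q) (e3 : z ^ n = z' ^ q) : n = q := by
  -- if `n < q` then `x'^q + y'^q < ...`
  have key : ∀ {x y z x' y' z' n q : ℕ}, 0 < x → 0 < y → 0 < x' → 0 < y' → 0 < n →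
      x + y = z → x' + y' = z' → x ^ n = x' ^ q → y ^ n = y' ^ q → z ^ n = z' ^ q →
      ¬ n < q := by
    intro x y z x' y' z' n q hx hy hx' hy' hn h h' e1 e2 e3 hlt
    -- `(x/z)^n = (x'/z')^q < (x'/z')^n`, so `x/z < x'/z'`, and the same for `y`
    have hz : 0 < z := by omega
    have hz' : 0 < z' := by omega
    have hxz : x * z' < x' * z := by
      -- raise to the power `n`
      by_contra hcon
      push Not at hcon
      have f1 : (x' * z) ^ n ≤ (x * z') ^ n := Nat.pow_le_pow_left hcon n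
      rw [mul_pow, mul_pow, e1, e3] at f1
      -- `x'^n z'^q ≤ x'^q z'^n`
      obtain ⟨k, hk⟩ := Nat.exists_eq_add_of_lt hlt
      have f2 : x' ^ n * z' ^ n * z' ^ (k + 1) ≤ x' ^ n * z' ^ n * x' ^ (k + 1) := by
        have g1 : q = n + (k + 1) := by omega
        rw [g1, pow_add z' n, pow_add x' n] at f1
        calc x' ^ n * z' ^ n * z' ^ (k + 1) = x' ^ n * (z' ^ n * z' ^ (k + 1)) := by ring
          _ ≤ x' ^ n * x' ^ (k + 1) * z' ^ n := f1
          _ = _ := by ring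
      have f3 : z' ^ (k + 1) ≤ x' ^ (k + 1) := Nat.le_of_mul_le_mul_left f2 (by positivity)
      have f4 : z' ≤ x' := (Nat.pow_le_pow_iff_left (by omega)).1 f3
      omega
    have hyz : y * z' < y' * z := by
      by_contra hcon
      push Not at hcon
      have f1 : (y' * z) ^ n ≤ (y * z') ^ n := Nat.pow_le_pow_left hcon n
      rw [mul_pow, mul_pow, e2, e3] at f1
      obtain ⟨k, hk⟩ := Nat.exists_eq_add_of_lt hlt
      have f2 : y' ^ n * z' ^ n * z' ^ (k + 1) ≤ y' ^ n * z' ^ n * y' ^ (k + 1) := by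
        have g1 : q = n + (k + 1) := by omega
        rw [g1, pow_add z' n, pow_add y' n] at f1
        calc y' ^ n * z' ^ n * z' ^ (k + 1) = y' ^ n * (z' ^ n * z' ^ (k + 1)) := by ring
          _ ≤ y' ^ n * y' ^ (k + 1) * z' ^ n := f1
          _ = _ := by ring
      have f3 : z' ^ (k + 1) ≤ y' ^ (k + 1) := Nat.le_of_mul_le_mul_left f2 (by positivity)
      have f4 : z' ≤ y' := (Nat.pow_le_pow_iff_left (by omega)).1 f3
      omega
    have : z * z' < z' * z := by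
      calc z * z' = x * z' + y * z' := by rw [← h]; ring
        _ < x' * z + y' * z := by omega
        _ = z' * z := by rw [← h']; ring
    rw [mul_comm] at this
    exact lt_irrefl _ this
  rcases lt_trichotomy n q with hlt | heq | hgt
  · exact absurd hlt (key hx hy hx' hy' hn h h' e1 e2 e3)
  · exact heq
  · exact absurd hgt (key hx' hy' hx hy hq h' h e1.symm e2.symm e3.symm)

end Pool.Agent.Lib.AbcO
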