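import Mathlib
import Pool.Agent.Lib.AbcH.Count
import Pool.Agent.Lib.AbcO.Conc

/-!
# Very tall triples are concentrated on the three largest primes
-/

namespace Pool.Agent.Lib.AbcO

open Finset Pool.Agent.Lib.Pabc2 Pool.Agent.Lib.AbcH

/-- The statement of the archimedean height bound. -/
def HInf : Prop := ∀ delta eta : ℝ, 0 < delta → 0 < eta → ∃ K : ℝ, 0 < K ∧ ∀ Z1 Z2 : ℕ,
  0 < Z2 → Z2 < Z1 → Nat.Coprime Z1 Z2 → (Z1 : ℝ) - Z2 ≤ (Z1 : ℝ) ^ (1 - delta) →
  Real.log Z1 ≤ K * (∏ p ∈ (Z1 * Z2).primeFactors, (p : ℝ)) ^ eta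

/-- A member of a very tall triple has little mass outside `S`. -/
theorem member_light {κ : ℕ} (hκ : κ ≤ 2) (hE : ThmE2 κ) (δ η : ℝ) (hδ : 0 < δ) (hδ1 : δ ≤ 1)
    (hη : 0 < η) :
    ∃ K : ℝ, 0 < K ∧ ∀ (r : ℕ) (S : Finset ℕ) (P : ℝ) (t : ℕ × ℕ) (l : Fin 3), 0 < r → 1 ≤ P →
      IsT t → (N t).primeFactors ⊆ r.primeFactors →
      (∀ p ∈ r.primeFactors, p ∉ S → (p : ℝ) ≤ P) → 1000 ≤ ht t →
      δ * ht t < ∑ p ∈ (N t).primeFactors \ S, ((comp t l).factorization p : ℝ) * Real.log p →
      ht t ≤ K * (r : ℝ) ^ (3 * η) * P ^ κ := by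
  classical
  set j : ℕ := ⌈1 / η⌉₊ with hj
  have hj1 : 1 ≤ j := Nat.one_le_iff_ne_zero.2 (by
    have : 0 < ⌈1 / η⌉₊ := Nat.ceil_pos.2 (by positivity)
    omega)
  have hj1R : (1 : ℝ) ≤ j := by exact_mod_cast hj1
  have hjη : 1 ≤ η * j := by
    have h1 : 1 / η ≤ j := Nat.le_ceil _
    rw [div_le_iff₀ hη] at h1
    linarith
  obtain ⟨K, hK, hE⟩ := hE (4 / δ * j) η (by
    have h1 : 1 ≤ 4 / δ := by
      rw [le_div_iff₀ hδ]
      linarith
    nlinarith) hη
  refine ⟨K, hK, ?_⟩
  rintro r S P ⟨a, b⟩ l hr hP hT hsub hPS hbig hlight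
  have hr1 : (1 : ℝ) ≤ r := by exact_mod_cast hr
  have hr0 : (0 : ℝ) < r := by linarith
  obtain ⟨ha, hab, hcop⟩ := id hT
  simp only at ha hab hcop
  have hb : 0 < b := lt_of_lt_of_le ha hab
  have hN : N (a, b) = a * b * (a + b) := rfl
  have hht : ht (a, b) = Real.log ((a + b : ℕ) : ℝ) := by
    unfold ht
    push_cast
    rfl
  have hac : Nat.Coprime a (a + b) := by
    rw [Nat.coprime_self_add_right]
    exact hcop
  have hbc : Nat.Coprime b (a + b) := by
    rw [Nat.coprime_add_self_right]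
    exact hcop.symm
  set U := (N (a, b)).primeFactors \ S with hU
  have hUp : ∀ p ∈ U, p.Prime := fun p hp =>
    Nat.prime_of_mem_primeFactors (Finset.sdiff_subset hp)
  have hUr : U ⊆ r.primeFactors := Finset.sdiff_subset.trans hsub
  have hUP : ∀ p ∈ U, (p : ℝ) ≤ P := by
    intro p hp
    exact hPS p (hUr hp) (Finset.mem_sdiff.1 hp).2
  -- the common argument
  have key : ∀ m Z1 Z2 : ℕ, 0 < m → 0 < Z1 → 0 < Z2 → Nat.Coprime Z1 Z2 →
      (m : ℤ) ∣ (Z1 : ℤ) - Z2 → Real.log Z1 + Real.log Z2 ≤ 4 * ht (a, b) →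
      ht (a, b) ≤ Real.log Z1 + Real.log Z2 →
      (Z1 * Z2 * m).primeFactors ⊆ (N (a, b)).primeFactors →
      δ * ht (a, b) < ∑ p ∈ U, (m.factorization p : ℝ) * Real.log p →
      ht (a, b) ≤ K * (r : ℝ) ^ (3 * η) * P ^ κ := by
    intro m Z1 Z2 hm h1 h2 h12 hdvd hup hlow hpf hlm
    obtain ⟨G, hGU, hGP, hGw⟩ := group (fun p => (m.factorization p : ℝ) * Real.log p)
      ((r : ℝ) ^ η) P (Real.one_le_rpow hr1 hη.le) hP j hj1 U
      (fun p hp => mul_nonneg (Nat.cast_nonneg _) (Real.log_natCast_nonneg _))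
      (fun p hp => (hUp p hp).one_lt.le) hUP (by
        refine (prod_primeFactors_le hr hUr).trans ?_
        rw [← Real.rpow_natCast, ← Real.rpow_mul hr0.le]
        calc (r : ℝ) = (r : ℝ) ^ (1 : ℝ) := (Real.rpow_one _).symm
          _ ≤ _ := Real.rpow_le_rpow_of_exponent_le hr1 hjη)
    have hGp : ∀ p ∈ G, p.Prime := fun p hp => hUp p (hGU hp)
    have hlogM : δ * ht (a, b) ≤ j * Real.log (part G m : ℕ) := by
      rw [log_part m hGp]
      exact hlm.le.trans hGw
    have hMdvd : part G m ∣ m := part_dvd m hm.ne' hGp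
    have hA : Real.log Z1 + Real.log Z2 ≤ 4 / δ * j * Real.log (part G m : ℕ) := by
      calc Real.log Z1 + Real.log Z2 ≤ 4 * ht (a, b) := hup
        _ = 4 / δ * (δ * ht (a, b)) := by field_simp
        _ ≤ 4 / δ * (j * Real.log (part G m : ℕ)) := by gcongr
        _ = _ := by ring
    have hres := hE Z1 Z2 (part G m) h1 h2 h12 (part_pos hGp m)
      ((Int.natCast_dvd_natCast.2 hMdvd).trans hdvd) hA
    refine (hlow.trans hres).trans ?_
    have e1 : ∏ p ∈ (part G m).primeFactors, (p : ℝ) ≤ (r : ℝ) ^ η * P := by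
      refine le_trans ?_ hGP
      have h3 : ∏ p ∈ (part G m).primeFactors, p ≤ ∏ p ∈ G, p :=
        Finset.prod_le_prod_of_subset_of_one_le' (part_primeFactors m hGp) fun p hp _ =>
          (hGp p hp).one_lt.le
      rw [← Nat.cast_prod, ← Nat.cast_prod]
      exact_mod_cast h3
    have e0 : (0 : ℝ) ≤ ∏ p ∈ (part G m).primeFactors, (p : ℝ) :=
      Finset.prod_nonneg fun p _ => Nat.cast_nonneg p
    have e2 : ∏ p ∈ (Z1 * Z2 * part G m).primeFactors, (p : ℝ) ≤ r := by
      apply prod_primeFactors_le hr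
      refine ((Nat.primeFactors_mono (Nat.mul_dvd_mul_left _ hMdvd) (by positivity)).trans
        hpf).trans hsub
    have e3 : (0 : ℝ) ≤ ∏ p ∈ (Z1 * Z2 * part G m).primeFactors, (p : ℝ) :=
      Finset.prod_nonneg fun p _ => Nat.cast_nonneg p
    have e4 : (1 : ℝ) ≤ (r : ℝ) ^ η := Real.one_le_rpow hr1 hη.le
    calc K * (∏ p ∈ (part G m).primeFactors, (p : ℝ)) ^ κ *
          (∏ p ∈ (Z1 * Z2 * part G m).primeFactors, (p : ℝ)) ^ η
        ≤ K * ((r : ℝ) ^ η * P) ^ κ * (r : ℝ) ^ η := by gcongr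
      _ = K * (((r : ℝ) ^ η) ^ κ * (r : ℝ) ^ η) * P ^ κ := by rw [mul_pow]; ring
      _ ≤ K * (((r : ℝ) ^ η) ^ 2 * (r : ℝ) ^ η) * P ^ κ := by gcongr
      _ = K * ((r : ℝ) ^ η * (r : ℝ) ^ η * (r : ℝ) ^ η) * P ^ κ := by ring
      _ = K * (r : ℝ) ^ (3 * η) * P ^ κ := by
        rw [← Real.rpow_add hr0, ← Real.rpow_add hr0]
        congr 3
        ring
  have ha0 : (0 : ℝ) < a := by exact_mod_cast ha
  have hb0 : (0 : ℝ) < b := by exact_mod_cast hb
  have hla : 0 ≤ Real.log (a : ℝ) := Real.log_natCast_nonneg a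
  have hlb : 0 ≤ Real.log (b : ℝ) := Real.log_natCast_nonneg b
  have hlac : Real.log a ≤ Real.log ((a + b : ℕ) : ℝ) := by
    apply Real.log_le_log ha0
    push_cast
    linarith
  have hlbc : Real.log b ≤ Real.log ((a + b : ℕ) : ℝ) := by
    apply Real.log_le_log hb0
    push_cast
    linarith
  have hlab : Real.log a ≤ Real.log b := Real.log_le_log ha0 (by exact_mod_cast hab)
  have hlc : Real.log ((a + b : ℕ) : ℝ) ≤ Real.log 2 + Real.log b := by
    rw [← Real.log_mul (by norm_num) hb0.ne']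
    apply Real.log_le_log
    · push_cast
      linarith
    · have : (a : ℝ) ≤ b := by exact_mod_cast hab
      push_cast
      linarith
  have hlog2 := Real.log_two_lt_d9
  have hl : l = 0 ∨ l = 1 ∨ l = 2 := by omega
  rcases hl with rfl | rfl | rfl
  · refine key a (a + b) b ha (by omega) hb hbc.symm ⟨1, by push_cast; ring⟩ ?_ ?_ ?_ ?_
    · rw [hht]; linarith
    · rw [hht]; linarith
    · rw [hN, show (a + b) * b * a = a * b * (a + b) by ring]
    · simpa [comp] using hlight
  · refine key b (a + b) a hb (by omega) ha hac.symm ⟨1, by push_cast; ring⟩ ?_ ?_ ?_ ?_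
    · rw [hht]; linarith
    · rw [hht]; linarith
    · rw [hN, show (a + b) * a * b = a * b * (a + b) by ring]
    · simpa [comp] using hlight
  · refine key (a + b) (b ^ 2) (a ^ 2) (by omega) (by positivity) (by positivity)
      (Nat.Coprime.pow 2 2 hcop.symm) ⟨(b : ℤ) - a, by push_cast; ring⟩ ?_ ?_ ?_ ?_
    · push_cast
      rw [hht, Real.log_pow, Real.log_pow]
      push_cast at hlac hlbc ⊢
      linarith
    · have h1 : Real.log ((a + b : ℕ) : ℝ) ≥ 1000 := by rw [← hht]; exact hbig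
      rw [hht]
      push_cast at hlc h1 ⊢
      rw [Real.log_pow, Real.log_pow]
      push_cast
      linarith
    · rw [hN]
      have h1 : (b ^ 2 * a ^ 2 * (a + b)).primeFactors = (b * a * (a + b)).primeFactors := by
        rw [Nat.primeFactors_mul (by positivity) (by positivity),
          Nat.primeFactors_mul (by positivity) (by positivity), Nat.primeFactors_pow _ two_ne_zero,
          Nat.primeFactors_pow _ two_ne_zero, Nat.primeFactors_mul (by positivity) (by positivity),
          Nat.primeFactors_mul (by positivity) (by positivity)]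
      rw [h1, mul_comm b a]
    · simpa [comp] using hlight

theorem comp_pos {t : ℕ × ℕ} (h : IsT t) (l : Fin 3) : 0 < comp t l := by
  have h1 := h.1
  have h2 := h.pos2
  have hl : l = 0 ∨ l = 1 ∨ l = 2 := by omega
  rcases hl with rfl | rfl | rfl <;> simp [comp] <;> omega

theorem comp_cop {t : ℕ × ℕ} (h : IsT t) {l l' : Fin 3} (hl : l ≠ l') :
    Nat.Coprime (comp t l) (comp t l') := by
  have hc : Nat.Coprime t.1 t.2 := h.2.2
  have hac : Nat.Coprime t.1 (t.1 + t.2) := by
    rw [Nat.coprime_self_add_right]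
    exact hc
  have hbc : Nat.Coprime t.2 (t.1 + t.2) := by
    rw [Nat.coprime_add_self_right]
    exact hc.symm
  have h1 : l = 0 ∨ l = 1 ∨ l = 2 := by omega
  have h2 : l' = 0 ∨ l' = 1 ∨ l' = 2 := by omega
  rcases h1 with rfl | rfl | rfl <;> rcases h2 with rfl | rfl | rfl <;> simp [comp] at hl ⊢ <;>
    first | exact hc | exact hc.symm | exact hac | exact hbc | exact hac.symm | exact hbc.symm

theorem comp_dvd_sq {t : ℕ × ℕ} {l l' l'' : Fin 3} (h1 : l ≠ l') (h2 : l' ≠ l'')
    (h3 : l ≠ l'') : (comp t l : ℤ) ∣ (comp t l' : ℤ) ^ 2 - (comp t l'' : ℤ) ^ 2 := by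
  have e1 : l = 0 ∨ l = 1 ∨ l = 2 := by omega
  have e2 : l' = 0 ∨ l' = 1 ∨ l' = 2 := by omega
  have e3 : l'' = 0 ∨ l'' = 1 ∨ l'' = 2 := by omega
  rcases e1 with rfl | rfl | rfl <;> rcases e2 with rfl | rfl | rfl <;>
    rcases e3 with rfl | rfl | rfl <;> simp [comp] at h1 h2 h3 ⊢
  · exact ⟨-((t.1 : ℤ) + 2 * t.2), by ring⟩
  · exact ⟨(t.1 : ℤ) + 2 * t.2, by ring⟩
  · exact ⟨-((t.2 : ℤ) + 2 * t.1), by ring⟩
  · exact ⟨(t.2 : ℤ) + 2 * t.1, by ring⟩
  · exact ⟨(t.1 : ℤ) - t.2, by ring⟩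
  · exact ⟨(t.2 : ℤ) - t.1, by ring⟩

/-- **Structure** of the very tall triples. -/
theorem struct {κ : ℕ} (hκ : κ ≤ 2) (hE : ThmE2 κ) (hI : HInf) (δ η : ℝ) (hδ : 0 < δ)
    (hδ1 : δ ≤ 1 / 10) (hη : 0 < η) :
    ∃ K : ℝ, 0 < K ∧ ∀ (r : ℕ) (P : Fin 3 → ℕ) (Pb : ℝ) (t : ℕ × ℕ), 0 < r → 1 ≤ Pb →
      (∀ i, (P i).Prime) → Function.Injective P →
      (∀ p ∈ r.primeFactors, (∀ i, p ≠ P i) → (p : ℝ) ≤ Pb) →
      IsT t → (N t).primeFactors ⊆ r.primeFactors →
      K * (r : ℝ) ^ (3 * η) * Pb ^ κ < ht t →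
      ∃ σ : Equiv.Perm (Fin 3), Conc δ (ht t) P (fun i => comp t (σ i)) := by
  classical
  obtain ⟨K1, hK1, hL⟩ := member_light hκ hE (δ / 4) η (by positivity) (by linarith) hη
  obtain ⟨K2, hK2, hI⟩ := hI (δ / 4) η (by positivity) hη
  set H0 : ℝ := 1000 + 4 / δ with hH0
  have hH0' : 0 < 4 / δ := by positivity
  refine ⟨K1 + K2 + H0, by positivity, ?_⟩
  intro r P Pb t hr hPb hPp hPinj hPS hT hsub hbig
  have hr1 : (1 : ℝ) ≤ r := by exact_mod_cast hr
  have hr0 : (0 : ℝ) < r := by linarith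
  have e1 : (1 : ℝ) ≤ (r : ℝ) ^ (3 * η) := Real.one_le_rpow hr1 (by positivity)
  have e1' : (1 : ℝ) ≤ Pb ^ κ := one_le_pow₀ hPb
  have e2 : (1 : ℝ) ≤ (r : ℝ) ^ (3 * η) * Pb ^ κ := one_le_mul_of_one_le_of_one_le e1 e1'
  have e3 : (K1 + K2 + H0) * (r : ℝ) ^ (3 * η) * Pb ^ κ =
      K1 * (r : ℝ) ^ (3 * η) * Pb ^ κ + K2 * ((r : ℝ) ^ (3 * η) * Pb ^ κ) +
        H0 * ((r : ℝ) ^ (3 * η) * Pb ^ κ) := by ring
  rw [e3] at hbig
  have p1 : 0 < K1 * (r : ℝ) ^ (3 * η) * Pb ^ κ := by positivity
  have p2 : 0 < K2 * ((r : ℝ) ^ (3 * η) * Pb ^ κ) := by positivity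
  have p3 : H0 ≤ H0 * ((r : ℝ) ^ (3 * η) * Pb ^ κ) := le_mul_of_one_le_right (by positivity) e2
  have hb : H0 < ht t := by linarith
  have hb1 : 1000 ≤ ht t := by linarith
  have hh : 0 < ht t := by linarith
  have hδh : 4 ≤ δ * ht t := by
    have : 4 / δ ≤ ht t := by linarith
    rw [div_le_iff₀ hδ] at this
    linarith
  set S : Finset ℕ := Finset.univ.image P with hS
  have hmemS : ∀ p, p ∈ S ↔ ∃ i, P i = p := by
    intro p
    rw [hS, Finset.mem_image]
    simp
  have hPS' : ∀ p ∈ r.primeFactors, p ∉ S → (p : ℝ) ≤ Pb := by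
    intro p hp hpS
    apply hPS p hp
    intro i hi
    exact hpS ((hmemS p).2 ⟨i, hi.symm⟩)
  -- small mass outside `S`
  have hout : ∀ l, ∑ p ∈ (N t).primeFactors \ S, ((comp t l).factorization p : ℝ) * Real.log p ≤
      δ / 4 * ht t := by
    intro l
    by_contra hcon
    push Not at hcon
    have := hL r S Pb t l hr hPb hT hsub hPS' hb1 hcon
    linarith
  obtain ⟨ha, hab, hcop⟩ := id hT
  have hbp : 0 < t.2 := hT.pos2
  have ha0 : (0 : ℝ) < t.1 := by exact_mod_cast ha
  have hb0 : (0 : ℝ) < t.2 := by exact_mod_cast hbp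
  have hht : ht t = Real.log ((t.1 : ℝ) + t.2) := rfl
  -- the members are large
  have hlb : ht t - 1 ≤ Real.log t.2 := by
    have h1 : ht t ≤ Real.log 2 + Real.log t.2 := by
      rw [hht, ← Real.log_mul (by norm_num) hb0.ne']
      apply Real.log_le_log (by positivity)
      have : (t.1 : ℝ) ≤ t.2 := by exact_mod_cast hab
      linarith
    have := Real.log_two_lt_d9
    linarith
  have hla : (1 - δ / 4) * ht t ≤ Real.log t.1 := by
    by_contra hcon
    push Not at hcon
    have h1 := hI (t.1 + t.2) t.2 hbp (by omega) (by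
      rw [Nat.coprime_add_self_left]
      exact hcop) (by
      push_cast
      rw [add_sub_cancel_right]
      rw [hht] at hcon
      rw [Real.rpow_def_of_pos (by positivity)]
      calc (t.1 : ℝ) = Real.exp (Real.log t.1) := (Real.exp_log ha0).symm
        _ ≤ _ := Real.exp_le_exp.2 (by linarith))
    have h3 : ∏ p ∈ ((t.1 + t.2) * t.2).primeFactors, (p : ℝ) ≤ r := by
      apply prod_primeFactors_le hr
      refine (Nat.primeFactors_mono (n := N t) ?_ hT.N_ne).trans hsub
      exact ⟨t.1, by unfold N; ring⟩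
    have h4 : (∏ p ∈ ((t.1 + t.2) * t.2).primeFactors, (p : ℝ)) ^ η ≤ (r : ℝ) ^ η :=
      Real.rpow_le_rpow (Finset.prod_nonneg fun p _ => Nat.cast_nonneg p) h3 hη.le
    have h5 : (r : ℝ) ^ η ≤ (r : ℝ) ^ (3 * η) * Pb ^ κ := by
      calc (r : ℝ) ^ η ≤ (r : ℝ) ^ (3 * η) :=
            Real.rpow_le_rpow_of_exponent_le hr1 (by linarith)
        _ ≤ _ := le_mul_of_one_le_right (by positivity) e1'
    have h6 : ht t ≤ K2 * ((r : ℝ) ^ (3 * η) * Pb ^ κ) := by
      rw [hht]
      push_cast at h1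
      refine h1.trans ?_
      exact mul_le_mul_of_nonneg_left (h4.trans h5) hK2.le
    linarith
  have hlog_le : ∀ l, Real.log (comp t l) ≤ ht t := by
    intro l
    rw [hht]
    have hl : l = 0 ∨ l = 1 ∨ l = 2 := by omega
    rcases hl with rfl | rfl | rfl
    · simp only [comp, if_true]
      exact Real.log_le_log ha0 (by linarith)
    · simp only [comp, one_ne_zero, if_false, if_true]
      exact Real.log_le_log hb0 (by linarith)
    · have f1 : (2 : Fin 3) ≠ 0 := by decide
      have f2 : (2 : Fin 3) ≠ 1 := by decide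
      simp only [comp, f1, f2, if_false]
      push_cast
      exact le_refl _
  have hlarge : ∀ l, (1 - δ / 4) * ht t - 1 ≤ Real.log (comp t l) := by
    intro l
    have f0 : (1 - δ / 4) * ht t ≤ ht t := by
      have : 0 ≤ δ / 4 * ht t := by positivity
      linarith
    have hl : l = 0 ∨ l = 1 ∨ l = 2 := by omega
    rcases hl with rfl | rfl | rfl
    · simp only [comp, if_true]
      linarith
    · simp only [comp, one_ne_zero, if_false, if_true]
      linarith
    · have f1 : (2 : Fin 3) ≠ 0 := by decide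
      have f2 : (2 : Fin 3) ≠ 1 := by decide
      simp only [comp, f1, f2, if_false]
      push_cast
      rw [← hht]
      linarith
  -- mass on `S`
  have hcomppf : ∀ l, (comp t l).primeFactors ⊆ (N t).primeFactors := by
    intro l
    apply Nat.primeFactors_mono _ hT.N_ne
    have hl : l = 0 ∨ l = 1 ∨ l = 2 := by omega
    unfold N
    rcases hl with rfl | rfl | rfl
    · simp only [comp, if_true]
      exact ⟨t.2 * (t.1 + t.2), by ring⟩
    · simp only [comp, one_ne_zero, if_false, if_true]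
      exact ⟨t.1 * (t.1 + t.2), by ring⟩
    · have f1 : (2 : Fin 3) ≠ 0 := by decide
      have f2 : (2 : Fin 3) ≠ 1 := by decide
      simp only [comp, f1, f2, if_false]
      exact Dvd.intro_left _ rfl
  have hmass : ∀ l, (1 - δ) * ht t ≤
      ∑ i, ((comp t l).factorization (P i) : ℝ) * Real.log (P i) := by
    intro l
    have hm0 : comp t l ≠ 0 := (comp_pos hT l).ne'
    have h1 : Real.log (comp t l) =
        ∑ p ∈ (N t).primeFactors ∪ S, ((comp t l).factorization p : ℝ) * Real.log p := by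
      have h2 : (comp t l : ℝ) = ∏ p ∈ (N t).primeFactors ∪ S, (p : ℝ) ^ (comp t l).factorization p := by
        have h3 : ∏ p ∈ (N t).primeFactors ∪ S, p ^ (comp t l).factorization p = comp t l := by
          conv_rhs => rw [← Nat.prod_factorization_pow_eq_self hm0]
          rw [Finsupp.prod, Nat.support_factorization]
          symm
          apply Finset.prod_subset ((hcomppf l).trans Finset.subset_union_left)
          intro q _ hq
          rw [← Nat.support_factorization, Finsupp.notMem_support_iff] at hq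
          rw [hq, pow_zero]
        exact_mod_cast h3.symm
      rw [h2, Real.log_prod]
      · apply Finset.sum_congr rfl
        intro p _
        rw [Real.log_pow]
      · intro p hp
        have hpp : p.Prime := by
          rcases Finset.mem_union.1 hp with h | h
          · exact Nat.prime_of_mem_primeFactors h
          · obtain ⟨i, rfl⟩ := (hmemS p).1 h
            exact hPp i
        have := hpp.pos
        positivity
    have h2 : ∑ p ∈ (N t).primeFactors ∪ S, ((comp t l).factorization p : ℝ) * Real.log p =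
        ∑ p ∈ (N t).primeFactors \ S, ((comp t l).factorization p : ℝ) * Real.log p +
        ∑ p ∈ S, ((comp t l).factorization p : ℝ) * Real.log p := by
      rw [← Finset.sdiff_union_self_eq_union, Finset.sum_union Finset.sdiff_disjoint]
    have h3 : ∑ p ∈ S, ((comp t l).factorization p : ℝ) * Real.log p =
        ∑ i, ((comp t l).factorization (P i) : ℝ) * Real.log (P i) := by
      rw [hS, Finset.sum_image (fun i _ j _ h => hPinj h)]
    have h4 := hout l
    have h5 := hlarge l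
    rw [h1, h2, h3] at h5
    have h6 : (1 - δ) * ht t = ht t - δ * ht t := by ring
    have h7 : (1 - δ / 4) * ht t = ht t - δ * ht t / 4 := by ring
    have h8 : δ / 4 * ht t = δ * ht t / 4 := by ring
    rw [h7] at h5
    rw [h8] at h4
    rw [h6]
    linarith
  -- each member is divisible by one of the primes
  have hex : ∀ l, ∃ i, P i ∣ comp t l := by
    intro l
    by_contra hcon
    push Not at hcon
    have h1 := hmass l
    have h2 : ∑ i, ((comp t l).factorization (P i) : ℝ) * Real.log (P i) = 0 := by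
      apply Finset.sum_eq_zero
      intro i _
      rw [Nat.factorization_eq_zero_of_not_dvd (hcon i)]
      simp
    rw [h2] at h1
    have : 0 < (1 - δ) * ht t := mul_pos (by linarith) hh
    linarith
  choose g hg using hex
  have huniq : ∀ l l' : Fin 3, ∀ i, P i ∣ comp t l → P i ∣ comp t l' → l = l' := by
    intro l l' i h1 h2
    by_contra hne
    exact Nat.not_coprime_of_dvd_of_dvd (hPp i).one_lt h1 h2 (comp_cop hT hne)
  have hginj : Function.Injective g := by
    intro l l' h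
    exact huniq l l' (g l) (hg l) (h ▸ hg l')
  have hgbij : Function.Bijective g := Finite.injective_iff_bijective.1 hginj
  set σ : Equiv.Perm (Fin 3) := (Equiv.ofBijective g hgbij).symm with hσ
  have hσg : ∀ i, g (σ i) = i := fun i => (Equiv.ofBijective g hgbij).apply_symm_apply i
  refine ⟨σ, ?_⟩
  have hσinj : ∀ i j : Fin 3, i ≠ j → σ i ≠ σ j := fun i j h h' => h (σ.injective h')
  refine ⟨fun i => comp_pos hT _, hPp, fun i j h => comp_cop hT (hσinj i j h), ?_,
    fun i j k h1 h2 h3 => comp_dvd_sq (hσinj _ _ h1) (hσinj _ _ h2) (hσinj _ _ h3),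
    fun i => hlog_le _, ?_⟩
  · intro i j h he
    have h1 := comp_cop hT (hσinj i j h)
    rw [he, Nat.coprime_self] at h1
    have h2 := hlarge (σ j)
    rw [h1] at h2
    simp only [Nat.cast_one, Real.log_one] at h2
    have h7 : (1 - δ / 4) * ht t = ht t - δ / 4 * ht t := by ring
    have h8 : δ / 4 * ht t ≤ 1 / 40 * ht t := by
      apply mul_le_mul_of_nonneg_right _ hh.le
      linarith
    linarith
  · intro i
    have h1 := hmass (σ i)
    have h2 : ∑ i', ((comp t (σ i)).factorization (P i') : ℝ) * Real.log (P i') =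
        ((comp t (σ i)).factorization (P i) : ℝ) * Real.log (P i) := by
      apply Finset.sum_eq_single i
      · intro j _ hji
        rw [Nat.factorization_eq_zero_of_not_dvd]
        · simp
        · intro hd
          have h3 := hg (σ j)
          rw [hσg j] at h3
          exact hσinj j i hji (huniq _ _ j h3 hd)
      · intro h
        exact absurd (Finset.mem_univ i) h
    rw [h2] at h1
    exact h1

end Pool.Agent.Lib.AbcO
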