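import Mathlib
import Pool.Agent.Lib.AbcO.Struct
import Pool.Agent.Lib.AbcO.Siegel
import Pool.Agent.Lib.AbcO.Gap
import Pool.Agent.Lib.AbcH.Decay

/-!
# At most one very tall triple
-/

namespace Pool.Agent.Lib.AbcO

open Finset Pool.Agent.Lib.Pabc2 Pool.Agent.Lib.AbcH

/-- Two triples concentrated on the same three primes are equal. -/
theorem eq_of_conc {δ : ℝ} {P : Fin 3 → ℕ} {t t' : ℕ × ℕ} (hT : IsT t) (hT' : IsT t')
    (σ σ' : Equiv.Perm (Fin 3)) (hδ0 : 0 ≤ δ) (hδ : δ ≤ 1 / 100000000)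
    (H : Conc δ (ht t) P (fun i => comp t (σ i))) (H' : Conc δ (ht t') P (fun i => comp t' (σ' i)))
    (hh : 10000 ≤ ht t) (hle : ht t ≤ ht t') : t = t' := by
  have hs := siegel_gap H H' hδ0 (by linarith) hh
  obtain ⟨n, q, hn, hq, hnq⟩ := gap H H' hδ0 hδ (by linarith) hle hs.le
  have f1 : (2 : Fin 3) ≠ 0 := by decide
  have f2 : (2 : Fin 3) ≠ 1 := by decide
  -- the index of the largest member
  have hlt : ∀ {s : ℕ × ℕ}, IsT s → ∀ l : Fin 3, l ≠ 2 → comp s l < comp s 2 := by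
    intro s hs l hl
    have h1 := hs.1
    have h2 := hs.pos2
    have hl' : l = 0 ∨ l = 1 := by omega
    have e2 : comp s 2 = s.1 + s.2 := by simp [comp, f1, f2]
    rcases hl' with rfl | rfl
    · have e0 : comp s 0 = s.1 := by simp [comp]
      omega
    · have e1 : comp s 1 = s.2 := by simp [comp]
      omega
  have hidx : σ' (σ.symm 2) = 2 := by
    by_contra hne
    set i := σ.symm 2 with hi
    set j := σ'.symm 2 with hj
    have hij : i ≠ j := by
      intro h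
      apply hne
      rw [h, hj, Equiv.apply_symm_apply]
    have hσi : σ i = 2 := by rw [hi, Equiv.apply_symm_apply]
    have hσj : σ j ≠ 2 := by
      intro h
      apply hij
      rw [hi, ← h, Equiv.symm_apply_apply]
    have h1 : comp t (σ j) < comp t (σ i) := by
      rw [hσi]
      exact hlt hT _ hσj
    have h2 : comp t' (σ' i) < comp t' (σ' j) := by
      have : σ' j = 2 := by rw [hj, Equiv.apply_symm_apply]
      rw [this]
      exact hlt hT' _ hne
    have h3 : comp t (σ j) ^ n < comp t (σ i) ^ n := Nat.pow_lt_pow_left h1 hn.ne'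
    rw [hnq, hnq] at h3
    have h4 : comp t' (σ' i) ^ q < comp t' (σ' j) ^ q := Nat.pow_lt_pow_left h2 hq.ne'
    omega
  -- the other two indices
  set i2 := σ.symm 2 with hi2
  set i0 := σ.symm 0 with hi0
  set i1 := σ.symm 1 with hi1
  have s2 : σ i2 = 2 := by rw [hi2, Equiv.apply_symm_apply]
  have s0 : σ i0 = 0 := by rw [hi0, Equiv.apply_symm_apply]
  have s1 : σ i1 = 1 := by rw [hi1, Equiv.apply_symm_apply]
  have n01 : i0 ≠ i1 := by
    intro h
    have := congrArg σ h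
    rw [s0, s1] at this
    exact absurd this (by decide)
  have n02 : i0 ≠ i2 := by
    intro h
    have := congrArg σ h
    rw [s0, s2] at this
    exact absurd this (by decide)
  have n12 : i1 ≠ i2 := by
    intro h
    have := congrArg σ h
    rw [s1, s2] at this
    exact absurd this (by decide)
  have g0 : σ' i0 ≠ 2 := by
    intro h
    apply n02
    apply σ'.injective
    rw [h, hidx]
  have g1 : σ' i1 ≠ 2 := by
    intro h
    apply n12
    apply σ'.injective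
    rw [h, hidx]
  have g01 : σ' i0 ≠ σ' i1 := fun h => n01 (σ'.injective h)
  have hsum' : comp t' (σ' i0) + comp t' (σ' i1) = comp t' (σ' i2) := by
    rw [hidx]
    have e2 : comp t' 2 = t'.1 + t'.2 := by simp [comp, f1, f2]
    have e0 : comp t' 0 = t'.1 := by simp [comp]
    have e1 : comp t' 1 = t'.2 := by simp [comp]
    have c0 : σ' i0 = 0 ∨ σ' i0 = 1 := by omega
    have c1 : σ' i1 = 0 ∨ σ' i1 = 1 := by omega
    rcases c0 with c0 | c0 <;> rcases c1 with c1 | c1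
    · exact absurd (c0.trans c1.symm) g01
    · rw [c0, c1, e0, e1, e2]
    · rw [c0, c1, e0, e1, e2, add_comm]
    · exact absurd (c0.trans c1.symm) g01
  have hsum : comp t (σ i0) + comp t (σ i1) = comp t (σ i2) := by
    rw [s0, s1, s2]
    simp [comp, f1, f2]
  have hnq' : n = q := eq_of_sum (comp_pos hT _) (comp_pos hT _) (comp_pos hT' _) (comp_pos hT' _)
    hn hq hsum hsum' (hnq i0) (hnq i1) (hnq i2)
  subst hnq'
  have heq : ∀ i, comp t (σ i) = comp t' (σ' i) := fun i =>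
    Nat.pow_left_injective (n := n) hn.ne' (hnq i)
  have q0 : t.1 = comp t' (σ' i0) := by
    rw [← heq, s0]
    simp [comp]
  have q1 : t.2 = comp t' (σ' i1) := by
    rw [← heq, s1]
    simp [comp]
  have hab := hT.2.1
  have hab' := hT'.2.1
  have e0 : comp t' 0 = t'.1 := by simp [comp]
  have e1 : comp t' 1 = t'.2 := by simp [comp]
  have c0 : σ' i0 = 0 ∨ σ' i0 = 1 := by omega
  have c1 : σ' i1 = 0 ∨ σ' i1 = 1 := by omega
  rcases c0 with c0 | c0 <;> rcases c1 with c1 | c1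
  · exact absurd (c0.trans c1.symm) g01
  · rw [c0, e0] at q0
    rw [c1, e1] at q1
    exact Prod.ext q0 q1
  · rw [c0, e1] at q0
    rw [c1, e0] at q1
    exact Prod.ext (by omega) (by omega)
  · exact absurd (c0.trans c1.symm) g01

/-- three primes containing a given set of at most three primes -/
theorem exists_three (S : Finset ℕ) (hS : ∀ p ∈ S, p.Prime) (hc : S.card ≤ 3) :
    ∃ P : Fin 3 → ℕ, (∀ i, (P i).Prime) ∧ Function.Injective P ∧ ∀ p ∈ S, ∃ i, P i = p := by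
  classical
  have key : ∀ k : ℕ, ∀ S : Finset ℕ, (∀ p ∈ S, p.Prime) → S.card + k = 3 →
      ∃ S' : Finset ℕ, S ⊆ S' ∧ (∀ p ∈ S', p.Prime) ∧ S'.card = 3 := by
    intro k
    induction k with
    | zero =>
      intro S hS hc
      exact ⟨S, Finset.Subset.refl _, hS, by omega⟩
    | succ k ih =>
      intro S hS hc
      obtain ⟨p, hp, hpS⟩ := Nat.infinite_setOfPred_prime.exists_notMem_finset S
      obtain ⟨S', h1, h2, h3⟩ := ih (insert p S) (by
        intro q hq
        rcases Finset.mem_insert.1 hq with rfl | hq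
        · exact hp
        · exact hS q hq) (by
        rw [Finset.card_insert_of_notMem hpS]
        omega)
      exact ⟨S', (Finset.subset_insert _ _).trans h1, h2, h3⟩
  obtain ⟨S', h1, h2, h3⟩ := key (3 - S.card) S hS (by omega)
  refine ⟨fun i => S'.orderEmbOfFin h3 i, fun i => h2 _ (Finset.orderEmbOfFin_mem S' h3 i),
    fun i j h => (S'.orderEmbOfFin h3).injective h, ?_⟩
  intro p hp
  have h4 : p ∈ Set.range (S'.orderEmbOfFin h3) := by
    rw [Finset.range_orderEmbOfFin]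
    exact h1 hp
  exact h4

/-- At most one pair. -/
theorem one_pair {κ : ℕ} (hκ : κ ≤ 2) (hE : ThmE2 κ) (hI : HInf) (η : ℝ) (hη : 0 < η) :
    ∃ K : ℝ, 0 < K ∧ ∀ (r : ℕ) (S : Finset ℕ) (Pb : ℝ) (t t' : ℕ × ℕ), 0 < r → 1 ≤ Pb →
      S.card ≤ 3 → (∀ p ∈ S, p.Prime) → (∀ p ∈ r.primeFactors, p ∉ S → (p : ℝ) ≤ Pb) →
      IsT t → (N t).primeFactors ⊆ r.primeFactors →
      IsT t' → (N t').primeFactors ⊆ r.primeFactors →
      K * (r : ℝ) ^ (3 * η) * Pb ^ κ < ht t → K * (r : ℝ) ^ (3 * η) * Pb ^ κ < ht t' → t = t' := by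
  obtain ⟨K, hK, hst⟩ := struct hκ hE hI (1 / 100000000) η (by norm_num) (by norm_num) hη
  refine ⟨K + 10000, by positivity, ?_⟩
  intro r S Pb t t' hr hPb hS hSp hPS hT hsub hT' hsub' hb hb'
  obtain ⟨P, hPp, hPinj, hPS'⟩ := exists_three S hSp hS
  have hr1 : (1 : ℝ) ≤ r := by exact_mod_cast hr
  have hr0 : (0 : ℝ) < r := by linarith
  have e1 : (1 : ℝ) ≤ (r : ℝ) ^ (3 * η) := Real.one_le_rpow hr1 (by positivity)
  have e2 : (1 : ℝ) ≤ (r : ℝ) ^ (3 * η) * Pb ^ κ :=
    one_le_mul_of_one_le_of_one_le e1 (one_le_pow₀ hPb)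
  have e3 : (K + 10000) * (r : ℝ) ^ (3 * η) * Pb ^ κ =
      K * (r : ℝ) ^ (3 * η) * Pb ^ κ + 10000 * ((r : ℝ) ^ (3 * η) * Pb ^ κ) := by ring
  rw [e3] at hb hb'
  have p1 : 0 < K * (r : ℝ) ^ (3 * η) * Pb ^ κ := by positivity
  have hP' : ∀ p ∈ r.primeFactors, (∀ i, p ≠ P i) → (p : ℝ) ≤ Pb := by
    intro p hp hne
    apply hPS p hp
    intro hpS
    obtain ⟨i, hi⟩ := hPS' p hpS
    exact hne i hi.symm
  obtain ⟨σ, hσ⟩ := hst r P Pb t hr hPb hPp hPinj hP' hT hsub (by linarith)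
  obtain ⟨σ', hσ'⟩ := hst r P Pb t' hr hPb hPp hPinj hP' hT' hsub' (by linarith)
  rcases le_total (ht t) (ht t') with h | h
  · exact eq_of_conc hT hT' σ σ' (by norm_num) le_rfl hσ hσ' (by linarith) h
  · exact (eq_of_conc hT' hT σ' σ (by norm_num) le_rfl hσ' hσ (by linarith) h).symm

/-- an abc-triple gives a pair -/
theorem toPair {a b c r : ℕ} {B : ℝ} (hr : 0 < r) (h : (a, b, c) ∈ high r B) :
    IsT (min a b, max a b) ∧ (N (min a b, max a b)).primeFactors ⊆ r.primeFactors ∧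
      B < ht (min a b, max a b) := by
  obtain ⟨⟨ha, hb, habc, hcop⟩, hdiv, hlt⟩ := h
  simp only at ha hb habc hcop hdiv hlt
  rcases le_total a b with hab | hab
  · rw [min_eq_left hab, max_eq_right hab]
    refine ⟨⟨ha, hab, hcop⟩, primeFactors_sub (c := c) ha hb hr habc hdiv, ?_⟩
    unfold ht
    have : ((a : ℝ) + (b : ℝ)) = (c : ℝ) := by exact_mod_cast habc
    simp only
    rw [this]
    exact hlt
  · rw [min_eq_right hab, max_eq_left hab]
    refine ⟨⟨hb, hab, hcop.symm⟩, primeFactors_sub (c := c) hb ha hr (by omega) ?_, ?_⟩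
    · intro p hp hpd
      apply hdiv p hp
      rwa [mul_comm a b]
    · unfold ht
      have : ((b : ℝ) + (a : ℝ)) = (c : ℝ) := by
        rw [add_comm]
        exact_mod_cast habc
      simp only
      rw [this]
      exact hlt

/-- **At most one** abc-triple, up to exchanging `a` and `b`: `P` bounds the prime factors of `r`
outside a set of at most three primes. -/
theorem one_P {κ : ℕ} (hκ : κ ≤ 2) (hE : ThmE2 κ) (hI : HInf) (ε : ℝ) (hε : 0 < ε) :
    ∃ K : ℝ, 0 < K ∧ ∀ (r : ℕ) (S : Finset ℕ) (P : ℝ), 0 < r → 1 ≤ P → S.card ≤ 3 →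
      (∀ p ∈ S, p.Prime) → (∀ p ∈ r.primeFactors, p ∉ S → (p : ℝ) ≤ P) →
      ∀ a b c a' b' c' : ℕ, (a, b, c) ∈ high r (K * (r : ℝ) ^ ε * P ^ κ) →
        (a', b', c') ∈ high r (K * (r : ℝ) ^ ε * P ^ κ) →
        c = c' ∧ ((a = a' ∧ b = b') ∨ (a = b' ∧ b = a')) := by
  obtain ⟨K, hK, h1⟩ := one_pair hκ hE hI (ε / 3) (by positivity)
  refine ⟨K, hK, ?_⟩
  intro r S P hr hP hS hSp hPS a b c a' b' c' h h'
  have hε3 : 3 * (ε / 3) = ε := by ring
  rw [hε3] at h1
  obtain ⟨t1, t2, t3⟩ := toPair hr h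
  obtain ⟨t1', t2', t3'⟩ := toPair hr h'
  have heq := h1 r S P _ _ hr hP hS hSp hPS t1 t2 t1' t2' t3 t3'
  simp only [Prod.mk.injEq] at heq
  have hc : a + b = c := h.1.2.2.1
  have hc' : a' + b' = c' := h'.1.2.2.1
  obtain ⟨e1, e2⟩ := heq
  rcases le_total a b with hab | hab <;> rcases le_total a' b' with hab' | hab'
  · rw [min_eq_left hab, min_eq_left hab'] at e1
    rw [max_eq_right hab, max_eq_right hab'] at e2
    exact ⟨by omega, Or.inl ⟨e1, e2⟩⟩
  · rw [min_eq_left hab, min_eq_right hab'] at e1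
    rw [max_eq_right hab, max_eq_left hab'] at e2
    exact ⟨by omega, Or.inr ⟨e1, e2⟩⟩
  · rw [min_eq_right hab, min_eq_left hab'] at e1
    rw [max_eq_left hab, max_eq_right hab'] at e2
    exact ⟨by omega, Or.inr ⟨e2, e1⟩⟩
  · rw [min_eq_right hab, min_eq_right hab'] at e1
    rw [max_eq_left hab, max_eq_left hab'] at e2
    exact ⟨by omega, Or.inl ⟨e2, e1⟩⟩

/-- **At most one** abc-triple composed of primes of `r`, up to exchanging `a` and `b`, has
`log c > K r ^ (κ / 4 + ε)`. -/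
theorem one_quarter {κ : ℕ} (hκ : κ ≤ 2) (hE : ThmE2 κ) (hI : HInf) (ε : ℝ) (hε : 0 < ε) :
    ∃ K : ℝ, 0 < K ∧ ∀ r : ℕ, 0 < r →
      ∀ a b c a' b' c' : ℕ, (a, b, c) ∈ high r (K * (r : ℝ) ^ ((κ : ℝ) / 4 + ε)) →
        (a', b', c') ∈ high r (K * (r : ℝ) ^ ((κ : ℝ) / 4 + ε)) →
        c = c' ∧ ((a = a' ∧ b = b') ∨ (a = b' ∧ b = a')) := by
  obtain ⟨K, hK, h1⟩ := one_P hκ hE hI ε hε
  refine ⟨K, hK, ?_⟩
  intro r hr a b c a' b' c' h h'
  have hr1 : (1 : ℝ) ≤ r := by exact_mod_cast hr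
  have hr0 : (0 : ℝ) < r := by linarith
  have h4 := card_large r 3 hr
  norm_num at h4
  have h2 : K * (r : ℝ) ^ ε * ((r : ℝ) ^ ((1 : ℝ) / 4)) ^ κ =
      K * (r : ℝ) ^ ((κ : ℝ) / 4 + ε) := by
    rw [← Real.rpow_natCast, ← Real.rpow_mul hr0.le, mul_assoc, ← Real.rpow_add hr0]
    congr 2
    ring
  rw [← h2] at h h'
  refine h1 r (r.primeFactors.filter (fun p : ℕ => (r : ℝ) ^ ((1 : ℝ) / 4) < p))
    ((r : ℝ) ^ ((1 : ℝ) / 4)) hr (Real.one_le_rpow hr1 (by norm_num)) h4 ?_ ?_ a b c a' b' c' h h'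
  · intro p hp
    exact Nat.prime_of_mem_primeFactors (Finset.filter_subset _ _ hp)
  · intro p hp hpS
    by_contra hcon
    push Not at hcon
    exact hpS (Finset.mem_filter.2 ⟨hp, hcon⟩)

end Pool.Agent.Lib.AbcO
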