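import Mathlib
import Pool.Agent.Lib.AbcO.One

/-!
# No triple above the third largest prime, and the table from there on
-/

namespace Pool.Agent.Lib.AbcO

open Finset Pool.Agent.Lib.Pabc2 Pool.Agent.Lib.AbcH

/-- No pair is very tall when only two primes exceed the bound. -/
theorem none_pair {κ : ℕ} (hκ : κ ≤ 2) (hE : ThmE2 κ) (hI : HInf) (η : ℝ) (hη : 0 < η) :
    ∃ K : ℝ, 0 < K ∧ ∀ (r : ℕ) (S : Finset ℕ) (Pb : ℝ) (t : ℕ × ℕ), 0 < r → 1 ≤ Pb →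
      S.card ≤ 2 → (∀ p ∈ S, p.Prime) → (∀ p ∈ r.primeFactors, p ∉ S → (p : ℝ) ≤ Pb) →
      IsT t → (N t).primeFactors ⊆ r.primeFactors →
      ht t ≤ K * (r : ℝ) ^ (3 * η) * Pb ^ κ := by
  classical
  obtain ⟨K, hK, hst⟩ := struct hκ hE hI (1 / 10) η (by norm_num) (by norm_num) hη
  refine ⟨K, hK, ?_⟩
  intro r S Pb t hr hPb hS hSp hPS hT hsub
  by_contra hcon
  push Not at hcon
  obtain ⟨q, hq, hqS⟩ := Nat.infinite_setOfPred_prime.exists_notMem_finset (S ∪ r.primeFactors)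
  rw [Finset.mem_union, not_or] at hqS
  obtain ⟨P, hPp, hPinj, hPS'⟩ := exists_three (insert q S) (by
    intro p hp
    rcases Finset.mem_insert.1 hp with rfl | hp
    · exact hq
    · exact hSp p hp) (by
    rw [Finset.card_insert_of_notMem hqS.1]
    omega)
  have hP' : ∀ p ∈ r.primeFactors, (∀ i, p ≠ P i) → (p : ℝ) ≤ Pb := by
    intro p hp hne
    apply hPS p hp
    intro hpS
    obtain ⟨i, hi⟩ := hPS' p (Finset.mem_insert_of_mem hpS)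
    exact hne i hi.symm
  obtain ⟨σ, H⟩ := hst r P Pb t hr hPb hPp hPinj hP' hT hsub hcon
  obtain ⟨i, hi⟩ := hPS' q (Finset.mem_insert_self q S)
  have hd : P i ∣ comp t (σ i) :=
    (dvd_pow_self _ (H.ev_pos (by norm_num) (ht_pos hT) i).ne').trans (H.dvd_pow i)
  have hdN : comp t (σ i) ∣ N t := by
    have hl : σ i = 0 ∨ σ i = 1 ∨ σ i = 2 := by omega
    unfold N
    rcases hl with h | h | h <;> rw [h]
    · simp only [comp, if_true]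
      exact ⟨t.2 * (t.1 + t.2), by ring⟩
    · simp only [comp, one_ne_zero, if_false, if_true]
      exact ⟨t.1 * (t.1 + t.2), by ring⟩
    · have f1 : (2 : Fin 3) ≠ 0 := by decide
      have f2 : (2 : Fin 3) ≠ 1 := by decide
      simp only [comp, f1, f2, if_false]
      exact Dvd.intro_left _ rfl
  apply hqS.2
  apply hsub
  rw [Nat.mem_primeFactors, ← hi]
  exact ⟨hPp i, hd.trans hdN, hT.N_ne⟩

/-- **None**: `P` bounds the prime factors of `r` outside a set of at most two primes. -/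
theorem none_P {κ : ℕ} (hκ : κ ≤ 2) (hE : ThmE2 κ) (hI : HInf) (ε : ℝ) (hε : 0 < ε) :
    ∃ K : ℝ, 0 < K ∧ ∀ (r : ℕ) (S : Finset ℕ) (P : ℝ), 0 < r → 1 ≤ P → S.card ≤ 2 →
      (∀ p ∈ r.primeFactors, p ∉ S → (p : ℝ) ≤ P) →
      high r (K * (r : ℝ) ^ ε * P ^ κ) = ∅ := by
  classical
  obtain ⟨K, hK, h1⟩ := none_pair hκ hE hI (ε / 3) (by positivity)
  refine ⟨K, hK, ?_⟩
  intro r S P hr hP hS hPS
  rw [Set.eq_empty_iff_forall_notMem]
  rintro ⟨a, b, c⟩ h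
  obtain ⟨t1, t2, t3⟩ := toPair hr h
  have hε3 : 3 * (ε / 3) = ε := by ring
  rw [hε3] at h1
  have h2 := h1 r (S.filter Nat.Prime) P _ hr hP ((Finset.card_filter_le _ _).trans hS)
    (fun p hp => (Finset.mem_filter.1 hp).2) (by
      intro p hp hpS
      apply hPS p hp
      intro h3
      exact hpS (Finset.mem_filter.2 ⟨h3, Nat.prime_of_mem_primeFactors hp⟩)) t1 t2
  linarith

/-- Every abc-triple composed of primes of `r` has `log c ≤ K r ^ (κ / 3 + ε)`. -/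
theorem none_third {κ : ℕ} (hκ : κ ≤ 2) (hE : ThmE2 κ) (hI : HInf) (ε : ℝ) (hε : 0 < ε) :
    ∃ K : ℝ, 0 < K ∧ ∀ r : ℕ, 0 < r → high r (K * (r : ℝ) ^ ((κ : ℝ) / 3 + ε)) = ∅ := by
  obtain ⟨K, hK, h1⟩ := none_P hκ hE hI ε hε
  refine ⟨K, hK, ?_⟩
  intro r hr
  have hr1 : (1 : ℝ) ≤ r := by exact_mod_cast hr
  have hr0 : (0 : ℝ) < r := by linarith
  have h4 := card_large r 2 hr
  norm_num at h4
  have h2 : K * (r : ℝ) ^ ε * ((r : ℝ) ^ ((1 : ℝ) / 3)) ^ κ =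
      K * (r : ℝ) ^ ((κ : ℝ) / 3 + ε) := by
    rw [← Real.rpow_natCast, ← Real.rpow_mul hr0.le, mul_assoc, ← Real.rpow_add hr0]
    congr 2
    ring
  rw [← h2]
  refine h1 r (r.primeFactors.filter (fun p : ℕ => (r : ℝ) ^ ((1 : ℝ) / 3) < p))
    ((r : ℝ) ^ ((1 : ℝ) / 3)) hr (Real.one_le_rpow hr1 (by norm_num)) h4 ?_
  intro p hp hpS
  by_contra hcon
  push Not at hcon
  exact hpS (Finset.mem_filter.2 ⟨hp, hcon⟩)

/-- **The table above the third largest prime**: fewer than `C ^ k` triples when at most `k + 2`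
primes exceed the bound. -/
theorem table3 {κ : ℕ} (hκ : κ ≤ 2) (hE : ThmE2 κ) (hI : HInf) : ∃ C : ℝ, 1 ≤ C ∧
    ∀ ε : ℝ, 0 < ε → ∃ K : ℝ, 0 < K ∧ ∀ (r k : ℕ) (S : Finset ℕ) (P : ℝ), 0 < r → 1 ≤ P →
      S.card ≤ k + 2 → (∀ p ∈ r.primeFactors, p ∉ S → (p : ℝ) ≤ P) →
      (high r (K * (r : ℝ) ^ ε * P ^ κ)).Finite ∧
      ((high r (K * (r : ℝ) ^ ε * P ^ κ)).ncard : ℝ) < C ^ k := by
  have hC1 := one_lt_C1
  refine ⟨C1 ^ 3, one_le_pow₀ (by linarith), ?_⟩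
  intro ε hε
  obtain ⟨K1, hK1, h1⟩ := none_P hκ hE hI ε hε
  obtain ⟨K2, hK2, h2⟩ := count_high hκ hE (ε / 3) (by positivity)
  have hε3 : 3 * (ε / 3) = ε := by ring
  rw [hε3] at h2
  refine ⟨K1 + K2, by positivity, ?_⟩
  intro r k S P hr hP hS hPS
  have hr1 : (1 : ℝ) ≤ r := by exact_mod_cast hr
  have hr0 : (0 : ℝ) < r := by linarith
  have p1 : 0 ≤ (r : ℝ) ^ ε * P ^ κ := by positivity
  have e : ∀ x y : ℝ, 0 ≤ y → x * (r : ℝ) ^ ε * P ^ κ ≤ (x + y) * (r : ℝ) ^ ε * P ^ κ := by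
    intro x y hy
    have := mul_nonneg hy p1
    nlinarith
  have hs1 : high r ((K1 + K2) * (r : ℝ) ^ ε * P ^ κ) ⊆ high r (K1 * (r : ℝ) ^ ε * P ^ κ) :=
    high_anti r (e K1 K2 hK2.le)
  have hs2 : high r ((K1 + K2) * (r : ℝ) ^ ε * P ^ κ) ⊆ high r (K2 * (r : ℝ) ^ ε * P ^ κ) :=
    high_anti r (by rw [add_comm]; exact e K2 K1 hK1.le)
  obtain ⟨f1, f2⟩ := h2 r S P hr hP hPS
  refine ⟨f1.subset hs2, ?_⟩
  rcases Nat.eq_zero_or_pos k with rfl | hk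
  · have h3 := h1 r S P hr hP (by omega) hPS
    rw [h3] at hs1
    rw [Set.subset_empty_iff.1 hs1]
    simp
  · have h3 : ((high r ((K1 + K2) * (r : ℝ) ^ ε * P ^ κ)).ncard : ℝ) ≤
        (high r (K2 * (r : ℝ) ^ ε * P ^ κ)).ncard := by
      exact_mod_cast Set.ncard_le_ncard hs2 f1
    have h4 : C1 ^ S.card ≤ (C1 ^ 3) ^ k := by
      rw [← pow_mul]
      exact pow_le_pow_right₀ (by linarith) (by omega)
    linarith

/-- Exponent `κ / (k + 3) + ε` outside fewer than `C ^ k` triples (none for `k = 0`). -/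
theorem table_third {κ : ℕ} (hκ : κ ≤ 2) (hE : ThmE2 κ) (hI : HInf) : ∃ C : ℝ, 1 ≤ C ∧
    ∀ ε : ℝ, 0 < ε → ∃ K : ℝ, 0 < K ∧ ∀ r k : ℕ, 0 < r →
      (high r (K * (r : ℝ) ^ ((κ : ℝ) / ((k : ℝ) + 3) + ε))).Finite ∧
      ((high r (K * (r : ℝ) ^ ((κ : ℝ) / ((k : ℝ) + 3) + ε))).ncard : ℝ) < C ^ k := by
  obtain ⟨C, hC, h1⟩ := table3 hκ hE hI
  refine ⟨C, hC, ?_⟩
  intro ε hε
  obtain ⟨K, hK, h1⟩ := h1 ε hε
  refine ⟨K, hK, ?_⟩
  intro r k hr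
  have hr1 : (1 : ℝ) ≤ r := by exact_mod_cast hr
  have hr0 : (0 : ℝ) < r := by linarith
  have h4 := card_large r (k + 2) hr
  have h5 : (((k + 2 : ℕ) : ℝ) + 1) = (k : ℝ) + 3 := by
    push_cast
    ring
  rw [h5] at h4
  have h2 : K * (r : ℝ) ^ ε * ((r : ℝ) ^ (1 / ((k : ℝ) + 3))) ^ κ =
      K * (r : ℝ) ^ ((κ : ℝ) / ((k : ℝ) + 3) + ε) := by
    rw [← Real.rpow_natCast, ← Real.rpow_mul hr0.le, mul_assoc, ← Real.rpow_add hr0]
    congr 2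
    ring
  rw [← h2]
  refine h1 r k (r.primeFactors.filter (fun p : ℕ => (r : ℝ) ^ (1 / ((k : ℝ) + 3)) < p))
    ((r : ℝ) ^ (1 / ((k : ℝ) + 3))) hr (Real.one_le_rpow hr1 (by positivity)) h4 ?_
  intro p hp hpS
  by_contra hcon
  push Not at hcon
  exact hpS (Finset.mem_filter.2 ⟨hp, hcon⟩)

end Pool.Agent.Lib.AbcO
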