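import Mathlib
import Pool.Agent.Lib.AbcH.AlmostR
import Pool.Agent.Lib.AbcO.None

/-!
# Almost all `r`: dyadic form
-/

namespace Pool.Agent.Lib.AbcO

open Finset Filter Topology Pool.Agent.Lib.Pabc2 Pool.Agent.Lib.Pabc1 Pool.Agent.Lib.AbcH

/-- the `r ≤ Y` with a triple composed of primes of `r` and `log c ≥ r ^ e` -/
def bad (e : ℝ) (Y : ℕ) : Set ℕ := {r : ℕ | 1 ≤ r ∧ r ≤ Y ∧ ∃ t : ℕ × ℕ, IsT t ∧
  (N t).primeFactors ⊆ r.primeFactors ∧ (r : ℝ) ^ e ≤ ht t}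

theorem bad_sub (e : ℝ) (Y : ℕ) : bad e Y ⊆ ((Finset.Ioc 0 Y : Finset ℕ) : Set ℕ) := by
  intro r hr
  rw [Finset.coe_Ioc, Set.mem_Ioc]
  exact ⟨hr.1, hr.2.1⟩

theorem bad_fin (e : ℝ) (Y : ℕ) : (bad e Y).Finite := (Finset.finite_toSet _).subset (bad_sub e Y)

theorem bad_le (e : ℝ) (Y : ℕ) : ((bad e Y).ncard : ℝ) ≤ Y := by
  have h2 := Set.ncard_le_ncard (bad_sub e Y) (Finset.finite_toSet _)
  rw [Set.ncard_coe_finset, Nat.card_Ioc, Nat.sub_zero] at h2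
  exact_mod_cast h2

/-- one dyadic block -/
theorem block_le (s K L0 : ℝ)
    (hsum : ∀ L : ℝ, L0 ≤ L → ∀ T : Finset (ℕ × ℕ),
      (∀ t ∈ T, IsT t ∧ L ≤ ht t) → ∑ t ∈ T, 1 / (rd t : ℝ) ≤ K * L ^ (-s))
    (e : ℝ) (he : 0 < e) (Y : ℕ) (hY : 1 ≤ Y) (hL0 : L0 ≤ ((Y : ℝ) / 2) ^ e) :
    (((bad e Y) \ (bad e (Y / 2))).ncard : ℝ) ≤ K * (2 : ℝ) ^ (s * e) * (Y : ℝ) ^ (1 - s * e) := by
  classical
  have hY0 : (0 : ℝ) < Y := by exact_mod_cast hY
  set L : ℝ := ((Y : ℝ) / 2) ^ e with hL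
  set S : Set ℕ := (bad e Y) \ (bad e (Y / 2)) with hSdef
  have hfin : S.Finite := (bad_fin e Y).subset Set.sdiff_subset
  have hprop : ∀ r ∈ S, 1 ≤ r ∧ r ≤ Y ∧ (Y : ℝ) / 2 ≤ r ∧ ∃ t : ℕ × ℕ, IsT t ∧
      (N t).primeFactors ⊆ r.primeFactors ∧ (r : ℝ) ^ e ≤ ht t := by
    rintro r ⟨⟨h1, h2, h3⟩, h4⟩
    refine ⟨h1, h2, ?_, h3⟩
    have h5 : Y / 2 < r := by
      by_contra hcon
      exact h4 ⟨h1, not_lt.1 hcon, h3⟩
    have h6 : Y ≤ 2 * r := by omega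
    rw [div_le_iff₀ (by norm_num)]
    have : (Y : ℝ) ≤ 2 * r := by exact_mod_cast h6
    linarith
  have hex : ∀ r : ℕ, ∃ t : ℕ × ℕ, r ∈ S → IsT t ∧ (N t).primeFactors ⊆ r.primeFactors ∧
      (r : ℝ) ^ e ≤ ht t := by
    intro r
    by_cases hr : r ∈ S
    · obtain ⟨t, ht'⟩ := (hprop r hr).2.2.2
      exact ⟨t, fun _ => ht'⟩
    · exact ⟨(0, 0), fun h => absurd h hr⟩
  choose g hg using hex
  set A : Finset ℕ := hfin.toFinset with hA
  have hmemA : ∀ r ∈ A, r ∈ S := fun r hr => (Set.Finite.mem_toFinset hfin).1 hr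
  set T : Finset (ℕ × ℕ) := A.image g with hT
  have hTprop : ∀ t ∈ T, IsT t ∧ L ≤ ht t := by
    intro t ht'
    rw [hT, Finset.mem_image] at ht'
    obtain ⟨r, hr, rfl⟩ := ht'
    have hrS := hmemA r hr
    obtain ⟨h1, _, h3⟩ := hg r hrS
    exact ⟨h1, (Real.rpow_le_rpow (by positivity) (hprop r hrS).2.2.1 he.le).trans h3⟩
  have hsumT := hsum L hL0 T hTprop
  have hAc : (A.card : ℝ) ≤ (Y : ℝ) * (K * L ^ (-s)) := by
    have h1 : A ⊆ T.biUnion (fun t => (Finset.Ioc 0 Y).filter (fun r => rd t ∣ r)) := by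
      intro r hr
      rw [Finset.mem_biUnion]
      refine ⟨g r, Finset.mem_image_of_mem g hr, ?_⟩
      have hrS := hmemA r hr
      obtain ⟨_, h2, _⟩ := hg r hrS
      rw [Finset.mem_filter, Finset.mem_Ioc]
      refine ⟨⟨(hprop r hrS).1, (hprop r hrS).2.1⟩, ?_⟩
      exact (Finset.prod_dvd_prod_of_subset _ _ _ h2).trans (Nat.prod_primeFactors_dvd r)
    have h2 : A.card ≤ ∑ t ∈ T, Y / rd t := by
      refine (Finset.card_le_card h1).trans (Finset.card_biUnion_le.trans ?_)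
      apply Finset.sum_le_sum
      intro t _
      rw [Nat.Ioc_filter_dvd_card_eq_div]
    calc (A.card : ℝ) ≤ ((∑ t ∈ T, Y / rd t : ℕ) : ℝ) := by exact_mod_cast h2
      _ ≤ ∑ t ∈ T, (Y : ℝ) * (1 / (rd t : ℝ)) := by
          push_cast
          apply Finset.sum_le_sum
          intro t _
          rw [mul_one_div]
          exact Nat.cast_div_le
      _ = (Y : ℝ) * ∑ t ∈ T, 1 / (rd t : ℝ) := by rw [Finset.mul_sum]
      _ ≤ (Y : ℝ) * (K * L ^ (-s)) := mul_le_mul_of_nonneg_left hsumT hY0.le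
  have hncard : (S.ncard : ℝ) = (A.card : ℝ) := by
    rw [Set.ncard_eq_toFinset_card S hfin]
  rw [hncard]
  refine hAc.trans (le_of_eq ?_)
  have h1 : L ^ (-s) = (2 : ℝ) ^ (s * e) * (Y : ℝ) ^ (-(s * e)) := by
    rw [hL, ← Real.rpow_mul (by positivity), Real.div_rpow hY0.le (by norm_num),
      show e * -s = -(s * e) by ring, Real.rpow_neg (by norm_num : (0 : ℝ) ≤ 2), div_inv_eq_mul,
      mul_comm]
  have h2 : (Y : ℝ) ^ (1 - s * e) = Y * (Y : ℝ) ^ (-(s * e)) := by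
    rw [sub_eq_add_neg, Real.rpow_add hY0, Real.rpow_one]
  rw [h1, h2]
  ring

/-- The number of `r ≤ Y` with a triple composed of primes of `r` and `log c ≥ r ^ e` is at most
`K Y ^ (1 - s e)`. -/
theorem bad_of_sum (s : ℝ)
    (hS : ∃ K L0 : ℝ, 0 < K ∧ 1 ≤ L0 ∧ ∀ L : ℝ, L0 ≤ L → ∀ T : Finset (ℕ × ℕ),
      (∀ t ∈ T, IsT t ∧ L ≤ ht t) → ∑ t ∈ T, 1 / (rd t : ℝ) ≤ K * L ^ (-s))
    (e : ℝ) (he : 0 < e) (hse : s * e < 1) : ∃ K : ℝ, 0 < K ∧ ∀ Y : ℕ, 1 ≤ Y →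
    ((bad e Y).ncard : ℝ) ≤ K * (Y : ℝ) ^ (1 - s * e) := by
  obtain ⟨K1, L0, hK1, hL0, hsum⟩ := hS
  set x : ℝ := (2 : ℝ) ^ (-(1 - s * e)) with hx
  have hx0 : 0 < x := by positivity
  have hx1 : x < 1 := Real.rpow_lt_one_of_one_lt_of_neg (by norm_num) (by linarith)
  have hx2 : 0 < 1 - x := by linarith
  set Y0 : ℝ := 2 * L0 ^ (1 / e) with hY0
  have hL0' : (1 : ℝ) ≤ L0 ^ (1 / e) := Real.one_le_rpow hL0 (by positivity)
  set K2 : ℝ := K1 * (2 : ℝ) ^ (s * e) with hK2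
  have hK20 : 0 < K2 := by positivity
  refine ⟨K2 / (1 - x) + Y0, by positivity, ?_⟩
  have hK3 : 0 < K2 / (1 - x) := by positivity
  intro Y
  induction Y using Nat.strong_induction_on with
  | _ Y ih =>
    intro hY
    have hYp : (0 : ℝ) < Y := by exact_mod_cast hY
    have hY1 : (1 : ℝ) ≤ Y := by exact_mod_cast hY
    have hYq : (1 : ℝ) ≤ (Y : ℝ) ^ (1 - s * e) := Real.one_le_rpow hY1 (by linarith)
    by_cases hc : (Y : ℝ) < Y0
    · calc ((bad e Y).ncard : ℝ) ≤ Y := bad_le e Y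
        _ ≤ Y0 * 1 := by linarith
        _ ≤ (K2 / (1 - x) + Y0) * (Y : ℝ) ^ (1 - s * e) := by
          apply mul_le_mul (by linarith) hYq (by norm_num) (by positivity)
    · push Not at hc
      have hY2 : 2 ≤ Y := by
        have : (2 : ℝ) ≤ Y := by linarith
        exact_mod_cast this
      have hL : L0 ≤ ((Y : ℝ) / 2) ^ e := by
        have h1 : L0 ^ (1 / e) ≤ (Y : ℝ) / 2 := by
          rw [le_div_iff₀ (by norm_num)]
          linarith
        calc L0 = (L0 ^ (1 / e)) ^ e := by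
              rw [← Real.rpow_mul (by linarith), one_div_mul_cancel he.ne', Real.rpow_one]
          _ ≤ _ := Real.rpow_le_rpow (by positivity) h1 he.le
      have hb := block_le s K1 L0 hsum e he Y hY hL
      have hi := ih (Y / 2) (by omega) (by omega)
      have h2 : (((Y / 2 : ℕ) : ℕ) : ℝ) ^ (1 - s * e) ≤ x * (Y : ℝ) ^ (1 - s * e) := by
        have h3 : (((Y / 2 : ℕ) : ℕ) : ℝ) ≤ (Y : ℝ) / 2 := Nat.cast_div_le
        calc (((Y / 2 : ℕ) : ℕ) : ℝ) ^ (1 - s * e) ≤ ((Y : ℝ) / 2) ^ (1 - s * e) :=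
              Real.rpow_le_rpow (Nat.cast_nonneg _) h3 (by linarith)
          _ = x * (Y : ℝ) ^ (1 - s * e) := by
            rw [Real.div_rpow hYp.le (by norm_num), hx, Real.rpow_neg (by norm_num : (0 : ℝ) ≤ 2)]
            ring
      have h4 : ((bad e Y).ncard : ℝ) ≤ ((bad e Y) \ (bad e (Y / 2))).ncard +
          (bad e (Y / 2)).ncard := by
        have h5 : bad e Y ⊆ ((bad e Y) \ (bad e (Y / 2))) ∪ bad e (Y / 2) := by
          intro r hr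
          by_cases h6 : r ∈ bad e (Y / 2)
          · exact Or.inr h6
          · exact Or.inl ⟨hr, h6⟩
        have h6 := Set.ncard_le_ncard h5
          (((bad_fin e Y).subset Set.sdiff_subset).union (bad_fin e (Y / 2)))
        have h7 := Set.ncard_union_le ((bad e Y) \ (bad e (Y / 2))) (bad e (Y / 2))
        exact_mod_cast h6.trans h7
      have h8 : (K2 / (1 - x) + Y0) * (((Y / 2 : ℕ) : ℕ) : ℝ) ^ (1 - s * e) ≤
          (K2 / (1 - x) + Y0) * (x * (Y : ℝ) ^ (1 - s * e)) :=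
        mul_le_mul_of_nonneg_left h2 (by positivity)
      have h9 : K2 / (1 - x) * (1 - x) = K2 := by field_simp
      have h10 : 0 ≤ Y0 * (1 - x) * (Y : ℝ) ^ (1 - s * e) := by positivity
      calc ((bad e Y).ncard : ℝ)
          ≤ K2 * (Y : ℝ) ^ (1 - s * e) +
            (K2 / (1 - x) + Y0) * (x * (Y : ℝ) ^ (1 - s * e)) := by linarith
        _ = (K2 / (1 - x) * (1 - x)) * (Y : ℝ) ^ (1 - s * e) +
            (K2 / (1 - x) + Y0) * (x * (Y : ℝ) ^ (1 - s * e)) := by rw [h9]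
        _ ≤ (K2 / (1 - x) + Y0) * (Y : ℝ) ^ (1 - s * e) := by linarith

/-- the height bound as an eventual statement -/
theorem height_ev (hE : ThmE2 1) (hI : HInf) (θ : ℝ) (hθ : 1 / 3 < θ) :
    ∀ᶠ n : ℕ in atTop, ∀ t : ℕ × ℕ, IsT t → rd t ≤ n → ht t ≤ (n : ℝ) ^ θ := by
  set ε : ℝ := (θ - 1 / 3) / 2 with hε
  have hε0 : 0 < ε := by rw [hε]; linarith
  obtain ⟨K, hK, h1⟩ := none_pair (κ := 1) (by norm_num) hE hI (ε / 3) (by positivity)
  have hlim : Tendsto (fun n : ℕ => ((n : ℕ) : ℝ) ^ ε) atTop atTop :=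
    (tendsto_rpow_atTop hε0).comp tendsto_natCast_atTop_atTop
  filter_upwards [hlim.eventually_ge_atTop K, eventually_ge_atTop 1] with n hn hn1 t hT hrd
  have hn0 : (0 : ℝ) < n := by exact_mod_cast hn1
  have hr : 0 < rd t := Pool.Agent.Lib.AbcL.rd_pos t
  have hr1 : (1 : ℝ) ≤ rd t := by exact_mod_cast hr
  have hr0 : (0 : ℝ) < rd t := by linarith
  have hrn : (rd t : ℝ) ≤ n := by exact_mod_cast hrd
  have hpf : (N t).primeFactors ⊆ (rd t).primeFactors := by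
    intro p hp
    rw [Nat.mem_primeFactors]
    exact ⟨Nat.prime_of_mem_primeFactors hp, Finset.dvd_prod_of_mem _ hp, hr.ne'⟩
  have h4 := card_large (rd t) 2 hr
  norm_num at h4
  have h5 := h1 (rd t) ((rd t).primeFactors.filter (fun p : ℕ => (rd t : ℝ) ^ ((1 : ℝ) / 3) < p))
    ((rd t : ℝ) ^ ((1 : ℝ) / 3)) t hr (Real.one_le_rpow hr1 (by norm_num)) h4
    (fun p hp => Nat.prime_of_mem_primeFactors (Finset.filter_subset _ _ hp)) (by
      intro p hp hpS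
      by_contra hcon
      push Not at hcon
      exact hpS (Finset.mem_filter.2 ⟨hp, hcon⟩)) hT hpf
  refine h5.trans ?_
  rw [pow_one, mul_assoc, ← Real.rpow_add hr0]
  have h6 : 3 * (ε / 3) + 1 / 3 = θ - ε := by rw [hε]; ring
  rw [h6]
  calc K * (rd t : ℝ) ^ (θ - ε) ≤ (n : ℝ) ^ ε * (n : ℝ) ^ (θ - ε) := by
        apply mul_le_mul hn _ (by positivity) (by positivity)
        exact Real.rpow_le_rpow hr0.le hrn (by rw [hε]; linarith)
    _ = (n : ℝ) ^ θ := by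
        rw [← Real.rpow_add hn0]
        congr 1
        ring

/-- The sum of the inverse radicals of the triples with `log c ≥ L` is at most `K L ^ (-s)`,
`s < 2`. -/
theorem sum_inv_two (hE : ThmE2 1) (hI : HInf) (s : ℝ) (hs : 0 < s) (hs2 : s < 2) :
    ∃ K L0 : ℝ, 0 < K ∧ 1 ≤ L0 ∧ ∀ L : ℝ, L0 ≤ L → ∀ T : Finset (ℕ × ℕ),
      (∀ t ∈ T, IsT t ∧ L ≤ ht t) → ∑ t ∈ T, 1 / (rd t : ℝ) ≤ K * L ^ (-s) := by
  set θ : ℝ := (1 / 3 + 2 / (3 * s)) / 2 with hθ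
  have h1 : 1 / 3 < 2 / (3 * s) := by
    rw [div_lt_div_iff₀ (by norm_num) (by positivity)]
    linarith
  have h2 : s * (2 / (3 * s)) = 2 / 3 := by field_simp
  refine sum_inv_gen θ s (by rw [hθ]; positivity) hs ?_ (height_ev hE hI θ (by rw [hθ]; linarith))
  have h3 : s * θ = (s * (1 / 3) + s * (2 / (3 * s))) / 2 := by rw [hθ]; ring
  rw [h3, h2]
  linarith

/-- **Almost all `r`.** -/
theorem almost_pair (hE : ThmE2 1) (hI : HInf) (e η : ℝ) (he : 0 < e) (he1 : e ≤ 1 / 2)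
    (hη : 0 < η) : ∃ K : ℝ, 0 < K ∧ ∀ Y : ℕ, 1 ≤ Y →
    ((bad e Y).ncard : ℝ) ≤ K * (Y : ℝ) ^ (1 - 2 * e + η) := by
  set s : ℝ := 2 - min η 1 with hs
  have hm0 : 0 < min η 1 := by positivity
  have hm1 : min η 1 ≤ 1 := min_le_right _ _
  have hm2 : min η 1 ≤ η := min_le_left _ _
  have hs0 : 0 < s := by rw [hs]; linarith
  have hse : s * e < 1 := by
    calc s * e ≤ s * (1 / 2) := mul_le_mul_of_nonneg_left he1 hs0.le
      _ < 1 := by rw [hs]; linarith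
  obtain ⟨K, hK, h1⟩ := bad_of_sum s (sum_inv_two hE hI s hs0 (by rw [hs]; linarith)) e he hse
  refine ⟨K, hK, fun Y hY => (h1 Y hY).trans ?_⟩
  have hY1 : (1 : ℝ) ≤ Y := by exact_mod_cast hY
  refine mul_le_mul_of_nonneg_left (Real.rpow_le_rpow_of_exponent_le hY1 ?_) hK.le
  have h2 : s * e = 2 * e - min η 1 * e := by rw [hs]; ring
  have h3 : min η 1 * e ≤ η * 1 := mul_le_mul hm2 (by linarith) he.le hη.le
  linarith

/-- **Almost all `r`**, for abc-triples. -/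
theorem almost (hE : ThmE2 1) (hI : HInf) (e η : ℝ) (he : 0 < e) (he1 : e ≤ 1 / 2)
    (hη : 0 < η) : ∃ K : ℝ, 0 < K ∧ ∀ Y : ℕ, 1 ≤ Y →
    (({r : ℕ | 1 ≤ r ∧ r ≤ Y ∧ ∃ a b c : ℕ, AbcTriple a b c ∧
      (∀ p : ℕ, p.Prime → p ∣ a * b * c → p ∣ r) ∧ (r : ℝ) ^ e ≤ Real.log c}).ncard : ℝ) ≤
      K * (Y : ℝ) ^ (1 - 2 * e + η) := by
  obtain ⟨K, hK, h1⟩ := almost_pair hE hI e η he he1 hη
  refine ⟨K, hK, fun Y hY => le_trans ?_ (h1 Y hY)⟩
  have hsub : {r : ℕ | 1 ≤ r ∧ r ≤ Y ∧ ∃ a b c : ℕ, AbcTriple a b c ∧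
      (∀ p : ℕ, p.Prime → p ∣ a * b * c → p ∣ r) ∧ (r : ℝ) ^ e ≤ Real.log c} ⊆ bad e Y := by
    rintro r ⟨hr1, hrY, a, b, c, ⟨ha, hb, habc, hcop⟩, hdiv, hlog⟩
    refine ⟨hr1, hrY, ?_⟩
    rcases le_total a b with hab | hab
    · refine ⟨(a, b), ⟨ha, hab, hcop⟩, primeFactors_sub (c := c) ha hb hr1 habc hdiv, ?_⟩
      unfold ht
      have : ((a : ℝ) + (b : ℝ)) = (c : ℝ) := by exact_mod_cast habc
      simp only
      rw [this]
      exact hlog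
    · refine ⟨(b, a), ⟨hb, hab, hcop.symm⟩, primeFactors_sub (c := c) hb ha hr1 (by omega) ?_, ?_⟩
      · intro p hp hpd
        apply hdiv p hp
        rwa [mul_comm a b]
      · unfold ht
        have : ((b : ℝ) + (a : ℝ)) = (c : ℝ) := by
          rw [add_comm]
          exact_mod_cast habc
        simp only
        rw [this]
        exact hlog
  exact_mod_cast Set.ncard_le_ncard hsub (bad_fin e Y)

end Pool.Agent.Lib.AbcO
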