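import Mathlib
import Pool.Agent.Lib.AbcO.Almost

/-!
# Almost all `r`, from a height bound with a general exponent
-/

namespace Pool.Agent.Lib.AbcO

open Finset Filter Topology Pool.Agent.Lib.Pabc2 Pool.Agent.Lib.Pabc1 Pool.Agent.Lib.AbcH

/-- Every abc-triple composed of primes of `r` has `log c ≤ K r ^ (θ + ε)`. -/
def HeightTh (θ : ℝ) : Prop := ∀ ε : ℝ, 0 < ε → ∃ K : ℝ, 0 < K ∧ ∀ a b c r : ℕ, AbcTriple a b c →
  0 < r → (∀ p : ℕ, p.Prime → p ∣ a * b * c → p ∣ r) → Real.log c ≤ K * (r : ℝ) ^ (θ + ε)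

/-- the height bound as an eventual statement -/
theorem height_ev_gen (θ θ' : ℝ) (hθ0 : 0 < θ) (h : HeightTh θ) (hθ : θ < θ') :
    ∀ᶠ n : ℕ in atTop, ∀ t : ℕ × ℕ, IsT t → rd t ≤ n → ht t ≤ (n : ℝ) ^ θ' := by
  set ε : ℝ := (θ' - θ) / 2 with hε
  have hε0 : 0 < ε := by rw [hε]; linarith
  obtain ⟨K, hK, h1⟩ := h ε hε0
  have hlim : Tendsto (fun n : ℕ => ((n : ℕ) : ℝ) ^ ε) atTop atTop :=
    (tendsto_rpow_atTop hε0).comp tendsto_natCast_atTop_atTop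
  filter_upwards [hlim.eventually_ge_atTop K, eventually_ge_atTop 1] with n hn hn1 t hT hrd
  have hn0 : (0 : ℝ) < n := by exact_mod_cast hn1
  have hr : 0 < rd t := Pool.Agent.Lib.AbcL.rd_pos t
  have hr1 : (1 : ℝ) ≤ rd t := by exact_mod_cast hr
  have hr0 : (0 : ℝ) < rd t := by linarith
  have hrn : (rd t : ℝ) ≤ n := by exact_mod_cast hrd
  have h5 := h1 t.1 t.2 (t.1 + t.2) (rd t) ⟨hT.1, hT.pos2, rfl, hT.2.2⟩ hr (by
    intro p hp hpd
    apply Finset.dvd_prod_of_mem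
    rw [Nat.mem_primeFactors]
    exact ⟨hp, hpd, hT.N_ne⟩)
  have h6 : ht t ≤ K * (rd t : ℝ) ^ (θ + ε) := by
    unfold ht
    push_cast at h5
    exact h5
  refine h6.trans ?_
  calc K * (rd t : ℝ) ^ (θ + ε) ≤ (n : ℝ) ^ ε * (n : ℝ) ^ (θ + ε) := by
        apply mul_le_mul hn _ (by positivity) (by positivity)
        exact Real.rpow_le_rpow hr0.le hrn (by positivity)
    _ = (n : ℝ) ^ θ' := by
        rw [← Real.rpow_add hn0]
        congr 1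
        rw [hε]
        ring

/-- The sum of the inverse radicals of the triples with `log c ≥ L` is at most `K L ^ (-s)`. -/
theorem sum_inv_theta (θ : ℝ) (hθ : 0 < θ) (h : HeightTh θ) (s : ℝ) (hs : 0 < s)
    (hs2 : s * θ < 2 / 3) :
    ∃ K L0 : ℝ, 0 < K ∧ 1 ≤ L0 ∧ ∀ L : ℝ, L0 ≤ L → ∀ T : Finset (ℕ × ℕ),
      (∀ t ∈ T, IsT t ∧ L ≤ ht t) → ∑ t ∈ T, 1 / (rd t : ℝ) ≤ K * L ^ (-s) := by
  set θ' : ℝ := (θ + 2 / (3 * s)) / 2 with hθ'
  have h1 : θ < 2 / (3 * s) := by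
    rw [lt_div_iff₀ (by positivity)]
    linarith
  have h2 : s * (2 / (3 * s)) = 2 / 3 := by field_simp
  refine sum_inv_gen θ' s (by rw [hθ']; positivity) hs ?_
    (height_ev_gen θ θ' hθ h (by rw [hθ']; linarith))
  have h3 : s * θ' = (s * θ + s * (2 / (3 * s))) / 2 := by rw [hθ']; ring
  rw [h3, h2]
  linarith

/-- **Almost all `r`.** -/
theorem almost_pair_theta (θ : ℝ) (hθ : 0 < θ) (h : HeightTh θ) (e η : ℝ) (he : 0 < e)
    (he1 : e < 3 * θ / 2) (hη : 0 < η) : ∃ K : ℝ, 0 < K ∧ ∀ Y : ℕ, 1 ≤ Y →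
    ((bad e Y).ncard : ℝ) ≤ K * (Y : ℝ) ^ (1 - 2 * e / (3 * θ) + η) := by
  set s0 : ℝ := 2 / (3 * θ) with hs0
  have hs0p : 0 < s0 := by positivity
  set δ : ℝ := min (η / e) (s0 / 2) with hδ
  have hδ0 : 0 < δ := by positivity
  have hδ1 : δ ≤ s0 / 2 := min_le_right _ _
  have hδ2 : δ * e ≤ η := by
    have h1 : δ ≤ η / e := min_le_left _ _
    rwa [le_div_iff₀ he] at h1
  set s : ℝ := s0 - δ with hs
  have hsp : 0 < s := by rw [hs]; linarith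
  have hs0e : s0 * e = 2 * e / (3 * θ) := by rw [hs0]; ring
  have hs0e1 : s0 * e < 1 := by
    rw [hs0e, div_lt_one (by positivity)]
    linarith
  have hse : s * e < 1 := by
    have : s * e ≤ s0 * e := by
      apply mul_le_mul_of_nonneg_right _ he.le
      rw [hs]
      linarith
    linarith
  have hsθ : s * θ < 2 / 3 := by
    have h1 : s0 * θ = 2 / 3 := by
      rw [hs0]
      field_simp
    have h2 : s * θ < s0 * θ := by
      apply mul_lt_mul_of_pos_right _ hθ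
      rw [hs]
      linarith
    linarith
  obtain ⟨K, hK, h1⟩ := bad_of_sum s (sum_inv_theta θ hθ h s hsp hsθ) e he hse
  refine ⟨K, hK, fun Y hY => (h1 Y hY).trans ?_⟩
  have hY1 : (1 : ℝ) ≤ Y := by exact_mod_cast hY
  refine mul_le_mul_of_nonneg_left (Real.rpow_le_rpow_of_exponent_le hY1 ?_) hK.le
  have h2 : s * e = s0 * e - δ * e := by rw [hs]; ring
  rw [h2, hs0e]
  linarith

theorem abc_bad_sub (e : ℝ) (Y : ℕ) : {r : ℕ | 1 ≤ r ∧ r ≤ Y ∧ ∃ a b c : ℕ, AbcTriple a b c ∧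
      (∀ p : ℕ, p.Prime → p ∣ a * b * c → p ∣ r) ∧ (r : ℝ) ^ e ≤ Real.log c} ⊆ bad e Y := by
  rintro r ⟨hr1, hrY, a, b, c, ⟨ha, hb, habc, hcop⟩, hdiv, hlog⟩
  refine ⟨hr1, hrY, ?_⟩
  rcases le_total a b with hab | hab
  · refine ⟨(a, b), ⟨ha, hab, hcop⟩, primeFactors_sub (c := c) ha hb hr1 habc hdiv, ?_⟩
    unfold ht
    have : ((a : ℝ) + (b : ℝ)) = (c : ℝ) := by exact_mod_cast habc
    simp only
    rw [this]
    exact hlog
  · refine ⟨(b, a), ⟨hb, hab, hcop.symm⟩, primeFactors_sub (c := c) hb ha hr1 (by omega) ?_, ?_⟩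
    · intro p hp hpd
      apply hdiv p hp
      rwa [mul_comm a b]
    · unfold ht
      have : ((b : ℝ) + (a : ℝ)) = (c : ℝ) := by
        rw [add_comm]
        exact_mod_cast habc
      simp only
      rw [this]
      exact hlog

/-- **Almost all `r`**, for abc-triples: exponent `1 - 2 e / (3 θ) + η`. -/
theorem almost_theta (θ : ℝ) (hθ : 0 < θ) (h : HeightTh θ) (e η : ℝ) (he : 0 < e)
    (he1 : e < 3 * θ / 2) (hη : 0 < η) : ∃ K : ℝ, 0 < K ∧ ∀ Y : ℕ, 1 ≤ Y →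
    (({r : ℕ | 1 ≤ r ∧ r ≤ Y ∧ ∃ a b c : ℕ, AbcTriple a b c ∧
      (∀ p : ℕ, p.Prime → p ∣ a * b * c → p ∣ r) ∧ (r : ℝ) ^ e ≤ Real.log c}).ncard : ℝ) ≤
      K * (Y : ℝ) ^ (1 - 2 * e / (3 * θ) + η) := by
  obtain ⟨K, hK, h1⟩ := almost_pair_theta θ hθ h e η he he1 hη
  refine ⟨K, hK, fun Y hY => le_trans ?_ (h1 Y hY)⟩
  exact_mod_cast Set.ncard_le_ncard (abc_bad_sub e Y) (bad_fin e Y)

end Pool.Agent.Lib.AbcO
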