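import Mathlib

/-!
# Triples concentrated on four primes, two of them in the same member
-/

namespace Pool.Agent.Lib.AbcO

/-- `x, y, w` are the members of an abc-triple, in some order; `x` is essentially a product of
powers of the primes `P 0` and `P 1`, both with a mass at least `δ' h`, and `y`, `w` are
essentially powers of `P 2`, `P 3`. -/
structure EConc (δ δ' h : ℝ) (P : Fin 4 → ℕ) (x y w : ℕ) : Prop where
  prime : ∀ i, (P i).Prime
  inj : Function.Injective P
  xpos : 0 < x
  ypos : 0 < y
  wpos : 0 < w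
  cxy : Nat.Coprime x y
  cxw : Nat.Coprime x w
  cyw : Nat.Coprime y w
  sum : x + y = w ∨ y + w = x ∨ x + w = y
  ux : Real.log x ≤ h
  uy : Real.log y ≤ h
  uw : Real.log w ≤ h
  m0 : δ' * h ≤ (x.factorization (P 0) : ℝ) * Real.log (P 0)
  m1 : δ' * h ≤ (x.factorization (P 1) : ℝ) * Real.log (P 1)
  mx : (1 - δ) * h ≤ (x.factorization (P 0) : ℝ) * Real.log (P 0) +
    (x.factorization (P 1) : ℝ) * Real.log (P 1)
  my : (1 - δ) * h ≤ (y.factorization (P 2) : ℝ) * Real.log (P 2)
  mw : (1 - δ) * h ≤ (w.factorization (P 3) : ℝ) * Real.log (P 3)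

end Pool.Agent.Lib.AbcO
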