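import Mathlib
import Pool.Agent.Lib.AbcO.EdgeConc

/-!
# Two triples with the same two large primes in one member

If `y ^ n = y' ^ q` and `w ^ n = w' ^ q` for the other two members then the triples are equal.
-/

namespace Pool.Agent.Lib.AbcO

open Finset

/-! ### Roots -/

theorem exists_root {X q : ℕ} (hX : X ≠ 0) (h : ∀ p, q ∣ X.factorization p) : ∃ g, X = g ^ q := by
  refine ⟨∏ p ∈ X.primeFactors, p ^ (X.factorization p / q), ?_⟩
  rw [← Finset.prod_pow]
  conv_lhs => rw [← Nat.prod_factorization_pow_eq_self hX]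
  rw [Finsupp.prod, Nat.support_factorization]
  refine Finset.prod_congr rfl fun p _ => ?_
  rw [← pow_mul, Nat.div_mul_cancel (h p)]

theorem common_root {X X' n q : ℕ} (hX : 0 < X) (hq : 0 < q) (hc : Nat.Coprime n q)
    (h : X ^ n = X' ^ q) : ∃ g, 0 < g ∧ X = g ^ q ∧ X' = g ^ n := by
  obtain ⟨g, hg⟩ := exists_root (q := q) hX.ne' fun p => by
    have h1 : (X ^ n).factorization p = (X' ^ q).factorization p := by rw [h]
    rw [Nat.factorization_pow, Nat.factorization_pow] at h1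
    simp only [Finsupp.smul_apply, smul_eq_mul] at h1
    exact (Nat.Coprime.dvd_of_dvd_mul_left hc.symm (h1 ▸ Dvd.intro _ rfl))
  refine ⟨g, ?_, hg, ?_⟩
  · rcases Nat.eq_zero_or_pos g with h0 | h0
    · rw [h0, zero_pow hq.ne'] at hg
      omega
    · exact h0
  · apply Nat.pow_left_injective (n := q) (by omega)
    show X' ^ q = (g ^ n) ^ q
    rw [← h, hg, ← pow_mul, ← pow_mul, mul_comm]

/-! ### Congruences -/

/-- if `x ^ n = y ^ n` and `x ^ q = y ^ q` modulo `k` and `n`, `q` are coprime then `x = y` modulo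
`k` -/
theorem dvd_sub_of_pow {k : ℕ} {x y : ℕ} {n q : ℕ} (hc : Nat.Coprime n q) (hx : Nat.Coprime x k)
    (hy : Nat.Coprime y k) (h1 : (k : ℤ) ∣ (x : ℤ) ^ n - (y : ℤ) ^ n)
    (h2 : (k : ℤ) ∣ (x : ℤ) ^ q - (y : ℤ) ^ q) : (k : ℤ) ∣ (x : ℤ) - y := by
  set u := ZMod.unitOfCoprime x hx with hu
  set v := ZMod.unitOfCoprime y hy with hv
  have key : ∀ j : ℕ, (k : ℤ) ∣ (x : ℤ) ^ j - (y : ℤ) ^ j → (u / v) ^ j = 1 := by
    intro j hj
    rw [div_pow, div_eq_one]
    ext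
    rw [Units.val_pow_eq_pow_val, Units.val_pow_eq_pow_val, hu, hv, ZMod.coe_unitOfCoprime,
      ZMod.coe_unitOfCoprime]
    have h3 : (((x : ℤ) ^ j - (y : ℤ) ^ j : ℤ) : ZMod k) = 0 :=
      (ZMod.intCast_zmod_eq_zero_iff_dvd _ _).2 hj
    push_cast at h3
    exact sub_eq_zero.1 h3
  have h3 : (u / v) ^ Nat.gcd n q = 1 := pow_gcd_eq_one.2 ⟨key n h1, key q h2⟩
  rw [hc.gcd_eq_one, pow_one, div_eq_one] at h3
  have h4 := congrArg (fun w : (ZMod k)ˣ => (w : ZMod k)) h3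
  simp only [hu, hv, ZMod.coe_unitOfCoprime] at h4
  rw [← ZMod.intCast_zmod_eq_zero_iff_dvd]
  push_cast
  rw [h4, sub_self]

/-- lifting the exponent -/
theorem lte {p : ℕ} (hp : p.Prime) {x y : ℤ} (hxy : (p : ℤ) ∣ x - y) (h4 : p = 2 → 4 ∣ x - y)
    (hx : ¬ (p : ℤ) ∣ x) {n a : ℕ} (h : (p : ℤ) ^ a ∣ x ^ n - y ^ n) :
    (p : ℤ) ^ a ∣ (x - y) * n := by
  have hpp : _root_.Prime (p : ℤ) := Nat.prime_iff_prime_int.1 hp
  have key : emultiplicity (p : ℤ) (x ^ n - y ^ n) = emultiplicity (p : ℤ) ((x - y) * n) := by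
    rw [emultiplicity_mul hpp]
    rcases hp.eq_two_or_odd' with h2 | h2
    · subst h2
      have := Int.two_pow_sub_pow' n (h4 rfl) (by exact_mod_cast hx)
      exact_mod_cast this
    · rw [Int.emultiplicity_pow_sub_pow hp h2 hxy hx n, Int.natCast_emultiplicity]
  rw [pow_dvd_iff_le_emultiplicity] at h ⊢
  rwa [← key]

/-- If a large power of `p` divides `U` and no power `> 2` of `p` divides `U` and `V` then all of
the power of `p` in `U * V` is in `2 * U`. -/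
theorem dvd_two_mul {p : ℕ} (hp : p.Prime) {U V : ℤ} {a k : ℕ} (ha : (p : ℤ) ^ a ∣ U)
    (ha2 : ¬ (p : ℤ) ^ a ∣ 2) (hUV : ∀ e : ℕ, (p : ℤ) ^ e ∣ U → (p : ℤ) ^ e ∣ V → (p : ℤ) ^ e ∣ 2)
    (hk : (p : ℤ) ^ k ∣ U * V) : (p : ℤ) ^ k ∣ 2 * U := by
  have hpp : _root_.Prime (p : ℤ) := Nat.prime_iff_prime_int.1 hp
  have hV : ¬ (p : ℤ) ^ a ∣ V := fun h => ha2 (hUV a ha h)
  -- the largest power in `V`
  have hex : ∃ e, (p : ℤ) ^ e ∣ V ∧ ¬ (p : ℤ) ^ (e + 1) ∣ V := by
    by_contra hcon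
    push Not at hcon
    apply hV
    clear hk hUV ha2 ha
    induction a with
    | zero => rw [pow_zero]; exact one_dvd _
    | succ a ih =>
      by_cases h : (p : ℤ) ^ a ∣ V
      · exact hcon a h
      · exact hcon a (ih h)
  obtain ⟨e, he, he'⟩ := hex
  have hea : e < a := by
    by_contra hcon
    push Not at hcon
    exact hV ((pow_dvd_pow _ hcon).trans he)
  have he2 : (p : ℤ) ^ e ∣ 2 := hUV e ((pow_dvd_pow _ hea.le).trans ha) he
  obtain ⟨W, hW⟩ := he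
  have hWp : ¬ (p : ℤ) ∣ W := by
    intro h
    apply he'
    rw [hW, pow_succ]
    exact mul_dvd_mul_left _ h
  have h1 : (p : ℤ) ^ k ∣ (p : ℤ) ^ e * U := by
    have h2 : IsCoprime ((p : ℤ) ^ k) W :=
      IsCoprime.pow_left ((Prime.coprime_iff_not_dvd hpp).2 hWp)
    apply h2.dvd_of_dvd_mul_right
    rw [show (p : ℤ) ^ e * U * W = U * V by rw [hW]; ring]
    exact hk
  exact h1.trans (mul_dvd_mul_right he2 U)

/-! ### The two large primes -/

theorem four_lt {p k : ℕ} (hp : p.Prime) (h : 10 ≤ (k : ℝ) * Real.log p) : 4 < p ^ k := by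
  have hp0 : (0 : ℝ) < p := by exact_mod_cast hp.pos
  have h1 : Real.log 4 < Real.log ((p : ℝ) ^ k) := by
    rw [Real.log_pow]
    have h2 : Real.log 4 = 2 * Real.log 2 := by
      rw [show (4 : ℝ) = 2 ^ 2 from by norm_num, Real.log_pow]
      norm_num
    have := Real.log_two_lt_d9
    rw [h2]
    linarith
  rw [Real.log_lt_log_iff (by norm_num) (by positivity)] at h1
  exact_mod_cast h1

/-- the common power of the prime `P i` in `x` and `x'` -/
def ck (P : Fin 4 → ℕ) (x x' : ℕ) (i : Fin 4) : ℕ :=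
  min (x.factorization (P i)) (x'.factorization (P i))

theorem ck_comm (P : Fin 4 → ℕ) (x x' : ℕ) (i : Fin 4) : ck P x x' i = ck P x' x i := min_comm _ _

theorem ck_dvd (P : Fin 4 → ℕ) (x x' : ℕ) (i : Fin 4) : P i ^ ck P x x' i ∣ x :=
  (pow_dvd_pow _ (min_le_left _ _)).trans (Nat.ordProj_dvd _ _)

theorem ck_dvd' (P : Fin 4 → ℕ) (x x' : ℕ) (i : Fin 4) : P i ^ ck P x x' i ∣ x' :=
  (pow_dvd_pow _ (min_le_right _ _)).trans (Nat.ordProj_dvd _ _)

section

variable {δ δ' h1 h2 : ℝ} {P : Fin 4 → ℕ} {x y w x' y' w' : ℕ}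

theorem EConc.mass (H : EConc δ δ' h1 P x y w) {i : Fin 4} (hi : i = 0 ∨ i = 1) :
    δ' * h1 ≤ (x.factorization (P i) : ℝ) * Real.log (P i) := by
  rcases hi with rfl | rfl
  · exact H.m0
  · exact H.m1

theorem ck_mass (H : EConc δ δ' h1 P x y w) (H' : EConc δ δ' h2 P x' y' w')
    (hb1 : 10 ≤ δ' * h1) (hb2 : 10 ≤ δ' * h2)
    {i : Fin 4} (hi : i = 0 ∨ i = 1) : 10 ≤ (ck P x x' i : ℝ) * Real.log (P i) := by
  unfold ck
  rcases min_choice (x.factorization (P i)) (x'.factorization (P i)) with h | h <;> rw [h]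
  · exact hb1.trans (H.mass hi)
  · exact hb2.trans (H'.mass hi)

theorem EConc.h_nonneg (H : EConc δ δ' h1 P x y w) : 0 ≤ h1 :=
  (Real.log_natCast_nonneg _).trans H.ux

theorem EConc.not_dvd (H : EConc δ δ' h1 P x y w) {i : Fin 4} {k : ℕ} (hk : k ≠ 0)
    (h0 : P i ^ k ∣ x) : ¬ P i ∣ y ∧ ¬ P i ∣ w := by
  have h3 := (dvd_pow_self _ hk).trans h0
  exact ⟨fun hd => Nat.not_coprime_of_dvd_of_dvd (H.prime i).one_lt h3 hd H.cxy,
    fun hd => Nat.not_coprime_of_dvd_of_dvd (H.prime i).one_lt h3 hd H.cxw⟩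

/-- the product of the powers of the two primes divides a number: bound for its logarithm -/
theorem EConc.log_le (H : EConc δ δ' h1 P x y w) {X : ℕ} (hX : 0 < X)
    (e0 : P 0 ^ x.factorization (P 0) ∣ X) (e1 : P 1 ^ x.factorization (P 1) ∣ X) :
    (1 - δ) * h1 ≤ Real.log X := by
  refine H.mx.trans ?_
  have p0 : (0 : ℝ) < P 0 := by exact_mod_cast (H.prime 0).pos
  have p1 : (0 : ℝ) < P 1 := by exact_mod_cast (H.prime 1).pos
  rw [← Real.log_pow, ← Real.log_pow, ← Real.log_mul (by positivity) (by positivity)]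
  apply Real.log_le_log (by positivity)
  have hne : P 0 ≠ P 1 := fun h => absurd (H.inj h) (by decide)
  have hc : Nat.Coprime (P 0 ^ x.factorization (P 0)) (P 1 ^ x.factorization (P 1)) :=
    Nat.Coprime.pow _ _ ((Nat.coprime_primes (H.prime 0) (H.prime 1)).2 hne)
  exact_mod_cast Nat.le_of_dvd hX (hc.mul_dvd_of_dvd_of_dvd e0 e1)

theorem EConc.dvd_sq (H : EConc δ δ' h1 P x y w) : (x : ℤ) ∣ (y : ℤ) ^ 2 - (w : ℤ) ^ 2 := by
  rcases H.sum with s | s | s
  · have h : (w : ℤ) = x + y := by exact_mod_cast s.symm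
    exact ⟨-(2 * y + x), by rw [h]; ring⟩
  · have h : (x : ℤ) = y + w := by exact_mod_cast s.symm
    exact ⟨y - w, by rw [h]; ring⟩
  · have h : (y : ℤ) = x + w := by exact_mod_cast s.symm
    exact ⟨2 * w + x, by rw [h]; ring⟩

theorem EConc.yw_ne (H : EConc δ δ' h1 P x y w) (hδ : δ < 1) (hh : 0 < h1) : y ≠ w := by
  intro h
  have h2 := H.cyw
  rw [← h, Nat.coprime_self] at h2
  have h3 := H.my
  rw [h2, Nat.factorization_one] at h3
  simp only [Finsupp.coe_zero, Pi.zero_apply, Nat.cast_zero, zero_mul] at h3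
  have : 0 < (1 - δ) * h1 := mul_pos (by linarith) hh
  linarith

/-- the roots -/
structure Roots (y w y' w' n q g f : ℕ) : Prop where
  gpos : 0 < g
  fpos : 0 < f
  y : y = g ^ q
  y' : y' = g ^ n
  w : w = f ^ q
  w' : w' = f ^ n

/-- the data of the two primes -/
theorem primes_data (H : EConc δ δ' h1 P x y w) (H' : EConc δ δ' h2 P x' y' w')
    (hb1 : 10 ≤ δ' * h1) (hb2 : 10 ≤ δ' * h2) {i : Fin 4} (hi : i = 0 ∨ i = 1) :
    4 < P i ^ ck P x x' i ∧ ck P x x' i ≠ 0 ∧ ¬ P i ∣ y ∧ ¬ P i ∣ w ∧ ¬ P i ∣ y' ∧ ¬ P i ∣ w' ∧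
      ¬ ((P i : ℕ) : ℤ) ^ ck P x x' i ∣ 2 := by
  have h4 := four_lt (H.prime i) (ck_mass H H' hb1 hb2 hi)
  have h0 : ck P x x' i ≠ 0 := by
    intro h0
    rw [h0, pow_zero] at h4
    omega
  have h5 := H.not_dvd h0 (ck_dvd P x x' i)
  have h6 := H'.not_dvd h0 (ck_dvd' P x x' i)
  refine ⟨h4, h0, h5.1, h5.2, h6.1, h6.2, fun h => ?_⟩
  have h7 : P i ^ ck P x x' i ∣ 2 := by exact_mod_cast h
  have := Nat.le_of_dvd (by norm_num) h7
  omega

/-- `n ≤ 2` -/
theorem n_le_two (H : EConc δ δ' h1 P x y w) (H' : EConc δ δ' h2 P x' y' w')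
    {n q g f : ℕ} (hn : 0 < n) (hq : 0 < q) (hc : Nat.Coprime n q) (hR : Roots y w y' w' n q g f)
    (hδ : δ ≤ 1 / 10) (hb1 : 10 ≤ δ' * h1) (hb2 : 10 ≤ δ' * h2) (hh2 : 0 < h2)
    (hln : Real.log n ≤ h2 / 100) : n ≤ 2 := by
  obtain ⟨hg0, hf0, hg, hg', hf, hf'⟩ := hR
  have hgf : g ≠ f := by
    intro h
    exact H'.yw_ne (by linarith) hh2 (by rw [hg', hf', h])
  -- `g ^ 2 - f ^ 2` is divisible by the common powers
  have hsq : ∀ i : Fin 4, i = 0 ∨ i = 1 → ((P i : ℕ) : ℤ) ^ ck P x x' i ∣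
      ((g ^ 2 : ℕ) : ℤ) - ((f ^ 2 : ℕ) : ℤ) := by
    intro i hi
    obtain ⟨-, -, n1, n2, -, -, -⟩ := primes_data H H' hb1 hb2 hi
    have c1 : ∀ {z m : ℕ}, ¬ P i ∣ m → z ∣ m → Nat.Coprime (z ^ 2) (P i ^ ck P x x' i) := by
      intro z m hm hz
      refine Nat.Coprime.pow _ _ (Nat.Coprime.symm ?_)
      rw [Nat.Prime.coprime_iff_not_dvd (H.prime i)]
      intro h
      exact hm (h.trans hz)
    have hgm : g ∣ y := by rw [hg]; exact dvd_pow_self _ hq.ne'
    have hfm : f ∣ w := by rw [hf]; exact dvd_pow_self _ hq.ne'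
    have h5 := dvd_sub_of_pow (k := P i ^ ck P x x' i) (x := g ^ 2) (y := f ^ 2) hc
      (c1 n1 hgm) (c1 n2 hfm)
      (by
        have h6 := (Int.natCast_dvd_natCast.2 (ck_dvd' P x x' i)).trans H'.dvd_sq
        rw [hg', hf'] at h6
        push_cast at h6 ⊢
        rwa [← pow_mul, ← pow_mul, mul_comm n 2, pow_mul, pow_mul] at h6)
      (by
        have h6 := (Int.natCast_dvd_natCast.2 (ck_dvd P x x' i)).trans H.dvd_sq
        rw [hg, hf] at h6
        push_cast at h6 ⊢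
        rwa [← pow_mul, ← pow_mul, mul_comm q 2, pow_mul, pow_mul] at h6)
    push_cast at h5 ⊢
    exact h5
  -- lifting the exponent
  have hlte : ∀ i : Fin 4, i = 0 ∨ i = 1 → ((P i : ℕ) : ℤ) ^ x'.factorization (P i) ∣
      (((g ^ 2 : ℕ) : ℤ) - ((f ^ 2 : ℕ) : ℤ)) * n := by
    intro i hi
    obtain ⟨h4, hk0, n1, n2, -, -, -⟩ := primes_data H H' hb1 hb2 hi
    refine lte (H.prime i) ((dvd_pow_self _ hk0).trans (hsq i hi)) ?_ ?_ ?_
    · intro h2
      refine Dvd.dvd.trans ?_ (hsq i hi)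
      rw [h2] at h4
      have h6 : 2 ≤ ck P x x' i := by
        by_contra hcon
        push Not at hcon
        have : 2 ^ ck P x x' i ≤ 2 ^ 1 := Nat.pow_le_pow_right (by norm_num) (by omega)
        omega
      rw [h2]
      exact pow_dvd_pow (2 : ℤ) h6
    · intro h
      have h5 : P i ∣ g ^ 2 := by exact_mod_cast h
      have h6 := (H.prime i).dvd_of_dvd_pow h5
      exact n1 (h6.trans (by rw [hg]; exact dvd_pow_self _ hq.ne'))
    · have h6 := (Int.natCast_dvd_natCast.2 (Nat.ordProj_dvd x' (P i))).trans H'.dvd_sq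
      rw [hg', hf'] at h6
      push_cast at h6 ⊢
      rwa [← pow_mul, ← pow_mul, mul_comm n 2, pow_mul, pow_mul] at h6
  have hnR : (0 : ℝ) < n := by exact_mod_cast hn
  have hgR : (0 : ℝ) < g := by exact_mod_cast hg0
  have hfR : (0 : ℝ) < f := by exact_mod_cast hf0
  have hlg : (n : ℝ) * Real.log g ≤ h2 := by
    have := H'.uy
    rw [hg'] at this
    push_cast at this
    rwa [Real.log_pow] at this
  have hlf : (n : ℝ) * Real.log f ≤ h2 := by
    have := H'.uw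
    rw [hf'] at this
    push_cast at this
    rwa [Real.log_pow] at this
  by_contra hcon
  push Not at hcon
  have hn3 : (3 : ℝ) ≤ n := by exact_mod_cast hcon
  set X : ℕ := ((((g ^ 2 : ℕ) : ℤ) - ((f ^ 2 : ℕ) : ℤ)) * n).natAbs with hX
  have hX0 : 0 < X := by
    rw [hX, Int.natAbs_pos]
    refine mul_ne_zero ?_ (by exact_mod_cast hn.ne')
    rw [sub_ne_zero]
    intro h
    apply hgf
    have h5 : g ^ 2 = f ^ 2 := by exact_mod_cast h
    exact Nat.pow_left_injective (n := 2) (by norm_num) h5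
  have hXd : ∀ i : Fin 4, i = 0 ∨ i = 1 → P i ^ x'.factorization (P i) ∣ X := by
    intro i hi
    rw [hX]
    have := hlte i hi
    rw [← Int.natCast_pow] at this
    exact Int.natCast_dvd.1 this
  have h5 := H'.log_le hX0 (hXd 0 (Or.inl rfl)) (hXd 1 (Or.inr rfl))
  have h6 : (X : ℝ) ≤ (max g f : ℝ) ^ 2 * n := by
    have h7 : (X : ℝ) = |((g : ℝ) ^ 2 - (f : ℝ) ^ 2) * n| := by
      rw [hX, Nat.cast_natAbs]
      push_cast
      rfl
    rw [h7, abs_mul, abs_of_pos hnR]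
    apply mul_le_mul_of_nonneg_right _ hnR.le
    have m1 : (g : ℝ) ≤ max (g : ℝ) f := le_max_left _ _
    have m2 : (f : ℝ) ≤ max (g : ℝ) f := le_max_right _ _
    have m3 : (g : ℝ) ^ 2 ≤ (max (g : ℝ) f) ^ 2 := by gcongr
    have m4 : (f : ℝ) ^ 2 ≤ (max (g : ℝ) f) ^ 2 := by gcongr
    have m5 : 0 ≤ (g : ℝ) ^ 2 := by positivity
    have m6 : 0 ≤ (f : ℝ) ^ 2 := by positivity
    rw [abs_le]
    constructor <;> linarith
  have hmx : (0 : ℝ) < max (g : ℝ) f := lt_max_of_lt_left hgR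
  have hlm : (n : ℝ) * Real.log (max (g : ℝ) f) ≤ h2 := by
    rcases max_choice (g : ℝ) f with h | h <;> rw [h] <;> assumption
  have h8 : Real.log X ≤ 2 * Real.log (max (g : ℝ) f) + Real.log n := by
    have := Real.log_le_log (by exact_mod_cast hX0) h6
    rw [Real.log_mul (by positivity) hnR.ne', Real.log_pow] at this
    exact_mod_cast this
  have h10 : 0.85 * h2 ≤ (1 - δ) * h2 - h2 / 100 := by
    have : δ * h2 ≤ 1 / 10 * h2 := by gcongr
    have e : (1 - δ) * h2 = h2 - δ * h2 := by ring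
    rw [e]
    linarith
  have h11 : (n : ℝ) * (0.85 * h2) ≤ 2 * h2 := by
    calc (n : ℝ) * (0.85 * h2) ≤ n * (2 * Real.log (max (g : ℝ) f)) := by
          apply mul_le_mul_of_nonneg_left _ hnR.le
          linarith
      _ = 2 * (n * Real.log (max (g : ℝ) f)) := by ring
      _ ≤ 2 * h2 := by linarith
  nlinarith

/-- a power of `P i` greater than `2` does not divide `y + w` and `y - w` -/
theorem not_both (H : EConc δ δ' h1 P x y w) {i : Fin 4} (hy : ¬ P i ∣ y) {e : ℕ}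
    (f1 : ((P i : ℕ) : ℤ) ^ e ∣ (y : ℤ) + w) (f2 : ((P i : ℕ) : ℤ) ^ e ∣ (y : ℤ) - w) :
    ((P i : ℕ) : ℤ) ^ e ∣ 2 := by
  have f3 : ((P i : ℕ) : ℤ) ^ e ∣ 2 * (y : ℤ) := by
    have := dvd_add f1 f2
    rwa [show (y : ℤ) + w + (y - w) = 2 * y by ring] at this
  refine IsCoprime.dvd_of_dvd_mul_right (IsCoprime.pow_left ?_) f3
  rw [Prime.coprime_iff_not_dvd (Nat.prime_iff_prime_int.1 (H.prime i))]
  intro h
  exact hy (by exact_mod_cast h)

/-- the case `n = q = 1` -/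
theorem case_one (H : EConc δ δ' h1 P x y w) (H' : EConc δ δ' h2 P x' y w)
    (hb1 : 10 ≤ δ' * h1) (hb2 : 10 ≤ δ' * h2) : x = x' := by
  obtain ⟨-, -, n1, -, -, -, n2⟩ := primes_data H H' hb1 hb2 (i := 0) (Or.inl rfl)
  have hck0 := (Int.natCast_dvd_natCast.2 (ck_dvd P x x' 0))
  have hck0' := (Int.natCast_dvd_natCast.2 (ck_dvd' P x x' 0))
  push_cast at hck0 hck0'
  have hx := H.xpos
  have hx' := H'.xpos
  rcases H.sum with s | s | s <;> rcases H'.sum with s' | s' | s'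
  · omega
  · exfalso
    apply n2
    refine not_both H n1 ?_ ?_
    · rw [show (y : ℤ) + w = x' by omega]
      exact hck0'
    · rw [show (y : ℤ) - w = -(x : ℤ) by omega]
      exact (dvd_neg).2 hck0
  · omega
  · exfalso
    apply n2
    refine not_both H n1 ?_ ?_
    · rw [show (y : ℤ) + w = x by omega]
      exact hck0
    · rw [show (y : ℤ) - w = -(x' : ℤ) by omega]
      exact (dvd_neg).2 hck0'
  · omega
  · exfalso
    apply n2
    refine not_both H n1 ?_ ?_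
    · rw [show (y : ℤ) + w = x by omega]
      exact hck0
    · rw [show (y : ℤ) - w = x' by omega]
      exact hck0'
  · omega
  · exfalso
    apply n2
    refine not_both H n1 ?_ ?_
    · rw [show (y : ℤ) + w = x' by omega]
      exact hck0'
    · rw [show (y : ℤ) - w = x by omega]
      exact hck0
  · omega

/-- the case `n = 2`, `q = 1` -/
theorem case_two (H : EConc δ δ' h1 P x y w) (H' : EConc δ δ' h2 P x' (y ^ 2) (w ^ 2))
    (hδ : δ ≤ 1 / 10) (hb1 : 10 ≤ δ' * h1) (hb2 : 10 ≤ δ' * h2) (hh2 : 10 ≤ h2) : False := by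
  have hd := fun {i : Fin 4} (hi : i = 0 ∨ i = 1) => primes_data H H' hb1 hb2 hi
  have hck0 := (Int.natCast_dvd_natCast.2 (ck_dvd P x x' 0))
  have hck0' := (Int.natCast_dvd_natCast.2 (ck_dvd' P x x' 0))
  push_cast at hck0 hck0'
  have hx := H.xpos
  have hy := H.ypos
  have hw := H.wpos
  have hx' := H'.xpos
  have hxle : x ≤ y + w := by
    rcases H.sum with s | s | s <;> omega
  have hyR : (0 : ℝ) < y := by exact_mod_cast hy
  have hwR : (0 : ℝ) < w := by exact_mod_cast hw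
  have hxR : (0 : ℝ) < x := by exact_mod_cast hx
  have hly : 2 * Real.log y ≤ h2 := by
    have := H'.uy
    push_cast at this
    rw [Real.log_pow] at this
    exact_mod_cast this
  have hlw : 2 * Real.log w ≤ h2 := by
    have := H'.uw
    push_cast at this
    rw [Real.log_pow] at this
    exact_mod_cast this
  -- final contradiction
  have hfin : ∀ V : ℤ, (∀ i : Fin 4, i = 0 ∨ i = 1 → ∀ e : ℕ, ((P i : ℕ) : ℤ) ^ e ∣ (x : ℤ) →
      ((P i : ℕ) : ℤ) ^ e ∣ V → ((P i : ℕ) : ℤ) ^ e ∣ 2) → (x : ℤ) * V = x' → False := by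
    intro V hV hUV
    have h5 : ∀ i : Fin 4, i = 0 ∨ i = 1 → P i ^ x'.factorization (P i) ∣ 2 * x := by
      intro i hi
      obtain ⟨-, -, -, -, -, -, n2⟩ := hd hi
      have h6 := (Int.natCast_dvd_natCast.2 (ck_dvd P x x' i))
      push_cast at h6
      have h7 : ((P i : ℕ) : ℤ) ^ x'.factorization (P i) ∣ (x : ℤ) * V := by
        rw [hUV]
        exact_mod_cast Nat.ordProj_dvd x' (P i)
      have h8 := dvd_two_mul (H.prime i) h6 n2 (hV i hi) h7
      exact_mod_cast h8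
    have h6 := H'.log_le (X := 2 * x) (by omega) (h5 0 (Or.inl rfl)) (h5 1 (Or.inr rfl))
    have h7 : Real.log x ≤ Real.log 2 + h2 / 2 := by
      have h8 : (x : ℝ) ≤ 2 * max (y : ℝ) (w : ℝ) := by
        have h9 : (x : ℝ) ≤ y + w := by exact_mod_cast hxle
        have := le_max_left (y : ℝ) (w : ℝ)
        have := le_max_right (y : ℝ) (w : ℝ)
        linarith
      have h9 : (0 : ℝ) < max (y : ℝ) (w : ℝ) := lt_max_of_lt_left hyR
      have h10 := Real.log_le_log hxR h8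
      rw [Real.log_mul (by norm_num) h9.ne'] at h10
      have h11 : Real.log (max (y : ℝ) (w : ℝ)) ≤ h2 / 2 := by
        rcases max_choice (y : ℝ) (w : ℝ) with h | h <;> rw [h] <;> linarith
      linarith
    push_cast at h6
    rw [Real.log_mul (by norm_num) hxR.ne'] at h6
    have h8 : δ * h2 ≤ 1 / 10 * h2 := by
      apply mul_le_mul_of_nonneg_right hδ (by linarith)
    have h9 : (1 - δ) * h2 = h2 - δ * h2 := by ring
    have := Real.log_two_lt_d9
    rw [h9] at h6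
    linarith
  rcases H'.sum with s' | s' | s'
  · -- `x' + y ^ 2 = w ^ 2`
    have h5 : y < w := by
      by_contra hcon
      push Not at hcon
      have : w ^ 2 ≤ y ^ 2 := Nat.pow_le_pow_left hcon 2
      omega
    have h6 : (x' : ℤ) = (w : ℤ) ^ 2 - (y : ℤ) ^ 2 := by
      have : (x' : ℤ) + (y : ℤ) ^ 2 = (w : ℤ) ^ 2 := by exact_mod_cast s'
      linarith
    rcases H.sum with s | s | s
    · have h7 : (x : ℤ) = w - y := by omega
      refine hfin ((y : ℤ) + w) (fun i hi e f1 f2 => ?_) ?_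
      · refine not_both H (hd hi).2.2.1 f2 ?_
        rw [show (y : ℤ) - w = -(x : ℤ) by omega]
        exact (dvd_neg).2 f1
      · rw [h7, h6]; ring
    · have h7 : (x : ℤ) = y + w := by omega
      refine hfin ((w : ℤ) - y) (fun i hi e f1 f2 => ?_) ?_
      · rw [h7] at f1
        refine not_both H (hd hi).2.2.1 f1 ?_
        rw [show (y : ℤ) - w = -((w : ℤ) - y) by ring]
        exact (dvd_neg).2 f2
      · rw [h7, h6]; ring
    · omega
  · -- `x' = y ^ 2 + w ^ 2`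
    obtain ⟨-, -, n1, -, -, -, n2⟩ := hd (i := 0) (Or.inl rfl)
    have h5 := (Int.natCast_dvd_natCast.2 (ck_dvd P x x' 0)).trans H.dvd_sq
    have h6 : ((P 0 : ℕ) : ℤ) ^ ck P x x' 0 ∣ (y : ℤ) ^ 2 + (w : ℤ) ^ 2 := by
      rw [show (y : ℤ) ^ 2 + (w : ℤ) ^ 2 = x' by exact_mod_cast s']
      exact hck0'
    push_cast at h5
    have h7 : ((P 0 : ℕ) : ℤ) ^ ck P x x' 0 ∣ 2 * (y : ℤ) ^ 2 := by
      have := dvd_add h5 h6
      rwa [show (y : ℤ) ^ 2 - (w : ℤ) ^ 2 + ((y : ℤ) ^ 2 + (w : ℤ) ^ 2) =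
        2 * (y : ℤ) ^ 2 by ring] at this
    apply n2
    refine IsCoprime.dvd_of_dvd_mul_right (IsCoprime.pow_left (IsCoprime.pow_right ?_)) h7
    rw [Prime.coprime_iff_not_dvd (Nat.prime_iff_prime_int.1 (H.prime 0))]
    intro h
    exact n1 (by exact_mod_cast h)
  · -- `x' + w ^ 2 = y ^ 2`
    have h5 : w < y := by
      by_contra hcon
      push Not at hcon
      have : y ^ 2 ≤ w ^ 2 := Nat.pow_le_pow_left hcon 2
      omega
    have h6 : (x' : ℤ) = (y : ℤ) ^ 2 - (w : ℤ) ^ 2 := by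
      have : (x' : ℤ) + (w : ℤ) ^ 2 = (y : ℤ) ^ 2 := by exact_mod_cast s'
      linarith
    rcases H.sum with s | s | s
    · omega
    · have h7 : (x : ℤ) = y + w := by omega
      refine hfin ((y : ℤ) - w) (fun i hi e f1 f2 => ?_) ?_
      · rw [h7] at f1
        exact not_both H (hd hi).2.2.1 f1 f2
      · rw [h7, h6]; ring
    · have h7 : (x : ℤ) = y - w := by omega
      refine hfin ((y : ℤ) + w) (fun i hi e f1 f2 => ?_) ?_
      · rw [h7] at f1
        exact not_both H (hd hi).2.2.1 f2 f1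
      · rw [h7, h6]; ring

/-- the lemma for coprime exponents -/
theorem edge_coprime (H : EConc δ δ' h1 P x y w) (H' : EConc δ δ' h2 P x' y' w')
    {n q : ℕ} (hn : 0 < n) (hq : 0 < q) (hc : Nat.Coprime n q)
    (hδ : δ ≤ 1 / 10) (hb1 : 10 ≤ δ' * h1) (hb2 : 10 ≤ δ' * h2) (hh1 : 10 ≤ h1) (hh2 : 10 ≤ h2)
    (hln : Real.log n ≤ h2 / 100) (hlq : Real.log q ≤ h1 / 100)
    (ey : y ^ n = y' ^ q) (ew : w ^ n = w' ^ q) : x = x' ∧ y = y' ∧ w = w' := by
  obtain ⟨g, hg0, hg, hg'⟩ := common_root H.ypos hq hc ey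
  obtain ⟨f, hf0, hf, hf'⟩ := common_root H.wpos hq hc ew
  have h1' := n_le_two H H' hn hq hc ⟨hg0, hf0, hg, hg', hf, hf'⟩ hδ hb1 hb2 (by linarith) hln
  have h2' := n_le_two H' H hq hn hc.symm ⟨hg0, hf0, hg', hg, hf', hf⟩ hδ hb2 hb1 (by linarith) hlq
  have hcases : (n = 1 ∧ q = 1) ∨ (n = 2 ∧ q = 1) ∨ (n = 1 ∧ q = 2) := by
    rcases (show n = 1 ∨ n = 2 by omega) with h | h <;>
      rcases (show q = 1 ∨ q = 2 by omega) with h' | h'
    · exact Or.inl ⟨h, h'⟩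
    · exact Or.inr (Or.inr ⟨h, h'⟩)
    · exact Or.inr (Or.inl ⟨h, h'⟩)
    · exfalso
      subst h
      subst h'
      norm_num at hc
  rcases hcases with ⟨rfl, rfl⟩ | ⟨rfl, rfl⟩ | ⟨rfl, rfl⟩
  · rw [pow_one, pow_one] at ey ew
    subst ey
    subst ew
    exact ⟨case_one H H' hb1 hb2, rfl, rfl⟩
  · exfalso
    rw [pow_one] at ey ew
    subst ey
    subst ew
    exact case_two H H' hδ hb1 hb2 hh2
  · exfalso
    rw [pow_one] at ey ew
    subst ey
    subst ew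
    exact case_two H' H hδ hb2 hb1 hh1

end

/-- **The arithmetic lemma.** -/
theorem edge_arith {δ δ' h1 h2 : ℝ} {P : Fin 4 → ℕ} {x y w x' y' w' n q : ℕ}
    (H1 : EConc δ δ' h1 P x y w) (H2 : EConc δ δ' h2 P x' y' w') (hδ : δ ≤ 1 / 10)
    (_hδ' : 0 < δ') (hδ'1 : δ' ≤ 1) (hb1 : 10 ≤ δ' * h1) (hb2 : 10 ≤ δ' * h2)
    (hn : 0 < n) (hq : 0 < q) (hln : Real.log n ≤ h2 / 100) (hlq : Real.log q ≤ h1 / 100)
    (ey : y ^ n = y' ^ q) (ew : w ^ n = w' ^ q) : x = x' ∧ y = y' ∧ w = w' := by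
  have hh1 : 10 ≤ h1 := by
    have := H1.h_nonneg
    nlinarith
  have hh2 : 10 ≤ h2 := by
    have := H2.h_nonneg
    nlinarith
  obtain ⟨e, n1, q1, he, hc, hn1, hq1⟩ := Nat.exists_coprime' (Nat.gcd_pos_of_pos_left q hn)
  have hn1' : 0 < n1 := by
    rcases Nat.eq_zero_or_pos n1 with h | h
    · rw [h, zero_mul] at hn1
      omega
    · exact h
  have hq1' : 0 < q1 := by
    rcases Nat.eq_zero_or_pos q1 with h | h
    · rw [h, zero_mul] at hq1
      omega
    · exact h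
  have hy : y ^ n1 = y' ^ q1 := by
    apply Nat.pow_left_injective (n := e) (by omega)
    show (y ^ n1) ^ e = (y' ^ q1) ^ e
    rw [← pow_mul, ← pow_mul, ← hn1, ← hq1, ey]
  have hw : w ^ n1 = w' ^ q1 := by
    apply Nat.pow_left_injective (n := e) (by omega)
    show (w ^ n1) ^ e = (w' ^ q1) ^ e
    rw [← pow_mul, ← pow_mul, ← hn1, ← hq1, ew]
  have hn1le : (n1 : ℝ) ≤ n := by
    have : n1 ≤ n := by
      rw [hn1]
      exact Nat.le_mul_of_pos_right _ he
    exact_mod_cast this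
  have hq1le : (q1 : ℝ) ≤ q := by
    have : q1 ≤ q := by
      rw [hq1]
      exact Nat.le_mul_of_pos_right _ he
    exact_mod_cast this
  refine edge_coprime H1 H2 hn1' hq1' hc hδ hb1 hb2 hh1 hh2 ?_ ?_ hy hw
  · exact (Real.log_le_log (by exact_mod_cast hn1') hn1le).trans hln
  · exact (Real.log_le_log (by exact_mod_cast hq1') hq1le).trans hlq

end Pool.Agent.Lib.AbcO
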