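import Mathlib

/-!
# Two coprime integers concentrated on two primes
-/

namespace Pool.Agent.Lib.AbcO

open Finset

/-- `m 0`, `m 1` are coprime, and `m i` is essentially a power of the prime `P i`. -/
structure Two (δ h : ℝ) (P m : Fin 2 → ℕ) : Prop where
  pos : ∀ i, 0 < m i
  prime : ∀ i, (P i).Prime
  cop : ∀ i j, i ≠ j → Nat.Coprime (m i) (m j)
  ub : ∀ i, Real.log (m i) ≤ h
  lb : ∀ i, (1 - δ) * h ≤ ((m i).factorization (P i) : ℝ) * Real.log (P i)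

/-- the exponent of `P i` in `m i` -/
def ev2 (P m : Fin 2 → ℕ) (i : Fin 2) : ℕ := (m i).factorization (P i)

/-- the cofactor of `P i ^ ev2` in `m i` -/
def co2 (P m : Fin 2 → ℕ) (i : Fin 2) : ℕ := m i / P i ^ ev2 P m i

theorem Two.eq {δ h : ℝ} {P m : Fin 2 → ℕ} (_H : Two δ h P m) (i : Fin 2) :
    P i ^ ev2 P m i * co2 P m i = m i := Nat.ordProj_mul_ordCompl_eq_self _ _

theorem Two.co_pos {δ h : ℝ} {P m : Fin 2 → ℕ} (H : Two δ h P m) (i : Fin 2) :
    0 < co2 P m i := by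
  rcases Nat.eq_zero_or_pos (co2 P m i) with h0 | h0
  · have h1 := H.eq i
    rw [h0, mul_zero] at h1
    have := H.pos i
    omega
  · exact h0

theorem Two.log_eq {δ h : ℝ} {P m : Fin 2 → ℕ} (H : Two δ h P m) (i : Fin 2) :
    (ev2 P m i : ℝ) * Real.log (P i) + Real.log (co2 P m i) = Real.log (m i) := by
  have h1 : (0 : ℝ) < P i := by exact_mod_cast (H.prime i).pos
  have h2 : (0 : ℝ) < co2 P m i := by exact_mod_cast H.co_pos i
  have h3 : ((P i : ℝ) ^ ev2 P m i) * co2 P m i = m i := by exact_mod_cast H.eq i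
  rw [← h3, Real.log_mul (by positivity) h2.ne', Real.log_pow]

theorem Two.lb' {δ h : ℝ} {P m : Fin 2 → ℕ} (H : Two δ h P m) (i : Fin 2) :
    (1 - δ) * h ≤ (ev2 P m i : ℝ) * Real.log (P i) := H.lb i

theorem Two.ub' {δ h : ℝ} {P m : Fin 2 → ℕ} (H : Two δ h P m) (i : Fin 2) :
    (ev2 P m i : ℝ) * Real.log (P i) ≤ h := by
  have h1 := H.log_eq i
  have h2 := H.ub i
  have h3 : 0 ≤ Real.log (co2 P m i) := Real.log_natCast_nonneg _
  linarith

theorem Two.co_le {δ h : ℝ} {P m : Fin 2 → ℕ} (H : Two δ h P m) (i : Fin 2) :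
    Real.log (co2 P m i) ≤ δ * h := by
  have h1 := H.log_eq i
  have h2 := H.ub i
  have h3 := H.lb' i
  linarith

theorem Two.h_nonneg {δ h : ℝ} {P m : Fin 2 → ℕ} (H : Two δ h P m) : 0 ≤ h :=
  (Real.log_natCast_nonneg _).trans (H.ub 0)

theorem Two.logP_pos {δ h : ℝ} {P m : Fin 2 → ℕ} (H : Two δ h P m) (i : Fin 2) :
    0 < Real.log (P i) := Real.log_pos (by exact_mod_cast (H.prime i).one_lt)

/-- the exponents are positive -/
theorem Two.ev_pos {δ h : ℝ} {P m : Fin 2 → ℕ} (H : Two δ h P m) (hδ : δ < 1) (hh : 0 < h)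
    (i : Fin 2) : 0 < ev2 P m i := by
  rcases Nat.eq_zero_or_pos (ev2 P m i) with h0 | h0
  · have h1 := H.lb' i
    rw [h0] at h1
    have h2 : 0 < (1 - δ) * h := mul_pos (by linarith) hh
    simp at h1
    linarith
  · exact h0

theorem Two.dvd_pow {δ h : ℝ} {P m : Fin 2 → ℕ} (_H : Two δ h P m) (i : Fin 2) :
    P i ^ ev2 P m i ∣ m i := Nat.ordProj_dvd _ _

/-- `P i` does not divide `m j` for `i ≠ j` -/
theorem Two.not_dvd {δ h : ℝ} {P m : Fin 2 → ℕ} (H : Two δ h P m) (hδ : δ < 1) (hh : 0 < h)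
    {i j : Fin 2} (hij : i ≠ j) : ¬ P i ∣ m j := by
  intro hd
  have h1 : P i ∣ m i := (dvd_pow_self _ (H.ev_pos hδ hh i).ne').trans (H.dvd_pow i)
  exact Nat.not_coprime_of_dvd_of_dvd (H.prime i).one_lt h1 hd (H.cop i j hij)

theorem Two.P_ne {δ h : ℝ} {P m : Fin 2 → ℕ} (H : Two δ h P m) (hδ : δ < 1) (hh : 0 < h)
    {i j : Fin 2} (hij : i ≠ j) : P i ≠ P j := by
  intro he
  apply H.not_dvd hδ hh hij
  rw [he]
  exact (dvd_pow_self _ (H.ev_pos hδ hh j).ne').trans (H.dvd_pow j)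

end Pool.Agent.Lib.AbcO
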