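import Mathlib
import Pool.Agent.Lib.AbcO.EdgeTwo

/-!
# The gap argument, a general modulus
-/

namespace Pool.Agent.Lib.AbcO

open Finset

/-- the reduced num2erator -/
def num2 (P m m' : Fin 2 → ℕ) (n q : ℕ) (j k : Fin 2) : ℕ :=
  P j ^ (2 * n * ev2 P m j - 2 * q * ev2 P m' j) * P k ^ (2 * q * ev2 P m' k - 2 * n * ev2 P m k) *
    co2 P m j ^ (2 * n) * co2 P m' k ^ (2 * q)

theorem num2_mul {δ h1 h2 : ℝ} {P m m' : Fin 2 → ℕ} (H1 : Two δ h1 P m) (H2 : Two δ h2 P m')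
    (n q : ℕ) (j k : Fin 2) :
    num2 P m m' n q j k * (P j ^ min (2 * n * ev2 P m j) (2 * q * ev2 P m' j) *
      P k ^ min (2 * q * ev2 P m' k) (2 * n * ev2 P m k)) = m j ^ (2 * n) * m' k ^ (2 * q) := by
  have e1 : P j ^ (2 * n * ev2 P m j - 2 * q * ev2 P m' j) *
      P j ^ min (2 * n * ev2 P m j) (2 * q * ev2 P m' j) = (P j ^ ev2 P m j) ^ (2 * n) := by
    rw [← pow_add, ← pow_mul, Nat.sub_add_min_cancel]
    congr 1
    ring
  have e2 : P k ^ (2 * q * ev2 P m' k - 2 * n * ev2 P m k) *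
      P k ^ min (2 * q * ev2 P m' k) (2 * n * ev2 P m k) = (P k ^ ev2 P m' k) ^ (2 * q) := by
    rw [← pow_add, ← pow_mul, Nat.sub_add_min_cancel]
    congr 1
    ring
  unfold num2
  calc P j ^ (2 * n * ev2 P m j - 2 * q * ev2 P m' j) *
        P k ^ (2 * q * ev2 P m' k - 2 * n * ev2 P m k) *
        co2 P m j ^ (2 * n) * co2 P m' k ^ (2 * q) *
        (P j ^ min (2 * n * ev2 P m j) (2 * q * ev2 P m' j) *
        P k ^ min (2 * q * ev2 P m' k) (2 * n * ev2 P m k))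
      = (P j ^ (2 * n * ev2 P m j - 2 * q * ev2 P m' j) *
      P j ^ min (2 * n * ev2 P m j) (2 * q * ev2 P m' j)) *
        (P k ^ (2 * q * ev2 P m' k - 2 * n * ev2 P m k) *
      P k ^ min (2 * q * ev2 P m' k) (2 * n * ev2 P m k)) *
        co2 P m j ^ (2 * n) * co2 P m' k ^ (2 * q) := by ring
    _ = (P j ^ ev2 P m j * co2 P m j) ^ (2 * n) * (P k ^ ev2 P m' k * co2 P m' k) ^ (2 * q) := by
        rw [e1, e2, mul_pow, mul_pow]
        ring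
    _ = m j ^ (2 * n) * m' k ^ (2 * q) := by rw [H1.eq j, H2.eq k]

theorem num2_pos {δ h1 h2 : ℝ} {P m m' : Fin 2 → ℕ} (H1 : Two δ h1 P m) (H2 : Two δ h2 P m')
    (n q : ℕ) (j k : Fin 2) : 0 < num2 P m m' n q j k := by
  unfold num2
  have a1 := (H1.prime j).pos
  have a2 := (H1.prime k).pos
  have a3 := H1.co_pos j
  have a4 := H2.co_pos k
  positivity

theorem log_num2_le {δ h1 h2 : ℝ} {P m m' : Fin 2 → ℕ} (H1 : Two δ h1 P m) (H2 : Two δ h2 P m')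
    (hδ0 : 0 ≤ δ) (n q : ℕ) (j k : Fin 2) :
    Real.log (num2 P m m' n q j k : ℕ) ≤ 2 * |(n : ℝ) * h1 - q * h2| + 4 * (n * (δ * h1)) +
      4 * (q * (δ * h2)) := by
  have hPj : (0 : ℝ) < P j := by exact_mod_cast (H1.prime j).pos
  have hPk : (0 : ℝ) < P k := by exact_mod_cast (H1.prime k).pos
  have hcj : (0 : ℝ) < co2 P m j := by exact_mod_cast H1.co_pos j
  have hck : (0 : ℝ) < co2 P m' k := by exact_mod_cast H2.co_pos k
  have hlj := H1.logP_pos j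
  have hlk := H1.logP_pos k
  have hh1 := H1.h_nonneg
  have hh2 := H2.h_nonneg
  have hn0 : (0 : ℝ) ≤ n := Nat.cast_nonneg _
  have hq0 : (0 : ℝ) ≤ q := Nat.cast_nonneg _
  have t1 : ((2 * n * ev2 P m j - 2 * q * ev2 P m' j : ℕ) : ℝ) * Real.log (P j) ≤
      (|(n : ℝ) * h1 - q * h2| + (n * h1 - q * h2)) + 2 * (q * (δ * h2)) := by
    rcases le_total (2 * n * ev2 P m j) (2 * q * ev2 P m' j) with hle | hle
    · rw [Nat.sub_eq_zero_of_le hle, Nat.cast_zero, zero_mul]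
      have a1 := neg_abs_le ((n : ℝ) * h1 - q * h2)
      have a2 : 0 ≤ (q : ℝ) * (δ * h2) := by positivity
      linarith
    · rw [Nat.cast_sub hle]
      push_cast
      have a1 := le_abs_self ((n : ℝ) * h1 - q * h2)
      have b1 : (n : ℝ) * (ev2 P m j * Real.log (P j)) ≤ n * h1 :=
        mul_le_mul_of_nonneg_left (H1.ub' j) hn0
      have b2 : (q : ℝ) * ((1 - δ) * h2) ≤ q * (ev2 P m' j * Real.log (P j)) :=
        mul_le_mul_of_nonneg_left (H2.lb' j) hq0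
      have b3 : (2 * (n : ℝ) * ev2 P m j - 2 * q * ev2 P m' j) * Real.log (P j) =
          2 * (n * (ev2 P m j * Real.log (P j))) - 2 * (q * (ev2 P m' j * Real.log (P j))) := by ring
      have b4 : (q : ℝ) * ((1 - δ) * h2) = q * h2 - q * (δ * h2) := by ring
      rw [b3]
      linarith
  have t2 : ((2 * q * ev2 P m' k - 2 * n * ev2 P m k : ℕ) : ℝ) * Real.log (P k) ≤
      (|(n : ℝ) * h1 - q * h2| - (n * h1 - q * h2)) + 2 * (n * (δ * h1)) := by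
    rcases le_total (2 * q * ev2 P m' k) (2 * n * ev2 P m k) with hle | hle
    · rw [Nat.sub_eq_zero_of_le hle, Nat.cast_zero, zero_mul]
      have a1 := le_abs_self ((n : ℝ) * h1 - q * h2)
      have a2 : 0 ≤ (n : ℝ) * (δ * h1) := by positivity
      linarith
    · rw [Nat.cast_sub hle]
      push_cast
      have a1 := neg_abs_le ((n : ℝ) * h1 - q * h2)
      have b1 : (q : ℝ) * (ev2 P m' k * Real.log (P k)) ≤ q * h2 :=
        mul_le_mul_of_nonneg_left (H2.ub' k) hq0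
      have b2 : (n : ℝ) * ((1 - δ) * h1) ≤ n * (ev2 P m k * Real.log (P k)) :=
        mul_le_mul_of_nonneg_left (H1.lb' k) hn0
      have b3 : (2 * (q : ℝ) * ev2 P m' k - 2 * n * ev2 P m k) * Real.log (P k) =
          2 * (q * (ev2 P m' k * Real.log (P k))) - 2 * (n * (ev2 P m k * Real.log (P k))) := by ring
      have b4 : (n : ℝ) * ((1 - δ) * h1) = n * h1 - n * (δ * h1) := by ring
      rw [b3]
      linarith
  have t3 : (n : ℝ) * Real.log (co2 P m j) ≤ n * (δ * h1) :=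
    mul_le_mul_of_nonneg_left (H1.co_le j) hn0
  have t4 : (q : ℝ) * Real.log (co2 P m' k) ≤ q * (δ * h2) :=
    mul_le_mul_of_nonneg_left (H2.co_le k) hq0
  unfold num2
  rw [Nat.cast_mul, Nat.cast_mul, Nat.cast_mul, Nat.cast_pow, Nat.cast_pow, Nat.cast_pow,
    Nat.cast_pow, Real.log_mul (by positivity) (by positivity),
    Real.log_mul (by positivity) (by positivity), Real.log_mul (by positivity) (by positivity),
    Real.log_pow, Real.log_pow, Real.log_pow, Real.log_pow]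
  have t5 : ((2 * n : ℕ) : ℝ) * Real.log (co2 P m j) = 2 * (n * Real.log (co2 P m j)) := by
    push_cast
    ring
  have t6 : ((2 * q : ℕ) : ℝ) * Real.log (co2 P m' k) = 2 * (q * Real.log (co2 P m' k)) := by
    push_cast
    ring
  rw [t5, t6]
  linarith

/-- Two pairs congruent to `1` modulo a large power of `p` and close to each other are
multiplicatively dependent. -/
theorem pair_eq2 {δ h1 h2 : ℝ} {P m m' : Fin 2 → ℕ} (H1 : Two δ h1 P m) (H2 : Two δ h2 P m')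
    (hδ0 : 0 ≤ δ) (n q : ℕ) (p U : ℕ) (hp : p.Prime) (hpP : ∀ i, p ≠ P i)
    (hs : 2 * |(n : ℝ) * h1 - q * h2| + 4 * (n * (δ * h1)) + 4 * (q * (δ * h2)) <
      (U : ℝ) * Real.log p)
    (hd1 : ∀ j k, j ≠ k → ((p ^ U : ℕ) : ℤ) ∣ (m j : ℤ) ^ 2 - (m k : ℤ) ^ 2)
    (hd2 : ∀ j k, j ≠ k → ((p ^ U : ℕ) : ℤ) ∣ (m' j : ℤ) ^ 2 - (m' k : ℤ) ^ 2)
    (j k : Fin 2) (hjk : j ≠ k) :
    m j ^ n = m' j ^ q := by
  set X := num2 P m m' n q j k with hX
  set Y := num2 P m m' n q k j with hY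
  set G := P j ^ min (2 * n * ev2 P m j) (2 * q * ev2 P m' j) *
      P k ^ min (2 * q * ev2 P m' k) (2 * n * ev2 P m k) with hG
  have hXG : X * G = m j ^ (2 * n) * m' k ^ (2 * q) := num2_mul H1 H2 n q j k
  have hYG : Y * G = m k ^ (2 * n) * m' j ^ (2 * q) := by
    have h := num2_mul H1 H2 n q k j
    rw [← h, hY, hG, min_comm (2 * n * ev2 P m k), min_comm (2 * q * ev2 P m' j)]
    ring
  have hpU1 : ((p ^ U : ℕ) : ℤ) ∣ (m j : ℤ) ^ 2 - (m k : ℤ) ^ 2 := hd1 j k hjk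
  have hpU2 : ((p ^ U : ℕ) : ℤ) ∣ (m' j : ℤ) ^ 2 - (m' k : ℤ) ^ 2 := hd2 j k hjk
  have hdiv : ((p ^ U : ℕ) : ℤ) ∣ ((X : ℤ) - Y) * G := by
    have e1 : ((X : ℤ) - Y) * G =
        ((m j : ℤ) ^ 2) ^ n * ((m' k : ℤ) ^ 2) ^ q - ((m k : ℤ) ^ 2) ^ n * ((m' j : ℤ) ^ 2) ^ q := by
      have f1 : (X : ℤ) * G = (m j : ℤ) ^ (2 * n) * (m' k : ℤ) ^ (2 * q) := by exact_mod_cast hXG
      have f2 : (Y : ℤ) * G = (m k : ℤ) ^ (2 * n) * (m' j : ℤ) ^ (2 * q) := by exact_mod_cast hYG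
      rw [sub_mul, f1, f2, ← pow_mul, ← pow_mul, ← pow_mul, ← pow_mul]
    rw [e1]
    have e2 : ((p ^ U : ℕ) : ℤ) ∣ ((m j : ℤ) ^ 2) ^ n - ((m k : ℤ) ^ 2) ^ n :=
      hpU1.trans (sub_dvd_pow_sub_pow _ _ n)
    have e3 : ((p ^ U : ℕ) : ℤ) ∣ ((m' k : ℤ) ^ 2) ^ q - ((m' j : ℤ) ^ 2) ^ q := by
      refine ((dvd_sub_comm).1 ?_)
      exact hpU2.trans (sub_dvd_pow_sub_pow _ _ q)
    have e4 : ((m j : ℤ) ^ 2) ^ n * ((m' k : ℤ) ^ 2) ^ q -
        ((m k : ℤ) ^ 2) ^ n * ((m' j : ℤ) ^ 2) ^ q =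
        (((m j : ℤ) ^ 2) ^ n - ((m k : ℤ) ^ 2) ^ n) * ((m' k : ℤ) ^ 2) ^ q +
        ((m k : ℤ) ^ 2) ^ n * (((m' k : ℤ) ^ 2) ^ q - ((m' j : ℤ) ^ 2) ^ q) := by ring
    rw [e4]
    exact dvd_add (e2.mul_right _) (e3.mul_left _)
  have hcopG : IsCoprime ((p ^ U : ℕ) : ℤ) (G : ℤ) := by
    rw [Nat.isCoprime_iff_coprime]
    refine Nat.Coprime.pow_left _ ?_
    rw [hG]
    refine Nat.Coprime.mul_right ?_ ?_
    · exact ((Nat.coprime_primes hp (H1.prime j)).2 (hpP j)).pow_right _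
    · exact ((Nat.coprime_primes hp (H1.prime k)).2 (hpP k)).pow_right _
  have hdiv2 : ((p ^ U : ℕ) : ℤ) ∣ (X : ℤ) - Y := hcopG.dvd_of_dvd_mul_right hdiv
  have hXp : 0 < X := num2_pos H1 H2 n q j k
  have hYp : 0 < Y := num2_pos H1 H2 n q k j
  have hPUp : (0 : ℝ) < ((p ^ U : ℕ) : ℝ) := by
    exact_mod_cast pow_pos hp.pos _
  have hPU : Real.log ((p ^ U : ℕ) : ℝ) = U * Real.log p := by
    push_cast
    rw [Real.log_pow]
  have hXlt : X < p ^ U := by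
    have h := (log_num2_le H1 H2 hδ0 n q j k).trans_lt hs
    rw [← hPU, Real.log_lt_log_iff (by exact_mod_cast hXp) hPUp] at h
    exact_mod_cast h
  have hYlt : Y < p ^ U := by
    have h := (log_num2_le H1 H2 hδ0 n q k j).trans_lt hs
    rw [← hPU, Real.log_lt_log_iff (by exact_mod_cast hYp) hPUp] at h
    exact_mod_cast h
  have hXY : X = Y := by
    have h1 : (X : ℤ) - Y = 0 := by
      apply Int.eq_zero_of_abs_lt_dvd hdiv2
      rw [abs_lt]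
      constructor
      · have : (Y : ℤ) < ((p ^ U : ℕ) : ℤ) := by exact_mod_cast hYlt
        have : (0 : ℤ) ≤ X := by positivity
        omega
      · have : (X : ℤ) < ((p ^ U : ℕ) : ℤ) := by exact_mod_cast hXlt
        have : (0 : ℤ) ≤ Y := by positivity
        omega
    omega
  have hmain : m j ^ (2 * n) * m' k ^ (2 * q) = m k ^ (2 * n) * m' j ^ (2 * q) := by
    rw [← hXG, ← hYG, hXY]
  have c1 : Nat.Coprime (m j ^ (2 * n)) (m k ^ (2 * n)) := Nat.Coprime.pow _ _ (H1.cop j k hjk)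
  have c2 : Nat.Coprime (m' j ^ (2 * q)) (m' k ^ (2 * q)) := Nat.Coprime.pow _ _ (H2.cop j k hjk)
  have d1 : m j ^ (2 * n) ∣ m' j ^ (2 * q) :=
    c1.dvd_of_dvd_mul_left (hmain ▸ Dvd.intro _ rfl)
  have d2 : m' j ^ (2 * q) ∣ m j ^ (2 * n) :=
    c2.dvd_of_dvd_mul_right (hmain ▸ Dvd.intro_left _ rfl)
  have h3 : m j ^ (2 * n) = m' j ^ (2 * q) := Nat.dvd_antisymm d1 d2
  rw [mul_comm 2 n, mul_comm 2 q, pow_mul, pow_mul] at h3
  exact Nat.pow_left_injective (n := 2) (by norm_num) h3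


/-- Two pairs of comparable height, congruent to `1` modulo a common large power of `p`, are
multiplicatively dependent. -/
theorem gap2 {δ h1 h2 : ℝ} {P m m' : Fin 2 → ℕ} (H1 : Two δ h1 P m) (H2 : Two δ h2 P m')
    (hδ0 : 0 ≤ δ) (hδ : δ ≤ 1 / 10 ^ 60) (hh1 : 0 < h1) (h12 : h1 ≤ h2)
    (hK : h2 ≤ 10 ^ 33 * h1) (p U : ℕ) (hp : p.Prime) (hpP : ∀ i, p ≠ P i)
    (hU : h1 / 10 ^ 9 ≤ (U : ℝ) * Real.log p)
    (hd1 : ∀ j k, j ≠ k → ((p ^ U : ℕ) : ℤ) ∣ (m j : ℤ) ^ 2 - (m k : ℤ) ^ 2)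
    (hd2 : ∀ j k, j ≠ k → ((p ^ U : ℕ) : ℤ) ∣ (m' j : ℤ) ^ 2 - (m' k : ℤ) ^ 2) :
    ∃ n q : ℕ, 0 < n ∧ 0 < q ∧ n ≤ 10 ^ 44 ∧ q ≤ 10 ^ 44 ∧ ∀ i, m i ^ n = m' i ^ q := by
  obtain ⟨j, k, hk0, hk3, hjk⟩ := Real.exists_int_int_abs_mul_sub_le (h2 / h1)
    (n := 4 * 10 ^ 9) (by norm_num)
  have hρ1 : 1 ≤ h2 / h1 := (one_le_div hh1).2 h12
  have hρ2 : h2 / h1 ≤ 10 ^ 33 := (div_le_iff₀ hh1).2 hK
  have hk1R : (1 : ℝ) ≤ k := by exact_mod_cast hk0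
  have hk3R : (k : ℝ) ≤ 4 * 10 ^ 9 := by exact_mod_cast hk3
  have hjk1 : |(k : ℝ) * (h2 / h1) - j| ≤ 1 / (4 * 10 ^ 9) := by
    refine hjk.trans ?_
    push_cast
    norm_num
  have hjk' := hjk1
  rw [abs_le] at hjk'
  norm_num at hjk'
  have hj0 : (0 : ℝ) < j := by nlinarith
  have hj0' : 0 < j := by exact_mod_cast hj0
  have hkρ : (k : ℝ) * (h2 / h1) ≤ 4 * 10 ^ 9 * 10 ^ 33 := by gcongr
  have hjup : (j : ℝ) ≤ 4 * 10 ^ 42 + 1 := by linarith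
  lift k to ℕ using hk0.le
  lift j to ℕ using hj0'.le
  simp only [Int.cast_natCast] at *
  have hkpos : 0 < k := by exact_mod_cast hk0
  have hjpos : 0 < j := by exact_mod_cast hj0'
  have hjN : j ≤ 10 ^ 44 := by
    have : (j : ℝ) ≤ 10 ^ 44 := by linarith
    exact_mod_cast this
  have hkN : k ≤ 10 ^ 44 := by
    have : (k : ℝ) ≤ 10 ^ 44 := by linarith
    exact_mod_cast this
  refine ⟨j, k, hjpos, hkpos, hjN, hkN, ?_⟩
  have habs : |(j : ℝ) * h1 - k * h2| ≤ h1 / (4 * 10 ^ 9) := by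
    have e1 : (k : ℝ) * h2 = k * (h2 / h1) * h1 := by field_simp
    have e2 : (j : ℝ) * h1 - k * h2 = -((k * (h2 / h1) - j) * h1) := by rw [e1]; ring
    rw [e2, abs_neg, abs_mul, abs_of_pos hh1]
    calc |(k : ℝ) * (h2 / h1) - j| * h1 ≤ 1 / (4 * 10 ^ 9) * h1 := by gcongr
      _ = h1 / (4 * 10 ^ 9) := by ring
  have hs : 2 * |(j : ℝ) * h1 - k * h2| + 4 * (j * (δ * h1)) + 4 * (k * (δ * h2)) <
      (U : ℝ) * Real.log p := by
    refine lt_of_lt_of_le ?_ hU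
    have f1 : δ * h1 ≤ h1 / 10 ^ 60 := by
      calc δ * h1 ≤ 1 / 10 ^ 60 * h1 := by gcongr
        _ = _ := by ring
    have f2 : δ * h2 ≤ 10 ^ 33 * (h1 / 10 ^ 60) := by
      calc δ * h2 ≤ δ * (10 ^ 33 * h1) := by gcongr
        _ = 10 ^ 33 * (δ * h1) := by ring
        _ ≤ _ := by linarith
    have f3 : (j : ℝ) * (δ * h1) ≤ (4 * 10 ^ 42 + 1) * (h1 / 10 ^ 60) := by
      have : 0 ≤ δ * h1 := by positivity
      calc (j : ℝ) * (δ * h1) ≤ (4 * 10 ^ 42 + 1) * (δ * h1) := by gcongr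
        _ ≤ _ := by gcongr
    have hh2 : 0 < h2 := by linarith
    have f4 : (k : ℝ) * (δ * h2) ≤ 4 * 10 ^ 9 * (10 ^ 33 * (h1 / 10 ^ 60)) := by
      have : 0 ≤ δ * h2 := by positivity
      calc (k : ℝ) * (δ * h2) ≤ 4 * 10 ^ 9 * (δ * h2) := by gcongr
        _ ≤ _ := by gcongr
    linarith
  intro i
  fin_cases i
  · exact pair_eq2 H1 H2 hδ0 j k p U hp hpP hs hd1 hd2 0 1 (by decide)
  · exact pair_eq2 H1 H2 hδ0 j k p U hp hpP hs hd1 hd2 1 0 (by decide)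

end Pool.Agent.Lib.AbcO
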