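import Mathlib
import Pool.Agent.Lib.AbcO.EdgeConc
import Pool.Agent.Lib.AbcO.EdgeGap
import Pool.Agent.Lib.AbcO.EdgeSiegel
import Pool.Agent.Lib.AbcO.EdgeArith

/-!
# Two triples of the same edge type are multiplicatively dependent
-/

namespace Pool.Agent.Lib.AbcO

/-- the members `y`, `w` form a pair concentrated on `P 2`, `P 3` -/
theorem EConc.two {δ δ' h : ℝ} {P : Fin 4 → ℕ} {x y w : ℕ} (H : EConc δ δ' h P x y w) :
    Two δ h ![P 2, P 3] ![y, w] := by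
  refine ⟨?_, ?_, ?_, ?_, ?_⟩
  · intro i
    fin_cases i
    · exact H.ypos
    · exact H.wpos
  · intro i
    fin_cases i
    · exact H.prime 2
    · exact H.prime 3
  · intro i j hij
    fin_cases i <;> fin_cases j
    · exact absurd rfl hij
    · exact H.cyw
    · exact H.cyw.symm
    · exact absurd rfl hij
  · intro i
    fin_cases i
    · exact H.uy
    · exact H.uw
  · intro i
    fin_cases i
    · exact H.my
    · exact H.mw

/-- the mass of a prime in `x` is at most `h` -/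
theorem EConc.mass_le {δ δ' h : ℝ} {P : Fin 4 → ℕ} {x y w : ℕ} (H : EConc δ δ' h P x y w)
    {p : ℕ} (hp : p.Prime) : (x.factorization p : ℝ) * Real.log p ≤ h := by
  refine le_trans ?_ H.ux
  have h1 : p ^ x.factorization p ≤ x := Nat.le_of_dvd H.xpos (Nat.ordProj_dvd _ _)
  rw [← Real.log_pow]
  apply Real.log_le_log
  · have := hp.pos
    positivity
  · exact_mod_cast h1

/-- a prime with positive mass in `x` divides `x` -/
theorem dvd_of_mass {x p : ℕ} {c : ℝ} (hc : 0 < c)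
    (h : c ≤ (x.factorization p : ℝ) * Real.log p) : p ∣ x := by
  by_contra hn
  rw [Nat.factorization_eq_zero_of_not_dvd hn] at h
  simp at h
  linarith

/-- Two triples of the same edge type are multiplicatively dependent. -/
theorem edge_dep {δ h1 h2 : ℝ} {P : Fin 4 → ℕ} {x y w x' y' w' : ℕ}
    (H1 : EConc δ (1 / 10 ^ 9) h1 P x y w) (H2 : EConc δ (1 / 10 ^ 9) h2 P x' y' w')
    (hδ0 : 0 ≤ δ) (hδ : δ ≤ 1 / 10 ^ 60) (hh1 : 10 ^ 40 ≤ h1) (h12 : h1 ≤ h2) :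
    ∃ n q : ℕ, 0 < n ∧ 0 < q ∧ n ≤ 10 ^ 44 ∧ q ≤ 10 ^ 44 ∧ y ^ n = y' ^ q ∧ w ^ n = w' ^ q := by
  have hh1' : 0 < h1 := lt_of_lt_of_le (by positivity) hh1
  have hh2' : 0 < h2 := hh1'.trans_le h12
  set p := P 0 with hp
  have hpp : p.Prime := H1.prime 0
  have hlp : 0 ≤ Real.log p := Real.log_natCast_nonneg _
  set u := x.factorization p with hu
  set u' := x'.factorization p with hu'
  have hm0 := H1.m0
  have hm0' := H2.m0
  rw [← hp] at hm0 hm0'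
  have lu1 : h1 / 10 ^ 9 ≤ (u : ℝ) * Real.log p := by
    rw [div_eq_mul_one_div, mul_comm]
    exact hm0
  have lu'1 : h2 / 10 ^ 9 ≤ (u' : ℝ) * Real.log p := by
    rw [div_eq_mul_one_div, mul_comm]
    exact hm0'
  have hpx : p ∣ x := dvd_of_mass (by positivity) lu1
  have hpx' : p ∣ x' := dvd_of_mass (by positivity) lu'1
  have hnd : ∀ {x y : ℕ}, p ∣ x → Nat.Coprime x y → ¬ p ∣ y := fun h1 h2 h3 =>
    Nat.not_coprime_of_dvd_of_dvd hpp.one_lt h1 h3 h2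
  have hpP : ∀ i : Fin 2, p ≠ ![P 2, P 3] i := by
    intro i
    fin_cases i
    · exact fun h => absurd (H1.inj h) (by decide)
    · exact fun h => absurd (H1.inj h) (by decide)
  have hpm : ∀ i : Fin 2, ¬ p ∣ ![y, w] i := by
    intro i
    fin_cases i
    · exact hnd hpx H1.cxy
    · exact hnd hpx H1.cxw
  have hpm' : ∀ i : Fin 2, ¬ p ∣ ![y', w'] i := by
    intro i
    fin_cases i
    · exact hnd hpx' H2.cxy
    · exact hnd hpx' H2.cxw
  have hyw : y ≠ w := by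
    intro h
    have h3 := H1.cyw
    rw [← h, Nat.coprime_self] at h3
    have h4 := H1.my
    rw [h3] at h4
    simp only [Nat.factorization_one, Finsupp.coe_zero, Pi.zero_apply, Nat.cast_zero,
      zero_mul] at h4
    have : 0 < (1 - δ) * h1 := by
      apply mul_pos _ hh1'
      have : (1 : ℝ) / 10 ^ 60 < 1 := by norm_num
      linarith
    linarith
  have hd1 : ∀ U : ℕ, U ≤ u → ((p ^ U : ℕ) : ℤ) ∣ (y : ℤ) ^ 2 - (w : ℤ) ^ 2 := by
    intro U hU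
    refine (Int.natCast_dvd_natCast.2 ?_).trans H1.dvd_sq
    exact (pow_dvd_pow _ hU).trans (Nat.ordProj_dvd _ _)
  have hd2 : ∀ U : ℕ, U ≤ u' → ((p ^ U : ℕ) : ℤ) ∣ (y' : ℤ) ^ 2 - (w' : ℤ) ^ 2 := by
    intro U hU
    refine (Int.natCast_dvd_natCast.2 ?_).trans H2.dvd_sq
    exact (pow_dvd_pow _ hU).trans (Nat.ordProj_dvd _ _)
  have hs : h2 < 10 ^ 33 * h1 := siegel_gap2 H1.two H2.two hδ0 hδ hh1 p u u' hpp hpP hpm hpm' hyw
    lu1 (H1.mass_le hpp) lu'1 (H2.mass_le hpp) (hd1 u le_rfl) (hd2 u' le_rfl)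
  have hU : h1 / 10 ^ 9 ≤ ((min u u' : ℕ) : ℝ) * Real.log p := by
    rcases min_choice u u' with h | h
    · rw [h]
      exact lu1
    · rw [h]
      refine le_trans ?_ lu'1
      gcongr
  have hsymm : ∀ {U : ℕ} {a b : ℕ}, ((p ^ U : ℕ) : ℤ) ∣ (a : ℤ) ^ 2 - (b : ℤ) ^ 2 →
      ∀ j k : Fin 2, j ≠ k → ((p ^ U : ℕ) : ℤ) ∣ ((![a, b] j : ℕ) : ℤ) ^ 2 - ((![a, b] k : ℕ) : ℤ) ^ 2 := by
    intro U a b h j k hjk
    fin_cases j <;> fin_cases k
    · exact absurd rfl hjk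
    · exact h
    · exact (dvd_sub_comm).1 h
    · exact absurd rfl hjk
  obtain ⟨n, q, hn, hq, hn', hq', hnq⟩ := gap2 H1.two H2.two hδ0 hδ hh1' h12 hs.le p (min u u')
    hpp hpP hU (hsymm (hd1 _ (min_le_left _ _))) (hsymm (hd2 _ (min_le_right _ _)))
  exact ⟨n, q, hn, hq, hn', hq', hnq 0, hnq 1⟩

/-- the parameter `δ'` may be decreased -/
theorem EConc.mono {δ δ' δ'' h : ℝ} {P : Fin 4 → ℕ} {x y w : ℕ} (H : EConc δ δ' h P x y w)
    (hd : δ'' ≤ δ') : EConc δ δ'' h P x y w := by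
  have h0 := H.h_nonneg
  have h1 : δ'' * h ≤ δ' * h := mul_le_mul_of_nonneg_right hd h0
  exact { H with m0 := h1.trans H.m0, m1 := h1.trans H.m1 }

/-- **Two triples of the same edge type are equal.** -/
theorem edge_pair (δ' : ℝ) (hδ' : 1 / 10 ^ 9 ≤ δ') (_hδ'1 : δ' ≤ 1 / 100) :
    ∃ δ0 H0 : ℝ, 0 < δ0 ∧ ∀ (δ h1 h2 : ℝ) (P : Fin 4 → ℕ) (x y w x' y' w' : ℕ), 0 ≤ δ →
      δ ≤ δ0 → H0 ≤ h1 → H0 ≤ h2 → EConc δ δ' h1 P x y w → EConc δ δ' h2 P x' y' w' →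
      x = x' ∧ y = y' ∧ w = w' := by
  have key : ∀ (δ h1 h2 : ℝ) (P : Fin 4 → ℕ) (x y w x' y' w' : ℕ), 0 ≤ δ →
      δ ≤ 1 / 10 ^ 60 → (10 : ℝ) ^ 40 ≤ h1 → (10 : ℝ) ^ 40 ≤ h2 → h1 ≤ h2 →
      EConc δ δ' h1 P x y w → EConc δ δ' h2 P x' y' w' → x = x' ∧ y = y' ∧ w = w' := by
    intro δ h1 h2 P x y w x' y' w' h0 hδ hh1 hh2 h12 H1 H2
    have H1' := H1.mono hδ'
    have H2' := H2.mono hδ'
    obtain ⟨n, q, hn, hq, hn', hq', ey, ew⟩ := edge_dep H1' H2' h0 hδ hh1 h12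
    have hlog : ∀ k : ℕ, 0 < k → k ≤ 10 ^ 44 → Real.log k ≤ 10 ^ 38 := by
      intro k hk hk'
      have h1 : Real.log k ≤ Real.log ((10 : ℝ) ^ 44) := by
        apply Real.log_le_log (by exact_mod_cast hk)
        exact_mod_cast hk'
      rw [Real.log_pow] at h1
      have h2 : Real.log (10 : ℝ) ≤ 9 := by
        have := Real.log_le_sub_one_of_pos (show (0 : ℝ) < 10 by norm_num)
        linarith
      push_cast at h1
      linarith
    refine edge_arith H1' H2' (hδ.trans (by norm_num)) (by norm_num) (by norm_num) ?_ ?_ hn hq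
      ?_ ?_ ey ew
    · linarith
    · linarith
    · have := hlog n hn hn'
      linarith
    · have := hlog q hq hq'
      linarith
  refine ⟨1 / 10 ^ 60, 10 ^ 40, by positivity, ?_⟩
  intro δ h1 h2 P x y w x' y' w' h0 hδ hh1 hh2 H1 H2
  rcases le_total h1 h2 with h | h
  · exact key δ h1 h2 P x y w x' y' w' h0 hδ hh1 hh2 h H1 H2
  · obtain ⟨a, b, c⟩ := key δ h2 h1 P x' y' w' x y w h0 hδ hh2 hh1 h H2 H1
    exact ⟨a.symm, b.symm, c.symm⟩

end Pool.Agent.Lib.AbcO
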