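import Mathlib
import Pool.Agent.Lib.AbcO.One
import Pool.Agent.Lib.AbcH.MeanF

/-!
# Assembly of the theorem on very tall triples
-/

namespace Pool.Agent.Lib.AbcO

open Finset Pool.Agent.Lib.AbcH

/-- the number of prime factors of `r` exceeding `P` -/
noncomputable def exc (r : ℕ) (P : ℝ) : ℕ := (r.primeFactors.filter (fun p : ℕ => P < p)).card

/-- at most one triple, `P` form -/
theorem final_one {κ : ℕ} (hκ : κ ≤ 2) (hE : ThmE2 κ) (hI : HInf) (ε : ℝ) (hε : 0 < ε) :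
    ∃ K : ℝ, 0 < K ∧ ∀ (r : ℕ) (P : ℝ), 0 < r → 1 ≤ P → exc r P ≤ 3 →
      ∀ a b c a' b' c' : ℕ, (a, b, c) ∈ high r (K * (r : ℝ) ^ ε * P ^ κ) →
        (a', b', c') ∈ high r (K * (r : ℝ) ^ ε * P ^ κ) →
        c = c' ∧ ((a = a' ∧ b = b') ∨ (a = b' ∧ b = a')) := by
  obtain ⟨K, hK, h1⟩ := one_P hκ hE hI ε hε
  refine ⟨K, hK, ?_⟩
  intro r P hr hP hex
  refine h1 r _ P hr hP hex ?_ ?_
  · intro p hp
    exact Nat.prime_of_mem_primeFactors (Finset.filter_subset _ _ hp)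
  · intro p hp hpS
    by_contra hcon
    push Not at hcon
    exact hpS (Finset.mem_filter.2 ⟨hp, hcon⟩)

/-- the count, `P` form -/
theorem final_count {κ : ℕ} (hκ : κ ≤ 2) (hE : ThmE2 κ) (ε : ℝ) (hε : 0 < ε) :
    ∃ K : ℝ, 0 < K ∧ ∀ (r : ℕ) (P : ℝ), 0 < r → 1 ≤ P →
      (high r (K * (r : ℝ) ^ ε * P ^ κ)).Finite ∧
      ((high r (K * (r : ℝ) ^ ε * P ^ κ)).ncard : ℝ) < C1 ^ exc r P := by
  obtain ⟨K, hK, h1⟩ := count_high hκ hE (ε / 3) (by positivity)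
  refine ⟨K, hK, ?_⟩
  intro r P hr hP
  have hε3 : 3 * (ε / 3) = ε := by ring
  rw [hε3] at h1
  obtain ⟨h2, h3⟩ := h1 r (r.primeFactors.filter (fun p : ℕ => P < p)) P hr hP (by
    intro p hp hpS
    by_contra hcon
    push Not at hcon
    exact hpS (Finset.mem_filter.2 ⟨hp, hcon⟩))
  refine ⟨h2, ?_⟩
  unfold exc
  linarith

/-- any two different triples -/
theorem final_two {κ : ℕ} (hκ : κ ≤ 2) (hE : ThmE2 κ) (hI : HInf) (ε : ℝ) (hε : 0 < ε) :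
    ∃ K : ℝ, 0 < K ∧ ∀ a b c a' b' c' : ℕ, AbcTriple a b c → AbcTriple a' b' c' →
      K * (rad (a * b * c * (a' * b' * c')) : ℝ) ^ ((κ : ℝ) / 4 + ε) < Real.log c →
      K * (rad (a * b * c * (a' * b' * c')) : ℝ) ^ ((κ : ℝ) / 4 + ε) < Real.log c' →
        c = c' ∧ ((a = a' ∧ b = b') ∨ (a = b' ∧ b = a')) := by
  obtain ⟨K, hK, h1⟩ := one_quarter hκ hE hI ε hε
  refine ⟨K, hK, ?_⟩
  intro a b c a' b' c' h h' hl hl'
  have hc : 0 < c := by have := h.1; have := h.2.2.1; omega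
  have hc' : 0 < c' := by have := h'.1; have := h'.2.2.1; omega
  have hne : a * b * c * (a' * b' * c') ≠ 0 := by
    have := h.1
    have := h.2.1
    have := h'.1
    have := h'.2.1
    positivity
  have hdiv : ∀ p : ℕ, p.Prime → p ∣ a * b * c * (a' * b' * c') →
      p ∣ rad (a * b * c * (a' * b' * c')) := (rad_dvd_iff hne).1 dvd_rfl
  refine h1 (rad (a * b * c * (a' * b' * c'))) (rad_pos _) a b c a' b' c' ⟨h, ?_, hl⟩ ⟨h', ?_, hl'⟩
  · intro p hp hpd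
    exact hdiv p hp (hpd.mul_right _)
  · intro p hp hpd
    exact hdiv p hp (hpd.mul_left _)

end Pool.Agent.Lib.AbcO
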