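import Mathlib
import Pool.Agent.Lib.AbcO.One

/-!
# At most one very tall triple for every three primes, over all radicals
-/

namespace Pool.Agent.Lib.AbcO

open Finset Pool.Agent.Lib.Pabc2 Pool.Agent.Lib.AbcH

/-- The radical. -/
def radi (n : ℕ) : ℕ := ∏ p ∈ n.primeFactors, p

theorem radi_pos (n : ℕ) : 0 < radi n :=
  Finset.prod_pos fun _ hp => (Nat.prime_of_mem_primeFactors hp).pos

theorem primeFactors_radi (n : ℕ) : (radi n).primeFactors = n.primeFactors := by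
  unfold radi
  exact Nat.primeFactors_prod (fun p hp => Nat.prime_of_mem_primeFactors hp)

/-- At most one pair, each pair with its own radical and its own bound for the other primes. -/
theorem one_pair_glob {κ : ℕ} (hκ : κ ≤ 2) (hE : ThmE2 κ) (hI : HInf) (η : ℝ) (hη : 0 < η) :
    ∃ K : ℝ, 0 < K ∧ ∀ (r r' : ℕ) (S : Finset ℕ) (Pb Pb' : ℝ) (t t' : ℕ × ℕ), 0 < r → 0 < r' →
      1 ≤ Pb → 1 ≤ Pb' → S.card ≤ 3 → (∀ p ∈ S, p.Prime) →
      (∀ p ∈ r.primeFactors, p ∉ S → (p : ℝ) ≤ Pb) →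
      (∀ p ∈ r'.primeFactors, p ∉ S → (p : ℝ) ≤ Pb') →
      IsT t → (N t).primeFactors ⊆ r.primeFactors →
      IsT t' → (N t').primeFactors ⊆ r'.primeFactors →
      K * (r : ℝ) ^ (3 * η) * Pb ^ κ < ht t → K * (r' : ℝ) ^ (3 * η) * Pb' ^ κ < ht t' →
      t = t' := by
  obtain ⟨K, hK, hst⟩ := struct hκ hE hI (1 / 100000000) η (by norm_num) (by norm_num) hη
  have key : ∀ (r : ℕ) (S : Finset ℕ) (Pb : ℝ) (t : ℕ × ℕ) (P : Fin 3 → ℕ), 0 < r →
      1 ≤ Pb → (∀ i, (P i).Prime) → Function.Injective P → (∀ p ∈ S, ∃ i, P i = p) →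
      (∀ p ∈ r.primeFactors, p ∉ S → (p : ℝ) ≤ Pb) →
      IsT t → (N t).primeFactors ⊆ r.primeFactors →
      (K + 10000) * (r : ℝ) ^ (3 * η) * Pb ^ κ < ht t →
      10000 ≤ ht t ∧ ∃ σ : Equiv.Perm (Fin 3),
        Conc (1 / 100000000) (ht t) P (fun i => comp t (σ i)) := by
    intro r S Pb t P hr hPb hPp hPinj hPS' hPS hT hsub hb
    have hr1 : (1 : ℝ) ≤ r := by exact_mod_cast hr
    have hr0 : (0 : ℝ) < r := by linarith
    have e1 : (1 : ℝ) ≤ (r : ℝ) ^ (3 * η) := Real.one_le_rpow hr1 (by positivity)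
    have e2 : (1 : ℝ) ≤ (r : ℝ) ^ (3 * η) * Pb ^ κ :=
      one_le_mul_of_one_le_of_one_le e1 (one_le_pow₀ hPb)
    have e3 : (K + 10000) * (r : ℝ) ^ (3 * η) * Pb ^ κ =
        K * (r : ℝ) ^ (3 * η) * Pb ^ κ + 10000 * ((r : ℝ) ^ (3 * η) * Pb ^ κ) := by ring
    rw [e3] at hb
    have p1 : 0 < K * (r : ℝ) ^ (3 * η) * Pb ^ κ := by positivity
    refine ⟨by linarith, ?_⟩
    refine hst r P Pb t hr hPb hPp hPinj ?_ hT hsub (by linarith)
    intro p hp hne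
    apply hPS p hp
    intro hpS
    obtain ⟨i, hi⟩ := hPS' p hpS
    exact hne i hi.symm
  refine ⟨K + 10000, by positivity, ?_⟩
  intro r r' S Pb Pb' t t' hr hr' hPb hPb' hS hSp hPS hPS2 hT hsub hT' hsub' hb hb'
  obtain ⟨P, hPp, hPinj, hPS'⟩ := exists_three S hSp hS
  obtain ⟨h1, σ, hσ⟩ := key r S Pb t P hr hPb hPp hPinj hPS' hPS hT hsub hb
  obtain ⟨h1', σ', hσ'⟩ := key r' S Pb' t' P hr' hPb' hPp hPinj hPS' hPS2 hT' hsub' hb'
  rcases le_total (ht t) (ht t') with h | h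
  · exact eq_of_conc hT hT' σ σ' (by norm_num) le_rfl hσ hσ' h1 h
  · exact (eq_of_conc hT' hT σ' σ (by norm_num) le_rfl hσ' hσ h1' h).symm

/-- `P` bounds the prime factors of `n` outside `S`. -/
def BoundsOutside (S : Finset ℕ) (n : ℕ) (P : ℝ) : Prop :=
  1 ≤ P ∧ ∀ q : ℕ, q.Prime → q ∣ n → q ∉ S → (q : ℝ) ≤ P

/-- `log c > K rad(abc)^ε P ^ κ`, `P` a bound for the prime factors of `abc` outside `S`. -/
def Tall (κ : ℕ) (ε K : ℝ) (S : Finset ℕ) (a b c : ℕ) : Prop :=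
  AbcTriple a b c ∧ ∃ P : ℝ, BoundsOutside S (a * b * c) P ∧
    K * (radi (a * b * c) : ℝ) ^ ε * P ^ κ < Real.log c

theorem tall_pair {κ : ℕ} {ε K : ℝ} {S : Finset ℕ} {a b c : ℕ} (h : Tall κ ε K S a b c) :
    ∃ P : ℝ, 1 ≤ P ∧ (∀ p ∈ (radi (a * b * c)).primeFactors,
      p ∉ S.filter (fun p => p.Prime) → (p : ℝ) ≤ P) ∧
      IsT (min a b, max a b) ∧
      (N (min a b, max a b)).primeFactors ⊆ (radi (a * b * c)).primeFactors ∧
      K * (radi (a * b * c) : ℝ) ^ ε * P ^ κ < ht (min a b, max a b) := by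
  obtain ⟨habc, P, ⟨hP, hPS⟩, hlt⟩ := h
  obtain ⟨ha, hb, hs, hcop⟩ := id habc
  have hmem : (a, b, c) ∈ high (radi (a * b * c))
      (K * (radi (a * b * c) : ℝ) ^ ε * P ^ κ) := by
    refine ⟨habc, ?_, hlt⟩
    intro p hp hpd
    have hne : a * b * c ≠ 0 := by
      have : 0 < c := by omega
      positivity
    have hpm : p ∈ (radi (a * b * c)).primeFactors := by
      rw [primeFactors_radi]
      exact Nat.mem_primeFactors.2 ⟨hp, hpd, hne⟩
    exact Nat.dvd_of_mem_primeFactors hpm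
  obtain ⟨h1, h2, h3⟩ := toPair (radi_pos _) hmem
  refine ⟨P, hP, ?_, h1, h2, h3⟩
  intro p hp hpS
  have hpp := Nat.prime_of_mem_primeFactors hp
  rw [primeFactors_radi] at hp
  exact hPS p hpp (Nat.dvd_of_mem_primeFactors hp)
    (fun hpS' => hpS (Finset.mem_filter.2 ⟨hpS', hpp⟩))

/-- **At most one** of all abc-triples, for every set `S` of at most three integers (e.g. primes).
-/
theorem one_glob {κ : ℕ} (hκ : κ ≤ 2) (hE : ThmE2 κ) (hI : HInf) (ε : ℝ) (hε : 0 < ε) :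
    ∃ K : ℝ, 0 < K ∧ ∀ S : Finset ℕ, S.card ≤ 3 → ∀ a b c a' b' c' : ℕ,
      Tall κ ε K S a b c → Tall κ ε K S a' b' c' →
        c = c' ∧ ((a = a' ∧ b = b') ∨ (a = b' ∧ b = a')) := by
  obtain ⟨K, hK, h1⟩ := one_pair_glob hκ hE hI (ε / 3) (by positivity)
  refine ⟨K, hK, ?_⟩
  intro S hS a b c a' b' c' h h'
  have hε3 : 3 * (ε / 3) = ε := by ring
  rw [hε3] at h1
  obtain ⟨P, hP, hPS, t1, t2, t3⟩ := tall_pair h
  obtain ⟨P', hP', hPS', t1', t2', t3'⟩ := tall_pair h'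
  have heq := h1 _ _ (S.filter (fun p => p.Prime)) P P' _ _ (radi_pos _) (radi_pos _) hP hP'
    ((Finset.card_filter_le _ _).trans hS) (fun p hp => (Finset.mem_filter.1 hp).2)
    hPS hPS' t1 t2 t1' t2' t3 t3'
  simp only [Prod.mk.injEq] at heq
  have hc : a + b = c := h.1.2.2.1
  have hc' : a' + b' = c' := h'.1.2.2.1
  obtain ⟨e1, e2⟩ := heq
  rcases le_total a b with hab | hab <;> rcases le_total a' b' with hab' | hab'
  · rw [min_eq_left hab, min_eq_left hab'] at e1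
    rw [max_eq_right hab, max_eq_right hab'] at e2
    exact ⟨by omega, Or.inl ⟨e1, e2⟩⟩
  · rw [min_eq_left hab, min_eq_right hab'] at e1
    rw [max_eq_right hab, max_eq_left hab'] at e2
    exact ⟨by omega, Or.inr ⟨e1, e2⟩⟩
  · rw [min_eq_right hab, min_eq_left hab'] at e1
    rw [max_eq_left hab, max_eq_right hab'] at e2
    exact ⟨by omega, Or.inr ⟨e2, e1⟩⟩
  · rw [min_eq_right hab, min_eq_right hab'] at e1
    rw [max_eq_left hab, max_eq_left hab'] at e2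
    exact ⟨by omega, Or.inl ⟨e2, e1⟩⟩

end Pool.Agent.Lib.AbcO
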