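import Mathlib
import Pool.Agent.Lib.AbcE.Pigeon

/-!
# Pigeonhole step at the infinite place
-/

set_option autoImplicit false

namespace Pool.Agent.Lib.AbcO

open Finset

variable {ι : Type*} [Fintype ι]

/-- Approximate division of an exponent vector, the quotient being a rational near `1`. -/
theorem pigeonInf (p : ι → ℕ) (hp : ∀ i, 0 < p i) (e : ι → ℤ) (W Q B : ℕ) (hW : 0 < W)
    (hQ : 0 < Q) (hB : 0 < B) (hz : |∑ i, (e i : ℝ) * Real.log (p i)| ≤ 1)
    (hG : B * Q ^ Fintype.card ι ≤ W) :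
    ∃ γ : ℕ, 0 < γ ∧ γ ≤ B * Q ^ Fintype.card ι ∧ ∃ f : ι → ℤ,
      (∀ i, |(γ : ℤ) * e i - W * f i| * Q < W) ∧
      |∑ i, (f i : ℝ) * Real.log (p i)| ≤ (∑ i, Real.log (p i) + 3) / B := by
  classical
  set G : ℕ := B * Q ^ Fintype.card ι with hGdef
  set Λ : ℝ := ∑ i, Real.log (p i) with hΛ
  have hlp : ∀ i, 0 ≤ Real.log (p i) := fun i => Real.log_natCast_nonneg _
  have hΛ0 : 0 ≤ Λ := Finset.sum_nonneg fun i _ => hlp i
  have hWz : (0 : ℤ) < W := by exact_mod_cast hW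
  have hWR : (0 : ℝ) < W := by exact_mod_cast hW
  have hBR : (0 : ℝ) < B := by exact_mod_cast hB
  have hbox : ∀ (g : ℕ) (i : ι), ((Q : ℤ) * (((g : ℤ) * e i) % W) / W).toNat < Q := by
    intro g i
    have h1 : 0 ≤ ((g : ℤ) * e i) % W := Int.emod_nonneg _ hWz.ne'
    have h2 : ((g : ℤ) * e i) % W < W := Int.emod_lt_of_pos _ hWz
    have hQz : (0 : ℤ) < Q := by exact_mod_cast hQ
    have h3 : (Q : ℤ) * (((g : ℤ) * e i) % W) / W < Q := by
      apply Int.ediv_lt_of_lt_mul hWz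
      exact mul_lt_mul_of_pos_left h2 hQz
    have h4 : 0 ≤ (Q : ℤ) * (((g : ℤ) * e i) % W) / W :=
      Int.ediv_nonneg (by positivity) hWz.le
    omega
  set x : ℕ → ℝ := fun g => ∑ i, (((g : ℤ) * e i / W : ℤ) : ℝ) * Real.log (p i) with hx
  have hfl : ∀ (g : ℕ) (i : ι), ((g : ℝ) * e i) / W - 1 ≤ (((g : ℤ) * e i / W : ℤ) : ℝ) ∧
      (((g : ℤ) * e i / W : ℤ) : ℝ) ≤ ((g : ℝ) * e i) / W := by
    intro g i
    have e1 := Int.emod_add_mul_ediv ((g : ℤ) * e i) W
    have h1 : 0 ≤ ((g : ℤ) * e i) % W := Int.emod_nonneg _ hWz.ne'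
    have h2 : ((g : ℤ) * e i) % W < W := Int.emod_lt_of_pos _ hWz
    have e1' : ((((g : ℤ) * e i) % W : ℤ) : ℝ) + (W : ℝ) * (((g : ℤ) * e i / W : ℤ) : ℝ) =
        (g : ℝ) * e i := by exact_mod_cast e1
    have h1' : (0 : ℝ) ≤ ((((g : ℤ) * e i) % W : ℤ) : ℝ) := by exact_mod_cast h1
    have h2' : ((((g : ℤ) * e i) % W : ℤ) : ℝ) ≤ W := by exact_mod_cast h2.le
    constructor
    · rw [sub_le_iff_le_add, div_le_iff₀ hWR]
      linarith
    · rw [le_div_iff₀ hWR]
      linarith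
  have hxb : ∀ g : ℕ, g ≤ G → -Λ - 1 ≤ x g ∧ x g ≤ 1 := by
    intro g hg
    have hgW : (g : ℝ) / W ≤ 1 := by
      rw [div_le_one hWR]
      exact_mod_cast hg.trans hG
    have hg0 : 0 ≤ (g : ℝ) / W := by positivity
    have habs : |(g : ℝ) / W * ∑ i, (e i : ℝ) * Real.log (p i)| ≤ 1 := by
      rw [abs_mul, abs_of_nonneg hg0]
      calc (g : ℝ) / W * |∑ i, (e i : ℝ) * Real.log (p i)| ≤ 1 * 1 :=
            mul_le_mul hgW hz (abs_nonneg _) (by norm_num)
        _ = 1 := one_mul 1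
    have hsum : (g : ℝ) / W * ∑ i, (e i : ℝ) * Real.log (p i) =
        ∑ i, ((g : ℝ) * e i) / W * Real.log (p i) := by
      rw [Finset.mul_sum]
      refine Finset.sum_congr rfl fun i _ => ?_
      ring
    rw [hsum] at habs
    have h3 := abs_le.1 habs
    have hlow : ∑ i, ((g : ℝ) * e i) / W * Real.log (p i) - Λ ≤ x g := by
      rw [hΛ, ← Finset.sum_sub_distrib]
      refine Finset.sum_le_sum fun i _ => ?_
      have h4 := mul_le_mul_of_nonneg_right (hfl g i).1 (hlp i)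
      linarith
    have hup : x g ≤ ∑ i, ((g : ℝ) * e i) / W * Real.log (p i) := by
      refine Finset.sum_le_sum fun i _ => ?_
      exact mul_le_mul_of_nonneg_right (hfl g i).2 (hlp i)
    constructor <;> linarith
  set y : ℕ → ℝ := fun g => (x g + Λ + 1) * B / (Λ + 3) with hy
  have hy0 : ∀ g ≤ G, 0 ≤ y g := by
    intro g hg
    have := (hxb g hg).1
    simp only [hy]
    apply div_nonneg _ (by linarith)
    apply mul_nonneg _ hBR.le
    linarith
  have hyB : ∀ g ≤ G, ⌊y g⌋₊ < B := by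
    intro g hg
    rw [Nat.floor_lt (hy0 g hg)]
    simp only [hy]
    rw [div_lt_iff₀ (by linarith)]
    have h1 := (hxb g hg).2
    have h2 : (x g + Λ + 1) * B ≤ (Λ + 2) * B := mul_le_mul_of_nonneg_right (by linarith) hBR.le
    nlinarith
  let F : Fin (G + 1) → Fin B × (ι → Fin Q) := fun g =>
    (⟨⌊y (g : ℕ)⌋₊, hyB _ (Nat.lt_succ_iff.1 g.2)⟩,
      fun i => ⟨((Q : ℤ) * ((((g : ℕ) : ℤ) * e i) % W) / W).toNat, hbox g i⟩)
  have hcard : Fintype.card (Fin B × (ι → Fin Q)) < Fintype.card (Fin (G + 1)) := by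
    rw [Fintype.card_prod, Fintype.card_fun, Fintype.card_fin, Fintype.card_fin, Fintype.card_fin]
    omega
  obtain ⟨g1, g2, hne, hF⟩ := Fintype.exists_ne_map_eq_of_card_lt F hcard
  have key : ∀ g g' : Fin (G + 1), g < g' → F g = F g' → ∃ γ : ℕ, 0 < γ ∧ γ ≤ G ∧
      ∃ f : ι → ℤ, (∀ i, |(γ : ℤ) * e i - W * f i| * Q < W) ∧
      |∑ i, (f i : ℝ) * Real.log (p i)| ≤ (Λ + 3) / B := by
    intro g g' hlt hFF
    have hF1 : ⌊y (g : ℕ)⌋₊ = ⌊y (g' : ℕ)⌋₊ := congrArg (fun t => (Prod.fst t).val) hFF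
    have hF2 := congrArg Prod.snd hFF
    have hlt' : (g : ℕ) < (g' : ℕ) := hlt
    refine ⟨(g' : ℕ) - (g : ℕ), by omega, by have := g'.2; omega,
      fun i => ((g' : ℕ) : ℤ) * e i / W - ((g : ℕ) : ℤ) * e i / W, ?_, ?_⟩
    · intro i
      have h1 : ((Q : ℤ) * ((((g : ℕ) : ℤ) * e i) % W) / W).toNat
          = ((Q : ℤ) * ((((g' : ℕ) : ℤ) * e i) % W) / W).toNat := by
        have := congrFun hF2 i
        exact congrArg Fin.val this
      have hn1 : 0 ≤ (((g : ℕ) : ℤ) * e i) % W := Int.emod_nonneg _ hWz.ne'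
      have hn2 : 0 ≤ (((g' : ℕ) : ℤ) * e i) % W := Int.emod_nonneg _ hWz.ne'
      have hd1 : 0 ≤ (Q : ℤ) * ((((g : ℕ) : ℤ) * e i) % W) / W :=
        Int.ediv_nonneg (by positivity) hWz.le
      have hd2 : 0 ≤ (Q : ℤ) * ((((g' : ℕ) : ℤ) * e i) % W) / W :=
        Int.ediv_nonneg (by positivity) hWz.le
      have h2 : (Q : ℤ) * ((((g : ℕ) : ℤ) * e i) % W) / W
          = (Q : ℤ) * ((((g' : ℕ) : ℤ) * e i) % W) / W := by omega
      -- Euclidean division identities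
      have e1 := Int.emod_add_mul_ediv (((g : ℕ) : ℤ) * e i) W
      have e2 := Int.emod_add_mul_ediv (((g' : ℕ) : ℤ) * e i) W
      set m1 := (((g : ℕ) : ℤ) * e i) % W
      set m2 := (((g' : ℕ) : ℤ) * e i) % W
      set k1 := ((g : ℕ) : ℤ) * e i / W
      set k2 := ((g' : ℕ) : ℤ) * e i / W
      have e3 := Int.emod_add_mul_ediv ((Q : ℤ) * m1) W
      have e4 := Int.emod_add_mul_ediv ((Q : ℤ) * m2) W
      have e5 : 0 ≤ ((Q : ℤ) * m1) % W := Int.emod_nonneg _ hWz.ne'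
      have e6 : ((Q : ℤ) * m1) % W < W := Int.emod_lt_of_pos _ hWz
      have e7 : 0 ≤ ((Q : ℤ) * m2) % W := Int.emod_nonneg _ hWz.ne'
      have e8 : ((Q : ℤ) * m2) % W < W := Int.emod_lt_of_pos _ hWz
      have h3 : (((g' : ℕ) - (g : ℕ) : ℕ) : ℤ) * e i - W * (k2 - k1) = m2 - m1 := by
        rw [Nat.cast_sub hlt'.le]
        linear_combination e1 - e2
      rw [h3]
      have hQz : (0 : ℤ) ≤ Q := by positivity
      rw [show (Q : ℤ) = |(Q : ℤ)| from (abs_of_nonneg hQz).symm, ← abs_mul, abs_lt]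
      rw [h2] at e3
      constructor
      · have : (m2 - m1) * (Q : ℤ) = ((Q : ℤ) * m2) % W - ((Q : ℤ) * m1) % W := by
          linear_combination e3 - e4
        rw [this]; omega
      · have : (m2 - m1) * (Q : ℤ) = ((Q : ℤ) * m2) % W - ((Q : ℤ) * m1) % W := by
          linear_combination e3 - e4
        rw [this]; omega
    · -- nearness to `1`
      have hsum : ∑ i, (((((g' : ℕ) : ℤ) * e i / W - ((g : ℕ) : ℤ) * e i / W : ℤ)) : ℝ) *
          Real.log (p i) = x g' - x g := by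
        simp only [hx]
        rw [← Finset.sum_sub_distrib]
        refine Finset.sum_congr rfl fun i _ => ?_
        push_cast
        ring
      rw [hsum]
      have a1 := Nat.floor_le (hy0 g (Nat.lt_succ_iff.1 g.2))
      have a2 := Nat.lt_floor_add_one (y g)
      have a3 := Nat.floor_le (hy0 g' (Nat.lt_succ_iff.1 g'.2))
      have a4 := Nat.lt_floor_add_one (y g')
      rw [hF1] at a1 a2
      have h5 : |y g' - y g| ≤ 1 := by
        rw [abs_le]
        constructor <;> linarith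
      have h6 : y g' - y g = (x g' - x g) * (B / (Λ + 3)) := by
        simp only [hy]
        ring
      rw [h6, abs_mul, abs_of_nonneg (show 0 ≤ (B : ℝ) / (Λ + 3) from
        div_nonneg hBR.le (by linarith))] at h5
      rw [le_div_iff₀ hBR]
      have h7 : |x g' - x g| * (B / (Λ + 3)) * (Λ + 3) ≤ 1 * (Λ + 3) :=
        mul_le_mul_of_nonneg_right h5 (by linarith)
      have h8 : |x g' - x g| * (B / (Λ + 3)) * (Λ + 3) = |x g' - x g| * B := by
        field_simp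
      linarith
  rcases lt_or_gt_of_ne hne with h | h
  · exact key g1 g2 h hF
  · exact key g2 g1 h hF.symm

end Pool.Agent.Lib.AbcO
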