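import Mathlib
import Pool.Agent.Lib.AbcO.PigeonInf
import Pool.Agent.Lib.Pabc13.InfPair

/-!
# A quotient of integers composed of few primes is not too close to `1`
-/

set_option autoImplicit false

namespace Pool.Agent.Lib.AbcO

open Finset Pool.Agent.AbcE

variable {ι : Type*} [Fintype ι]

theorem log_posP_sub {p : ι → ℕ} (hp : ∀ i, 0 < p i) (f : ι → ℤ) :
    Real.log (posP p f) - Real.log (negP p f) = ∑ i, (f i : ℝ) * Real.log (p i) := by
  unfold posP negP
  push_cast
  rw [Real.log_prod (fun i _ => pow_ne_zero _ (by exact_mod_cast (hp i).ne')),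
    Real.log_prod (fun i _ => pow_ne_zero _ (by exact_mod_cast (hp i).ne')),
    ← Finset.sum_sub_distrib]
  refine Finset.sum_congr rfl ?_
  intro i _
  rw [Real.log_pow, Real.log_pow, ← sub_mul]
  congr 1
  rcases le_total 0 (f i) with h | h
  · have h1 : (-f i).toNat = 0 := by omega
    have h2 : (((f i).toNat : ℕ) : ℝ) = ((f i : ℤ) : ℝ) := by
      exact_mod_cast Int.toNat_of_nonneg h
    rw [h1, h2, Nat.cast_zero, sub_zero]
  · have h1 : (f i).toNat = 0 := by omega
    have h2 : (((-f i).toNat : ℕ) : ℝ) = ((-f i : ℤ) : ℝ) := by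
      exact_mod_cast Int.toNat_of_nonneg (show 0 ≤ -f i by omega)
    rw [h1, h2, Nat.cast_zero, zero_sub, Int.cast_neg, neg_neg]

/-- From a bound for the entries to a bound for the norm. -/
theorem norm_le_of {p : ι → ℕ} (v e : ι → ℤ) (c1 c2 : ℝ)
    (h : ∀ i, |(v i : ℝ)| ≤ c1 * |(e i : ℝ)| + c2) :
    ∑ i, (|v i| : ℝ) * Real.log (p i) ≤
      c1 * ∑ i, (|e i| : ℝ) * Real.log (p i) + c2 * ∑ i, Real.log (p i) := by
  rw [Finset.mul_sum, Finset.mul_sum, ← Finset.sum_add_distrib]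
  refine Finset.sum_le_sum fun i _ => ?_
  have h1 := mul_le_mul_of_nonneg_right (h i) (Real.log_natCast_nonneg (p i))
  push_cast
  linarith

/-- The closeness estimate with explicit parameters. -/
theorem hInf_core (p : ι → ℕ) (hp : ∀ i, (p i).Prime) (hinj : Function.Injective p) (e : ι → ℤ)
    (he : ∃ i, e i ≠ 0) (δ L : ℝ) (hδ : 0 < δ) (hδ1 : δ ≤ 1) (hL : 20000 / δ ≤ L) (Q B : ℕ)
    (hQ0 : 0 < Q) (hQ : 100000 * ∑ i, Real.log (p i) ≤ δ * L * Q)
    (hB : 40 * Real.exp L * (∑ i, Real.log (p i) + 3) ≤ B)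
    (hclose : |(posP p e : ℝ) - negP p e| ≤
      8 * Real.exp (-(δ * ∑ i, (|e i| : ℝ) * Real.log (p i))) * negP p e) :
    ∑ i, (|e i| : ℝ) * Real.log (p i) ≤
      10 ^ 7 / δ * ((B : ℝ) * (Q : ℝ) ^ Fintype.card ι) ^ 2 * L := by
  classical
  by_contra hcon
  have hcon := not_le.1 hcon
  set h : ℝ := ∑ i, (|e i| : ℝ) * Real.log (p i) with hh
  set Λ : ℝ := ∑ i, Real.log (p i) with hΛ
  set G : ℕ := B * Q ^ Fintype.card ι with hG
  have hGR : (G : ℝ) = (B : ℝ) * (Q : ℝ) ^ Fintype.card ι := by rw [hG]; push_cast; rfl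
  rw [← hGR] at hcon
  have hpos : ∀ i, 0 < p i := fun i => (hp i).pos
  have hlp : ∀ i, 0 < Real.log (p i) := fun i =>
    Real.log_pos (by exact_mod_cast (hp i).one_lt)
  obtain ⟨i1, hi1⟩ := he
  have hΛ0 : 0 < Λ := by
    rw [hΛ]
    exact Finset.sum_pos (fun i _ => hlp i) ⟨i1, Finset.mem_univ _⟩
  have hL' : 20000 ≤ δ * L := by
    rw [div_le_iff₀ hδ] at hL
    linarith
  have hL4 : (20000 : ℝ) ≤ L := by
    have h1 : (0 : ℝ) < L := lt_of_lt_of_le (by positivity) hL
    have : δ * L ≤ 1 * L := mul_le_mul_of_nonneg_right hδ1 h1.le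
    linarith
  have hL0 : 0 < L := by linarith
  have hQR : (1 : ℝ) ≤ Q := by exact_mod_cast hQ0
  have hB0 : 0 < B := by
    have h1 : (0 : ℝ) < B := lt_of_lt_of_le (by positivity) hB
    exact_mod_cast h1
  have hBR : (0 : ℝ) < B := by exact_mod_cast hB0
  have hG0 : 0 < G := Nat.mul_pos hB0 (pow_pos hQ0 _)
  have hG1 : (1 : ℝ) ≤ G := by exact_mod_cast hG0
  have hGsq : (G : ℝ) ≤ (G : ℝ) ^ 2 := by nlinarith
  -- `h` is huge
  have hcon2 : 10 ^ 7 * (G : ℝ) ^ 2 * L < δ * h := by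
    have h1 : 10 ^ 7 / δ * (G : ℝ) ^ 2 * L = 10 ^ 7 * (G : ℝ) ^ 2 * L / δ := by ring
    rw [h1, div_lt_iff₀ hδ] at hcon
    linarith
  have hh0 : 0 < h := lt_of_le_of_lt (by positivity) hcon
  have hδh : (10 : ℝ) ^ 7 ≤ δ * h := by
    have h1 : (1 : ℝ) * 1 ≤ (G : ℝ) ^ 2 * L := mul_le_mul (by linarith) (by linarith)
      (by norm_num) (by positivity)
    linarith
  have hexp8 : 8 * Real.exp (-(δ * h)) ≤ 1 / 2 := by
    have h1 : Real.exp (-(δ * h)) ≤ Real.exp (-4) := Real.exp_le_exp.2 (by linarith)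
    have h2 : (16 : ℝ) ≤ Real.exp 4 := by
      have h3 := Real.add_one_le_exp (1 : ℝ)
      have h4 : Real.exp 4 = Real.exp 1 ^ 4 := by rw [← Real.exp_nat_mul]; norm_num
      rw [h4]
      calc (16 : ℝ) = 2 ^ 4 := by norm_num
        _ ≤ Real.exp 1 ^ 4 := pow_le_pow_left₀ (by norm_num) (by linarith) 4
    have h3 : Real.exp (-4) ≤ 1 / 16 := by
      rw [Real.exp_neg, inv_le_comm₀ (Real.exp_pos _) (by norm_num)]
      linarith
    linarith
  have hP1 : (0 : ℝ) < posP p e := by exact_mod_cast posP_pos hpos e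
  have hP2 : (0 : ℝ) < negP p e := by exact_mod_cast negP_pos hpos e
  -- the logarithm of the quotient
  have hS : |∑ i, (e i : ℝ) * Real.log (p i)| ≤ 1 := by
    rw [← log_posP_sub hpos e]
    have h1 : |(posP p e : ℝ) - negP p e| ≤ 1 / 2 * negP p e :=
      hclose.trans (mul_le_mul_of_nonneg_right hexp8 hP2.le)
    have h2 := abs_le.1 h1
    rw [abs_le]
    constructor
    · have h3 : Real.log (negP p e) - Real.log (posP p e) ≤ (negP p e : ℝ) / posP p e - 1 := by
        rw [← Real.log_div hP2.ne' hP1.ne']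
        exact Real.log_le_sub_one_of_pos (div_pos hP2 hP1)
      have h4 : (negP p e : ℝ) / posP p e ≤ 2 := by
        rw [div_le_iff₀ hP1]
        linarith
      linarith
    · have h3 : Real.log (posP p e) - Real.log (negP p e) ≤ (posP p e : ℝ) / negP p e - 1 := by
        rw [← Real.log_div hP1.ne' hP2.ne']
        exact Real.log_le_sub_one_of_pos (div_pos hP1 hP2)
      have h4 : (posP p e : ℝ) / negP p e ≤ 2 := by
        rw [div_le_iff₀ hP2]
        linarith
      linarith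
  -- the scale
  set W : ℕ := ⌊h / L⌋₊ with hWdef
  have hW1 : (W : ℝ) * L ≤ h := by
    have h1 : (W : ℝ) ≤ h / L := Nat.floor_le (by positivity)
    rwa [le_div_iff₀ hL0] at h1
  have hhL : 10 ^ 7 * (G : ℝ) ^ 2 ≤ δ * (h / L) := by
    have h1 : δ * (h / L) = δ * h / L := by ring
    rw [h1, le_div_iff₀ hL0]
    exact hcon2.le
  have hhL1 : 10 ^ 7 * (G : ℝ) ^ 2 ≤ h / L := by
    refine hhL.trans ?_
    have h1 : 0 ≤ h / L := by positivity
    have := mul_le_mul_of_nonneg_right hδ1 h1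
    linarith
  have hW2 : h / L < W + 1 := Nat.lt_floor_add_one _
  have hWG : (G : ℝ) ≤ W := by nlinarith
  have hWhalf : h ≤ 2 * L * W := by
    have h1 : h / L ≤ 2 * W := by nlinarith
    rw [div_le_iff₀ hL0] at h1
    linarith
  have hWG' : G ≤ W := by exact_mod_cast hWG
  have hW0 : 0 < W := lt_of_lt_of_le hG0 hWG'
  have hWR : (0 : ℝ) < W := by exact_mod_cast hW0
  obtain ⟨γ, hγ0, hγG, f, hf, hfs⟩ := pigeonInf p hpos e W Q B hW0 hQ0 hB0 hS hWG'
  rw [← hG] at hγG
  rw [← hΛ] at hfs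
  have hγR : (0 : ℝ) < γ := by exact_mod_cast hγ0
  have hγ1 : (1 : ℝ) ≤ γ := by exact_mod_cast hγ0
  have hγG' : (γ : ℝ) ≤ G := by exact_mod_cast hγG
  have hQ0R : (0 : ℝ) < Q := by linarith
  have hfR : ∀ i, |(γ : ℝ) * e i - W * f i| ≤ W / Q := by
    intro i
    rw [le_div_iff₀ hQ0R]
    have := hf i
    have h1 : |(γ : ℝ) * e i - W * f i| * Q < W := by exact_mod_cast this
    exact h1.le
  set g : ℕ := W / γ with hg
  have hg1 : γ * g ≤ W := Nat.mul_div_le W γ
  have hg2 : W < γ * (g + 1) := Nat.lt_mul_div_succ W hγ0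
  have hg1R : (γ : ℝ) * g ≤ W := by exact_mod_cast hg1
  have hg2R : (W : ℝ) < γ * (g + 1) := by exact_mod_cast hg2
  have hgW : (g : ℝ) ≤ W := by
    have h1 : (1 : ℝ) * g ≤ γ * g := mul_le_mul_of_nonneg_right hγ1 (Nat.cast_nonneg _)
    linarith
  have hgL : (g : ℝ) * L ≤ h := (mul_le_mul_of_nonneg_right hgW hL0.le).trans hW1
  -- `g` is large
  have hgbig : 4 * 10 ^ 6 * (G : ℝ) ≤ δ * g := by
    have h1 : δ * (h / L) ≤ δ * (2 * W) := by
      apply mul_le_mul_of_nonneg_left _ hδ.le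
      nlinarith
    have h2 : δ * (W : ℝ) ≤ δ * (G * (g + 1)) := by
      apply mul_le_mul_of_nonneg_left _ hδ.le
      refine hg2R.le.trans ?_
      exact mul_le_mul_of_nonneg_right hγG' (by positivity)
    have h3 : (G : ℝ) * (10 ^ 7 * G) ≤ G * (2 * δ * (g + 1)) := by
      have : (G : ℝ) * (10 ^ 7 * G) = 10 ^ 7 * (G : ℝ) ^ 2 := by ring
      rw [this]
      have : (G : ℝ) * (2 * δ * (g + 1)) = 2 * (δ * (G * (g + 1))) := by ring
      rw [this]
      linarith
    have h4 := le_of_mul_le_mul_left h3 (by linarith)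
    nlinarith
  have hg4 : 10000 * 2 / δ ≤ g := by
    rw [div_le_iff₀ hδ]
    nlinarith
  have hgpos : (0 : ℝ) < g := lt_of_lt_of_le (by positivity) hg4
  -- the norm of `f`
  have hfi : ∀ i, |(f i : ℝ)| ≤ (γ / W) * |(e i : ℝ)| + 1 / Q := by
    intro i
    have h1 : (W : ℝ) * |(f i : ℝ)| ≤ γ * |(e i : ℝ)| + W / Q := by
      have e1 : (W : ℝ) * |(f i : ℝ)| = |(γ : ℝ) * e i - (γ * e i - W * f i)| := by
        rw [sub_sub_cancel, abs_mul, abs_of_pos hWR]
      have e2 : |(γ : ℝ) * e i - (γ * e i - W * f i)| ≤ |(γ : ℝ) * e i| +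
          |(γ : ℝ) * e i - W * f i| := abs_sub _ _
      have e3 : |(γ : ℝ) * e i| = γ * |(e i : ℝ)| := by rw [abs_mul, abs_of_pos hγR]
      have := hfR i
      linarith
    have h2 : (W : ℝ) * |(f i : ℝ)| ≤ W * ((γ / W) * |(e i : ℝ)| + 1 / Q) := by
      have e1 : (W : ℝ) * ((γ / W) * |(e i : ℝ)| + 1 / Q) = γ * |(e i : ℝ)| + W / Q := by
        field_simp
      rw [e1]
      exact h1
    exact le_of_mul_le_mul_left h2 hWR
  have hΛQ : Λ / Q ≤ δ * L / 100000 := by
    rw [div_le_div_iff₀ hQ0R (by norm_num)]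
    linarith
  have hfnorm : ∑ i, (|f i| : ℝ) * Real.log (p i) ≤ h / g + L := by
    refine (norm_le_of (p := p) f e (γ / W) (1 / Q) hfi).trans ?_
    rw [← hh, ← hΛ]
    have h1 : (γ : ℝ) / W * h ≤ h / g := by
      rw [div_mul_eq_mul_div, div_le_div_iff₀ hWR hgpos]
      nlinarith
    have h2 : 1 / (Q : ℝ) * Λ ≤ L := by
      have e1 : 1 / (Q : ℝ) * Λ = Λ / Q := by ring
      rw [e1]
      refine hΛQ.trans ?_
      nlinarith
    linarith
  -- the exponents of the remaining factor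
  set a : ι → ℤ := fun i => e i - g * f i with ha
  have hai : ∀ i, |(a i : ℝ)| ≤ (γ / W) * |(e i : ℝ)| + g / Q := by
    intro i
    have h1 : (W : ℝ) * a i = e i * (W - γ * g) + g * (γ * e i - W * f i) := by
      rw [ha]
      push_cast
      ring
    have h2 : (W : ℝ) * |(a i : ℝ)| ≤ γ * |(e i : ℝ)| + g * (W / Q) := by
      have e1 : (W : ℝ) * |(a i : ℝ)| = |(W : ℝ) * a i| := by rw [abs_mul, abs_of_pos hWR]
      rw [e1, h1]
      refine (abs_add_le _ _).trans ?_
      rw [abs_mul, abs_mul, abs_of_pos hgpos]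
      have e2 : |(W : ℝ) - γ * g| ≤ γ := by
        rw [abs_of_nonneg (by linarith)]
        linarith
      have e3 := abs_nonneg (e i : ℝ)
      have e4 := hfR i
      have e5 : |(e i : ℝ)| * |(W : ℝ) - γ * g| ≤ |(e i : ℝ)| * γ :=
        mul_le_mul_of_nonneg_left e2 e3
      have e6 : (g : ℝ) * |(γ : ℝ) * e i - W * f i| ≤ g * (W / Q) :=
        mul_le_mul_of_nonneg_left e4 hgpos.le
      linarith
    have h3 : (W : ℝ) * |(a i : ℝ)| ≤ W * ((γ / W) * |(e i : ℝ)| + g / Q) := by
      have e1 : (W : ℝ) * ((γ / W) * |(e i : ℝ)| + g / Q) = γ * |(e i : ℝ)| + g * (W / Q) := by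
        field_simp
      rw [e1]
      exact h2
    exact le_of_mul_le_mul_left h3 hWR
  have hanorm : ∑ i, (|a i| : ℝ) * Real.log (p i) ≤ δ * L * g / (20000 * 2) := by
    refine (norm_le_of (p := p) a e (γ / W) (g / Q) hai).trans ?_
    rw [← hh, ← hΛ]
    have h1 : (γ : ℝ) / W * h ≤ 2 * L * G := by
      rw [div_mul_eq_mul_div, div_le_iff₀ hWR]
      calc (γ : ℝ) * h ≤ G * (2 * L * W) := mul_le_mul hγG' hWhalf hh0.le (by positivity)
        _ = 2 * L * G * W := by ring
    have h2 : (g : ℝ) / Q * Λ ≤ g * (δ * L / 100000) := by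
      have e1 : (g : ℝ) / Q * Λ = g * (Λ / Q) := by ring
      rw [e1]
      exact mul_le_mul_of_nonneg_left hΛQ hgpos.le
    have h3 : 2 * L * (G : ℝ) ≤ 1 / 2000000 * (L * (δ * g)) := by
      have := mul_le_mul_of_nonneg_left hgbig hL0.le
      linarith
    have h4 : δ * L * g / (20000 * 2) = 1 / 40000 * (L * (δ * g)) := by ring
    have h5 : (g : ℝ) * (δ * L / 100000) = 1 / 100000 * (L * (δ * g)) := by ring
    have h6 : 0 ≤ L * (δ * g) := by positivity
    rw [h4]
    linarith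
  -- `f ≠ 0`
  have hf0 : ∃ i, f i ≠ 0 := by
    by_contra hc
    have hc' : ∀ i, f i = 0 := fun i => by_contra fun h => hc ⟨i, h⟩
    have h1 : ∀ i, |(e i : ℝ)| ≤ 0 * |(e i : ℝ)| + W / Q := by
      intro i
      have h2 := hfR i
      rw [hc' i, Int.cast_zero, mul_zero, sub_zero, abs_mul, abs_of_pos hγR] at h2
      have h3 : 1 * |(e i : ℝ)| ≤ γ * |(e i : ℝ)| := mul_le_mul_of_nonneg_right hγ1 (abs_nonneg _)
      linarith
    have h2 := norm_le_of (p := p) e e 0 (W / Q) h1
    rw [← hh, ← hΛ, zero_mul, zero_add] at h2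
    have h3 : (W : ℝ) / Q * Λ = W * (Λ / Q) := by ring
    rw [h3] at h2
    have h4 : (W : ℝ) * (Λ / Q) ≤ W * (δ * L / 100000) :=
      mul_le_mul_of_nonneg_left hΛQ hWR.le
    have h5 : (W : ℝ) * (δ * L / 100000) ≤ W * L / 2 := by
      have : W * (δ * L / 100000) = (W * L) * (δ / 100000) := by ring
      rw [this]
      have h6 : δ / 100000 ≤ 1 / 2 := by linarith
      have h7 : 0 ≤ (W : ℝ) * L := by positivity
      nlinarith
    have h6 : (W : ℝ) * L / 2 ≤ h / 2 := by linarith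
    linarith
  have hneB := posP_ne_negP hp hinj f hf0
  have hF1 : (0 : ℝ) < posP p f := by exact_mod_cast posP_pos hpos f
  have hF2 : (0 : ℝ) < negP p f := by exact_mod_cast negP_pos hpos f
  refine Pabc13.pairInf g (posP p f) (negP p f) (posP p a) (negP p a) δ 2 h L hδ hδ1 (by norm_num)
    (by
      have : 10000 * 2 / δ = 20000 / δ := by norm_num
      rw [this]
      exact hL) hg4 hgL (posP_pos hpos f) (negP_pos hpos f) (posP_pos hpos a)
    (negP_pos hpos a) hneB ?_ ?_ ?_ ?_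
  · -- `E0`
    set x : ℝ := ∑ i, (f i : ℝ) * Real.log (p i) with hx
    have hxlog : Real.log (posP p f) - Real.log (negP p f) = x := log_posP_sub hpos f
    have hx1 : |x| ≤ Real.exp (-L) / 40 := by
      refine hfs.trans ?_
      rw [div_le_div_iff₀ hBR (by norm_num)]
      have h1 : Real.exp (-L) * (40 * Real.exp L * (Λ + 3)) = (Λ + 3) * 40 := by
        have : Real.exp (-L) * Real.exp L = 1 := by rw [← Real.exp_add]; simp
        calc Real.exp (-L) * (40 * Real.exp L * (Λ + 3)) =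
              (Real.exp (-L) * Real.exp L) * ((Λ + 3) * 40) := by ring
          _ = _ := by rw [this, one_mul]
      rw [← h1]
      exact mul_le_mul_of_nonneg_left hB (Real.exp_pos _).le
    have hexpL : Real.exp (-L) ≤ 1 := by
      rw [Real.exp_le_one_iff]
      linarith
    have hx2 : |(-x)| ≤ 1 := by
      rw [abs_neg]
      linarith
    have h2 := Real.abs_exp_sub_one_le hx2
    rw [abs_neg] at h2
    have h3 : (negP p f : ℝ) = posP p f * Real.exp (-x) := by
      rw [← hxlog, neg_sub, Real.exp_sub, Real.exp_log hF1, Real.exp_log hF2]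
      field_simp
    have h4 : (negP p f : ℝ) - posP p f = posP p f * (Real.exp (-x) - 1) := by
      rw [h3]
      ring
    rw [h4, abs_mul, abs_of_pos hF1, mul_comm]
    apply mul_le_mul_of_nonneg_right _ hF1.le
    linarith
  · -- `E1`
    have hcr := cross hpos e a f g (fun i => by rw [ha]; ring)
    have h1 : (posP p a : ℝ) * posP p f ^ g * negP p e = negP p a * negP p f ^ g * posP p e := by
      exact_mod_cast hcr
    have h2 : ((posP p a : ℝ) * posP p f ^ g - negP p a * negP p f ^ g) * negP p e =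
        negP p a * negP p f ^ g * ((posP p e : ℝ) - negP p e) := by
      linear_combination h1
    have h3 : (0 : ℝ) ≤ negP p a * negP p f ^ g := by positivity
    have h4 : |(posP p a : ℝ) * posP p f ^ g - negP p a * negP p f ^ g| * negP p e ≤
        (8 * Real.exp (-(δ * h)) * (negP p a * negP p f ^ g)) * negP p e := by
      calc |(posP p a : ℝ) * posP p f ^ g - negP p a * negP p f ^ g| * negP p e =
            |((posP p a : ℝ) * posP p f ^ g - negP p a * negP p f ^ g) * negP p e| := by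
              rw [abs_mul, abs_of_pos hP2]
        _ = (negP p a * negP p f ^ g) * |(posP p e : ℝ) - negP p e| := by
              rw [h2, abs_mul, abs_of_nonneg h3]
        _ ≤ (negP p a * negP p f ^ g) * (8 * Real.exp (-(δ * h)) * negP p e) :=
              mul_le_mul_of_nonneg_left hclose h3
        _ = _ := by ring
    exact le_of_mul_le_mul_right h4 hP2
  · refine (log_max_le hpos f).trans (hfnorm.trans ?_)
    have h1 : L ≤ h / g := by
      rw [le_div_iff₀ hgpos]
      linarith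
    have h2 : 2 * h / g = h / g + h / g := by ring
    rw [h2]
    linarith
  · exact (log_max_le hpos a).trans hanorm

end Pool.Agent.Lib.AbcO
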