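import Mathlib
import Pool.Agent.Lib.AbcO.HInfCore
import Pool.Agent.Lib.AbcH.Main
import Pool.Agent.Lib.AbcO.Struct

/-!
# The infinite place: two integers composed of few primes are not too close to each other
-/

set_option autoImplicit false

namespace Pool.Agent.Lib.AbcO

open Finset Pool.Agent.AbcE

/-- If `c - b ≤ c ^ (1 - d)` with `b < c` coprime then `log c` is at most a constant times a small
power of the product of the primes of `b c`. -/
theorem hInf_log (d η : ℝ) (hd : 0 < d) (hη : 0 < η) : ∃ K : ℝ, 0 < K ∧ ∀ b c : ℕ,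
    0 < b → b < c → Nat.Coprime b c → Real.log ((c : ℝ) - b) ≤ (1 - d) * Real.log c →
    Real.log c ≤ K * (∏ p ∈ (b * c).primeFactors, (p : ℝ)) ^ η := by
  obtain ⟨δ0, hδ0⟩ : ∃ δ0 : ℝ, δ0 = min d 1 := ⟨_, rfl⟩
  have hδ00 : 0 < δ0 := by rw [hδ0]; exact lt_min hd one_pos
  have hδ01 : δ0 ≤ 1 := by rw [hδ0]; exact min_le_right _ _
  have hδ0d : δ0 ≤ d := by rw [hδ0]; exact min_le_left _ _
  obtain ⟨δ, hδ⟩ : ∃ δ : ℝ, δ = δ0 / 2 := ⟨_, rfl⟩
  have hδpos : 0 < δ := by rw [hδ]; positivity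
  have hδ1 : δ ≤ 1 := by rw [hδ]; linarith
  obtain ⟨θ, hθ⟩ : ∃ θ : ℝ, θ = η / 7 := ⟨_, rfl⟩
  have hθ0 : 0 < θ := by rw [hθ]; positivity
  obtain ⟨Q, hQ⟩ : ∃ Q : ℕ, Q = ⌈100000 / (δ * θ)⌉₊ := ⟨_, rfl⟩
  have hQR : 100000 / (δ * θ) ≤ Q := by rw [hQ]; exact Nat.le_ceil _
  have hQ0 : 0 < Q := by
    have h1 : (0 : ℝ) < Q := lt_of_lt_of_le (by positivity) hQR
    exact_mod_cast h1
  have hQ1 : (1 : ℝ) ≤ Q := by exact_mod_cast hQ0
  obtain ⟨K2, hK2, hcard⟩ := AbcH.pow_card_le (Q : ℝ) θ hQ1 hθ0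
  obtain ⟨E, hE⟩ : ∃ E : ℝ, E = Real.exp (20000 / δ) := ⟨_, rfl⟩
  have hE0 : 0 < E := by rw [hE]; positivity
  have hE1 : 1 ≤ E := by rw [hE]; exact Real.one_le_exp (by positivity)
  refine ⟨10 ^ 7 / δ * (41 * E * (1 / θ + 3) * K2) ^ 2 * (1 + 20000 / δ) + 1 / δ0, by positivity, ?_⟩
  intro b c hb hbc hcop hclose
  have hc : 0 < c := by omega
  have hbR : (0 : ℝ) < b := by exact_mod_cast hb
  have hcR : (0 : ℝ) < c := by exact_mod_cast hc
  have hc2 : (2 : ℝ) ≤ c := by
    have : 2 ≤ c := by omega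
    exact_mod_cast this
  have hbcR : (b : ℝ) + 1 ≤ c := by exact_mod_cast hbc
  have hlogc : 0 < Real.log c := Real.log_pos (by linarith)
  set S := (b * c).primeFactors with hS
  set T : ℝ := ∏ p ∈ S, (p : ℝ) with hT
  have hSp : ∀ q ∈ S, q.Prime := fun q hq => Nat.prime_of_mem_primeFactors hq
  have hT1 : 1 ≤ T := by
    rw [hT, ← Nat.cast_prod]
    exact_mod_cast Nat.succ_le_of_lt (Finset.prod_pos fun q hq => (hSp q hq).pos)
  have hT0 : 0 < T := by linarith
  set t : ℝ := T ^ θ with ht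
  have ht1 : 1 ≤ t := Real.one_le_rpow hT1 hθ0.le
  have ht7 : T ^ η = t ^ 7 := by
    rw [ht, ← Real.rpow_natCast, ← Real.rpow_mul hT0.le, hθ]
    congr 1
    push_cast
    ring
  have hTη : 1 ≤ T ^ η := Real.one_le_rpow hT1 hη.le
  have hKpos : 0 ≤ 10 ^ 7 / δ * (41 * E * (1 / θ + 3) * K2) ^ 2 * (1 + 20000 / δ) := by positivity
  have hclose0 : Real.log ((c : ℝ) - b) ≤ (1 - δ0) * Real.log c := by
    refine hclose.trans ?_
    apply mul_le_mul_of_nonneg_right _ hlogc.le
    linarith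
  -- the trivial case
  rcases lt_or_ge ((c : ℝ) / 2) b with hhalf | hhalf
  swap
  · have h1 : Real.log ((c : ℝ) / 2) ≤ Real.log ((c : ℝ) - b) :=
      Real.log_le_log (by positivity) (by linarith)
    rw [Real.log_div hcR.ne' (by norm_num)] at h1
    have h2 := Real.log_two_lt_d9
    have h3 : δ0 * Real.log c ≤ 1 := by linarith
    have h4 : Real.log c ≤ 1 / δ0 := by
      rw [le_div_iff₀ hδ00]
      linarith
    calc Real.log c ≤ (1 / δ0) * 1 := by linarith
      _ ≤ (10 ^ 7 / δ * (41 * E * (1 / θ + 3) * K2) ^ 2 * (1 + 20000 / δ) + 1 / δ0) * T ^ η := by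
          apply mul_le_mul _ hTη (by norm_num) (by positivity)
          linarith
  -- one of the two exponents vanishes
  have hS1 : c.primeFactors ⊆ S := Nat.primeFactors_mono (Dvd.intro_left _ rfl) (by positivity)
  have hS2 : b.primeFactors ⊆ S := Nat.primeFactors_mono (Dvd.intro _ rfl) (by positivity)
  have hz : ∀ q, c.factorization q = 0 ∨ b.factorization q = 0 := by
    intro q
    by_contra hcon
    push Not at hcon
    have a1 : q ∈ c.primeFactors := by
      rw [← Nat.support_factorization, Finsupp.mem_support_iff]; exact hcon.1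
    have a2 : q ∈ b.primeFactors := by
      rw [← Nat.support_factorization, Finsupp.mem_support_iff]; exact hcon.2
    exact Finset.disjoint_left.1 (Nat.Coprime.disjoint_primeFactors hcop) a2 a1
  set e : {q // q ∈ S} → ℤ := fun q => (c.factorization q : ℤ) - b.factorization q with he
  have hpos : ∀ q, (e q).toNat = c.factorization q := by
    intro q
    rcases hz q with h | h <;> simp only [he] <;> omega
  have hneg : ∀ q, (-e q).toNat = b.factorization q := by
    intro q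
    rcases hz q with h | h <;> simp only [he] <;> omega
  have habs : ∀ q, |((e q : ℤ) : ℝ)| = (c.factorization q : ℝ) + b.factorization q := by
    intro q
    simp only [he]
    rcases hz q with h | h
    · rw [h]
      push_cast
      rw [zero_sub, abs_neg, abs_of_nonneg (Nat.cast_nonneg _), zero_add]
    · rw [h]
      push_cast
      rw [sub_zero, abs_of_nonneg (Nat.cast_nonneg _), add_zero]
  have hsum : ∑ q : {q // q ∈ S}, |((e q : ℤ) : ℝ)| * Real.log (q : ℕ) =
      Real.log c + Real.log b := by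
    simp only [habs, add_mul]
    rw [Finset.sum_add_distrib, Pool.Agent.Lib.Pabc9.sum_log_eq hc.ne' hS1 hSp,
      Pool.Agent.Lib.Pabc9.sum_log_eq hb.ne' hS2 hSp]
  have hlogb0 : 0 ≤ Real.log b := Real.log_natCast_nonneg b
  have hlogbc : Real.log b ≤ Real.log c := Real.log_le_log hbR (by linarith)
  have hene : ∃ i, e i ≠ 0 := by
    by_contra hcon
    push Not at hcon
    have h1 : ∑ q : {q // q ∈ S}, |((e q : ℤ) : ℝ)| * Real.log (q : ℕ) = 0 := by
      refine Finset.sum_eq_zero fun q _ => ?_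
      rw [hcon q]
      simp
    linarith
  have hpP : posP (fun q : {q // q ∈ S} => (q : ℕ)) e = c := by
    unfold posP
    simp only [hpos]
    exact Pool.Agent.Lib.Pabc9.prod_pow_eq hc.ne' hS1
  have hnP : negP (fun q : {q // q ∈ S} => (q : ℕ)) e = b := by
    unfold negP
    simp only [hneg]
    exact Pool.Agent.Lib.Pabc9.prod_pow_eq hb.ne' hS2
  have hlogS : ∑ q : {q // q ∈ S}, Real.log (q : ℕ) = Real.log T := by
    rw [Finset.sum_coe_sort S (fun q : ℕ => Real.log (q : ℕ)), hT, Real.log_prod]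
    intro q hq
    have := (hSp q hq).pos
    positivity
  -- the parameters
  set Λ : ℝ := Real.log T with hΛ
  have hΛ0 : 0 ≤ Λ := Real.log_nonneg hT1
  have hΛt : Λ ≤ t / θ := Real.log_le_rpow_div hT0.le hθ0
  obtain ⟨L, hL⟩ : ∃ L : ℝ, L = θ * Λ + 20000 / δ := ⟨_, rfl⟩
  obtain ⟨B, hB⟩ : ∃ B : ℕ, B = ⌈40 * Real.exp L * (Λ + 3)⌉₊ := ⟨_, rfl⟩
  have hLlow : 20000 / δ ≤ L := by
    rw [hL]
    have : 0 ≤ θ * Λ := by positivity
    linarith
  have hL0 : 0 < L := lt_of_lt_of_le (by positivity) hLlow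
  have key := hInf_core (ι := {q // q ∈ S}) (fun q => (q : ℕ)) (fun q => hSp q q.2)
    Subtype.val_injective e hene δ L hδpos hδ1 hLlow Q B hQ0 (by
      rw [hlogS]
      have h1 : 100000 ≤ δ * θ * Q := by
        rw [div_le_iff₀ (by positivity)] at hQR
        linarith
      have h2 : 100000 * Λ ≤ (δ * θ * Q) * Λ := mul_le_mul_of_nonneg_right h1 hΛ0
      have h3 : (δ * θ * Q) * Λ ≤ δ * L * Q := by
        rw [hL]
        have h4 : 0 ≤ δ * (20000 / δ) * Q := by positivity
        nlinarith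
      linarith) (by
      rw [hlogS, hB]
      exact Nat.le_ceil _) (by
      rw [hpP, hnP, hsum]
      have h0 : (0 : ℝ) < (c : ℝ) - b := by linarith
      rw [abs_of_pos h0]
      have h1 : (c : ℝ) - b ≤ Real.exp ((1 - δ0) * Real.log c) := by
        rw [← Real.log_le_iff_le_exp h0]
        exact hclose0
      have h2 : Real.exp ((1 - δ0) * Real.log c) = c * Real.exp (-(δ0 * Real.log c)) := by
        rw [show (1 - δ0) * Real.log c = Real.log c + -(δ0 * Real.log c) from by ring,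
          Real.exp_add, Real.exp_log hcR]
      have h3 : Real.exp (-(δ0 * Real.log c)) ≤ Real.exp (-(δ * (Real.log c + Real.log b))) := by
        apply Real.exp_le_exp.2
        rw [hδ]
        have := mul_le_mul_of_nonneg_left hlogbc hδ00.le
        linarith
      have h4 : 0 < Real.exp (-(δ * (Real.log c + Real.log b))) := Real.exp_pos _
      calc (c : ℝ) - b ≤ c * Real.exp (-(δ0 * Real.log c)) := by rw [← h2]; exact h1
        _ ≤ c * Real.exp (-(δ * (Real.log c + Real.log b))) :=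
            mul_le_mul_of_nonneg_left h3 hcR.le
        _ ≤ 8 * Real.exp (-(δ * (Real.log c + Real.log b))) * b := by nlinarith)
  rw [hsum, Fintype.card_coe] at key
  -- sizes
  have hexpL : Real.exp L = t * E := by
    rw [hL, Real.exp_add, hE, ht, Real.rpow_def_of_pos hT0, mul_comm θ]
  have hLt : L ≤ t * (1 + 20000 / δ) := by
    have h1 : θ * Λ ≤ t := by
      have := mul_le_mul_of_nonneg_left hΛt hθ0.le
      have h2 : θ * (t / θ) = t := by field_simp
      linarith
    have h2 : 20000 / δ ≤ t * (20000 / δ) := le_mul_of_one_le_left (by positivity) ht1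
    rw [hL]
    linarith
  have hΛ3 : Λ + 3 ≤ t * (1 / θ + 3) := by
    have h1 : t * (1 / θ + 3) = t / θ + 3 * t := by ring
    rw [h1]
    linarith
  have hBle : (B : ℝ) ≤ 41 * (t * E) * (t * (1 / θ + 3)) := by
    have h1 : (B : ℝ) < 40 * Real.exp L * (Λ + 3) + 1 := by
      rw [hB]
      exact Nat.ceil_lt_add_one (by positivity)
    have h2 : 1 ≤ Real.exp L * (Λ + 3) := by
      have h3 : 1 ≤ Real.exp L := Real.one_le_exp hL0.le
      nlinarith
    have h4 : Real.exp L * (Λ + 3) ≤ (t * E) * (t * (1 / θ + 3)) := by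
      rw [hexpL]
      exact mul_le_mul_of_nonneg_left hΛ3 (by positivity)
    nlinarith
  have hQn : (Q : ℝ) ^ S.card ≤ K2 * t := hcard S fun p hp => (hSp p hp).one_le
  have hprod : (B : ℝ) * (Q : ℝ) ^ S.card ≤ (41 * E * (1 / θ + 3) * K2) * t ^ 3 := by
    calc (B : ℝ) * (Q : ℝ) ^ S.card ≤ (41 * (t * E) * (t * (1 / θ + 3))) * (K2 * t) :=
          mul_le_mul hBle hQn (by positivity) (by positivity)
      _ = _ := by ring
  have hfin : 10 ^ 7 / δ * ((B : ℝ) * (Q : ℝ) ^ S.card) ^ 2 * L ≤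
      10 ^ 7 / δ * (41 * E * (1 / θ + 3) * K2) ^ 2 * (1 + 20000 / δ) * t ^ 7 := by
    calc 10 ^ 7 / δ * ((B : ℝ) * (Q : ℝ) ^ S.card) ^ 2 * L
        ≤ 10 ^ 7 / δ * ((41 * E * (1 / θ + 3) * K2) * t ^ 3) ^ 2 * (t * (1 + 20000 / δ)) := by
          gcongr
      _ = _ := by ring
  rw [ht7]
  have h8 : 0 ≤ 1 / δ0 * t ^ 7 := by positivity
  calc Real.log c ≤ Real.log c + Real.log b := by linarith
    _ ≤ _ := key
    _ ≤ _ := hfin
    _ ≤ (10 ^ 7 / δ * (41 * E * (1 / θ + 3) * K2) ^ 2 * (1 + 20000 / δ) + 1 / δ0) * t ^ 7 := by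
        rw [add_mul]
        linarith

/-- The hypothesis `HInf` holds. -/
theorem hInf : HInf := by
  intro d η hd hη
  obtain ⟨K, hK, h⟩ := hInf_log d η hd hη
  refine ⟨K, hK, ?_⟩
  intro Z1 Z2 h2 h21 hcop hclose
  have hZ1 : (0 : ℝ) < Z1 := by
    have : 0 < Z1 := by omega
    exact_mod_cast this
  have h12 : (Z2 : ℝ) < Z1 := by exact_mod_cast h21
  have h3 := h Z2 Z1 h2 h21 hcop.symm (by
    have h4 := Real.log_le_log (by linarith) hclose
    rwa [Real.log_rpow hZ1] at h4)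
  rwa [mul_comm Z2 Z1] at h3

end Pool.Agent.Lib.AbcO
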