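import Mathlib
import Pool.Agent.Lib.AbcO.HInf

/-!
# The archimedean hypothesis of `Struct` holds
-/

namespace Pool.Agent.Lib.AbcO

theorem hInf_holds : HInf := hInf

end Pool.Agent.Lib.AbcO
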