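import Mathlib
import Pool.Agent.Lib.AbcO.One
import Pool.Agent.Lib.AbcO.EdgeConc

/-!
# Triples carried by four primes

`S` is a set of at most four primes that carry almost all of the mass of the members of the triple
`t`. Either each member has exactly one heavy prime (vertex type, three heavy primes) or one member
has two heavy primes and the others one each (edge type).
-/

namespace Pool.Agent.Lib.AbcO

open Finset Pool.Agent.Lib.Pabc2 Pool.Agent.Lib.AbcH

/-- the mass of `p` in the member `l` -/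
noncomputable def ms (t : ℕ × ℕ) (l : Fin 3) (p : ℕ) : ℝ :=
  ((comp t l).factorization p : ℝ) * Real.log p

theorem ms_nonneg (t : ℕ × ℕ) (l : Fin 3) (p : ℕ) : 0 ≤ ms t l p :=
  mul_nonneg (Nat.cast_nonneg _) (Real.log_natCast_nonneg _)

theorem dvd_of_ms_pos {t : ℕ × ℕ} {l : Fin 3} {p : ℕ} (h : 0 < ms t l p) : p ∣ comp t l := by
  by_contra hcon
  unfold ms at h
  rw [Nat.factorization_eq_zero_of_not_dvd hcon] at h
  simp at h

theorem comp_zero (t : ℕ × ℕ) : comp t 0 = t.1 := by simp [comp]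

theorem comp_one (t : ℕ × ℕ) : comp t 1 = t.2 := by simp [comp]

theorem comp_two (t : ℕ × ℕ) : comp t 2 = t.1 + t.2 := by
  have f1 : (2 : Fin 3) ≠ 0 := by decide
  have f2 : (2 : Fin 3) ≠ 1 := by decide
  simp [comp, f1, f2]

/-- the members determine the triple -/
theorem eq_of_members {t t' : ℕ × ℕ} (hT : IsT t) (hT' : IsT t')
    (h : ∀ l, ∃ l', comp t l = comp t' l') (h' : ∀ l, ∃ l', comp t' l = comp t l') : t = t' := by
  have hmin : ∀ {s : ℕ × ℕ}, IsT s → ∀ l, s.1 ≤ comp s l := by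
    intro s hs l
    have h1 := hs.2.1
    have hl : l = 0 ∨ l = 1 ∨ l = 2 := by omega
    rcases hl with rfl | rfl | rfl
    · rw [comp_zero]
    · rw [comp_one]; exact h1
    · rw [comp_two]; omega
  have hmax : ∀ {s : ℕ × ℕ}, IsT s → ∀ l, comp s l ≤ s.1 + s.2 := by
    intro s hs l
    have hl : l = 0 ∨ l = 1 ∨ l = 2 := by omega
    rcases hl with rfl | rfl | rfl
    · rw [comp_zero]; omega
    · rw [comp_one]; omega
    · rw [comp_two]
  obtain ⟨l0, e0⟩ := h 0
  obtain ⟨l2, e2⟩ := h 2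
  obtain ⟨l0', e0'⟩ := h' 0
  obtain ⟨l2', e2'⟩ := h' 2
  rw [comp_zero] at e0 e0'
  rw [comp_two] at e2 e2'
  have a1 := hmin hT' l0
  have a2 := hmin hT l0'
  have a3 := hmax hT' l2
  have a4 := hmax hT l2'
  exact Prod.ext (by omega) (by omega)

/-- three different indices are all indices -/
theorem all_of_ne {l0 l1 l2 : Fin 3} (h01 : l0 ≠ l1) (h02 : l0 ≠ l2) (h12 : l1 ≠ l2) (l : Fin 3) :
    l = l0 ∨ l = l1 ∨ l = l2 := by
  omega

/-- almost all of the mass of the members is on `S` -/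
structure Mass (δ : ℝ) (S : Finset ℕ) (t : ℕ × ℕ) : Prop where
  isT : IsT t
  prime : ∀ p ∈ S, p.Prime
  up : ∀ l, Real.log (comp t l) ≤ ht t
  low : ∀ l, (1 - δ) * ht t ≤ ∑ p ∈ S, ms t l p

/-- the heavy primes of the member `l` -/
noncomputable def heavy (S : Finset ℕ) (d : ℝ) (t : ℕ × ℕ) (l : Fin 3) : Finset ℕ := by
  classical exact S.filter fun p => d * ht t ≤ ms t l p

theorem mem_heavy {S : Finset ℕ} {d : ℝ} {t : ℕ × ℕ} {l : Fin 3} {p : ℕ} :
    p ∈ heavy S d t l ↔ p ∈ S ∧ d * ht t ≤ ms t l p := by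
  classical
  unfold heavy
  rw [mem_filter]

theorem heavy_subset {S : Finset ℕ} {d : ℝ} {t : ℕ × ℕ} {l : Fin 3} : heavy S d t l ⊆ S :=
  fun _ h => (mem_heavy.1 h).1

section

variable {δ d : ℝ} {S : Finset ℕ} {t t' : ℕ × ℕ}

theorem Mass.dvd (H : Mass δ S t) (hd : 0 < d) {l : Fin 3} {p : ℕ} (h : p ∈ heavy S d t l) :
    p ∣ comp t l :=
  dvd_of_ms_pos (lt_of_lt_of_le (mul_pos hd (ht_pos H.isT)) (mem_heavy.1 h).2)

/-- a prime of `S` divides at most one member -/
theorem Mass.unique (H : Mass δ S t) {l l' : Fin 3} {p : ℕ} (hp : p ∈ S) (h : p ∣ comp t l)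
    (h' : p ∣ comp t l') : l = l' := by
  by_contra hne
  exact Nat.not_coprime_of_dvd_of_dvd (H.prime p hp).one_lt h h' (comp_cop H.isT hne)

theorem Mass.ms_zero (H : Mass δ S t) (hd : 0 < d) {l l' : Fin 3} (hl : l ≠ l') {p : ℕ}
    (h : p ∈ heavy S d t l') : ms t l p = 0 := by
  by_contra hne
  have h1 : 0 < ms t l p := lt_of_le_of_ne (ms_nonneg t l p) (Ne.symm hne)
  exact hl (H.unique (heavy_subset h) (dvd_of_ms_pos h1) (H.dvd hd h))

theorem Mass.disj (H : Mass δ S t) (hd : 0 < d) {l l' : Fin 3} (hl : l ≠ l') :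
    Disjoint (heavy S d t l) (heavy S d t l') := by
  rw [disjoint_left]
  intro p h h'
  exact hl (H.unique (heavy_subset h) (H.dvd hd h) (H.dvd hd h'))

/-- the number of heavy primes -/
theorem Mass.card_sum (H : Mass δ S t) (hd : 0 < d) :
    (heavy S d t 0).card + (heavy S d t 1).card + (heavy S d t 2).card ≤ S.card := by
  rw [← card_union_of_disjoint (H.disj hd (by decide)), ← card_union_of_disjoint]
  · exact card_le_card (union_subset (union_subset heavy_subset heavy_subset) heavy_subset)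
  · rw [disjoint_union_left]
    exact ⟨H.disj hd (by decide), H.disj hd (by decide)⟩

/-- each member has a heavy prime -/
theorem Mass.card_pos (H : Mass δ S t) (hd : 0 < d) (hS : S.card ≤ 4) (hδ : 4 * d < 1 - δ)
    (l : Fin 3) : 0 < (heavy S d t l).card := by
  rw [Finset.card_pos]
  by_contra hcon
  rw [not_nonempty_iff_eq_empty] at hcon
  have hh := ht_pos H.isT
  have h1 : ∑ p ∈ S, ms t l p ≤ ∑ _p ∈ S, d * ht t := by
    refine sum_le_sum fun p hp => ?_
    by_contra h2
    push Not at h2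
    have : p ∈ heavy S d t l := mem_heavy.2 ⟨hp, h2.le⟩
    rw [hcon] at this
    exact notMem_empty _ this
  rw [sum_const, nsmul_eq_mul] at h1
  have h2 := H.low l
  have h3 : (S.card : ℝ) * (d * ht t) ≤ 4 * (d * ht t) := by
    apply mul_le_mul_of_nonneg_right _ (by positivity)
    exact_mod_cast hS
  have h4 : 4 * d * ht t < (1 - δ) * ht t := mul_lt_mul_of_pos_right hδ hh
  linarith

/-- the members are different -/
theorem Mass.ne (H : Mass δ S t) (hd : 0 < d) (hS : S.card ≤ 4) (hδ : 4 * d < 1 - δ)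
    {l l' : Fin 3} (hl : l ≠ l') : comp t l ≠ comp t l' := by
  intro he
  obtain ⟨p, hp⟩ := Finset.card_pos.1 (H.card_pos hd hS hδ l)
  have h1 := H.dvd hd hp
  exact hl (H.unique (heavy_subset hp) h1 (he ▸ h1))

/-- the vertex type -/
theorem Mass.conc (H : Mass δ S t) (hd : 0 < d) (hS : S.card ≤ 4) (hδ : 4 * d < 1 - δ)
    (h1 : ∀ l, (heavy S d t l).card = 1) {P : Fin 3 → ℕ} (σ : Equiv.Perm (Fin 3))
    (hP : ∀ i, P i ∈ heavy S d t (σ i)) :
    Conc (δ + d) (ht t) P (fun i => comp t (σ i)) := by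
  classical
  have hσ : ∀ i j : Fin 3, i ≠ j → σ i ≠ σ j := fun i j h h' => h (σ.injective h')
  have hPS : ∀ i, P i ∈ S := fun i => heavy_subset (hP i)
  have hPinj : Function.Injective P := by
    intro i j hij
    by_contra hne
    have := hP j
    rw [← hij] at this
    exact hσ i j hne (H.unique (hPS i) (H.dvd hd (hP i)) (H.dvd hd this))
  refine ⟨fun i => comp_pos H.isT _, fun i => H.prime _ (hPS i),
    fun i j h => comp_cop H.isT (hσ i j h), fun i j h => H.ne hd hS hδ (hσ i j h),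
    fun i j k a b c => comp_dvd_sq (hσ _ _ a) (hσ _ _ b) (hσ _ _ c), fun i => H.up _, ?_⟩
  intro i
  have h2 := H.low (σ i)
  set T : Finset ℕ := Finset.univ.image P with hT
  have hTS : T ⊆ S := by
    intro p hp
    obtain ⟨j, -, rfl⟩ := mem_image.1 hp
    exact hPS j
  have hTc : T.card = 3 := by
    rw [hT, card_image_of_injective _ hPinj]
    simp
  have h3 : ∑ p ∈ S, ms t (σ i) p = ∑ p ∈ S \ T, ms t (σ i) p + ∑ p ∈ T, ms t (σ i) p :=
    (sum_sdiff hTS).symm
  have h4 : ∑ p ∈ T, ms t (σ i) p = ms t (σ i) (P i) := by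
    rw [hT, sum_image (fun a _ b _ h => hPinj h)]
    apply sum_eq_single i
    · intro j _ hji
      exact H.ms_zero hd (hσ i j hji.symm) (hP j)
    · intro h
      exact absurd (mem_univ i) h
  have h5 : ∑ p ∈ S \ T, ms t (σ i) p ≤ d * ht t := by
    have h6 : ∑ p ∈ S \ T, ms t (σ i) p ≤ ∑ _p ∈ S \ T, d * ht t := by
      refine sum_le_sum fun p hp => ?_
      obtain ⟨hp1, hp2⟩ := mem_sdiff.1 hp
      by_contra h7
      push Not at h7
      have h8 : p ∈ heavy S d t (σ i) := mem_heavy.2 ⟨hp1, h7.le⟩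
      have h9 : p = P i := card_le_one.1 (h1 (σ i)).le _ h8 _ (hP i)
      exact hp2 (h9 ▸ mem_image_of_mem P (mem_univ i))
    rw [sum_const, nsmul_eq_mul] at h6
    have h7 : (S \ T).card ≤ 1 := by
      rw [card_sdiff_of_subset hTS, hTc]
      omega
    have h8 : ((S \ T).card : ℝ) * (d * ht t) ≤ 1 * (d * ht t) := by
      apply mul_le_mul_of_nonneg_right _ (mul_pos hd (ht_pos H.isT)).le
      exact_mod_cast h7
    linarith
  rw [h3, h4] at h2
  show (1 - (δ + d)) * ht t ≤ ms t (σ i) (P i)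
  have h6 : (1 - (δ + d)) * ht t = (1 - δ) * ht t - d * ht t := by ring
  rw [h6]
  linarith

/-- the sum relation -/
theorem sum_rel {l0 l1 l2 : Fin 3} (h01 : l0 ≠ l1) (h02 : l0 ≠ l2) (h12 : l1 ≠ l2) (t : ℕ × ℕ) :
    comp t l0 + comp t l1 = comp t l2 ∨ comp t l1 + comp t l2 = comp t l0 ∨
      comp t l0 + comp t l2 = comp t l1 := by
  have e0 : l0 = 0 ∨ l0 = 1 ∨ l0 = 2 := by omega
  have e1 : l1 = 0 ∨ l1 = 1 ∨ l1 = 2 := by omega
  have e2 : l2 = 0 ∨ l2 = 1 ∨ l2 = 2 := by omega
  rcases e0 with rfl | rfl | rfl <;> rcases e1 with rfl | rfl | rfl <;>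
    rcases e2 with rfl | rfl | rfl <;> first
      | exact absurd rfl h01
      | exact absurd rfl h02
      | exact absurd rfl h12
      | (rw [comp_zero, comp_one, comp_two]; omega)

/-- the edge type -/
theorem Mass.edge (H : Mass δ S t) (hd : 0 < d) (hS : S.card ≤ 4)
    {l0 l1 l2 : Fin 3} (h01 : l0 ≠ l1) (h02 : l0 ≠ l2) (h12 : l1 ≠ l2) {P : Fin 4 → ℕ}
    (hP01 : P 0 ≠ P 1) (hP0 : P 0 ∈ heavy S d t l0) (hP1 : P 1 ∈ heavy S d t l0)
    (hP2 : P 2 ∈ heavy S d t l1) (hP3 : P 3 ∈ heavy S d t l2) :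
    EConc δ d (ht t) P (comp t l0) (comp t l1) (comp t l2) := by
  classical
  have hne : ∀ {p p' : ℕ} {l l' : Fin 3}, l ≠ l' → p ∈ heavy S d t l → p' ∈ heavy S d t l' →
      p ≠ p' := by
    intro p p' l l' hl hp hp' he
    subst he
    exact hl (H.unique (heavy_subset hp) (H.dvd hd hp) (H.dvd hd hp'))
  have n02 : P 0 ≠ P 2 := hne h01 hP0 hP2
  have n03 : P 0 ≠ P 3 := hne h02 hP0 hP3
  have n12 : P 1 ≠ P 2 := hne h01 hP1 hP2
  have n13 : P 1 ≠ P 3 := hne h02 hP1 hP3
  have n23 : P 2 ≠ P 3 := hne h12 hP2 hP3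
  have hinj : Function.Injective P := by
    intro i j hij
    have e1 : i = 0 ∨ i = 1 ∨ i = 2 ∨ i = 3 := by omega
    have e2 : j = 0 ∨ j = 1 ∨ j = 2 ∨ j = 3 := by omega
    rcases e1 with rfl | rfl | rfl | rfl <;> rcases e2 with rfl | rfl | rfl | rfl <;> first
      | rfl
      | exact absurd hij hP01 | exact absurd hij n02 | exact absurd hij n03
      | exact absurd hij n12 | exact absurd hij n13 | exact absurd hij n23
      | exact absurd hij.symm hP01 | exact absurd hij.symm n02 | exact absurd hij.symm n03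
      | exact absurd hij.symm n12 | exact absurd hij.symm n13 | exact absurd hij.symm n23
  have hPS : ∀ i, P i ∈ S := by
    intro i
    have e1 : i = 0 ∨ i = 1 ∨ i = 2 ∨ i = 3 := by omega
    rcases e1 with rfl | rfl | rfl | rfl
    · exact heavy_subset hP0
    · exact heavy_subset hP1
    · exact heavy_subset hP2
    · exact heavy_subset hP3
  have hST : S = Finset.univ.image P := by
    symm
    apply eq_of_subset_of_card_le
    · intro p hp
      obtain ⟨j, -, rfl⟩ := mem_image.1 hp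
      exact hPS j
    · rw [card_image_of_injective _ hinj]
      simpa using hS
  have hsum : ∀ l, ∑ p ∈ S, ms t l p = ms t l (P 0) + ms t l (P 1) + ms t l (P 2) +
      ms t l (P 3) := by
    intro l
    rw [hST, sum_image (fun a _ b _ h => hinj h), Fin.sum_univ_four]
  have z1 : ms t l0 (P 2) = 0 := H.ms_zero hd h01 hP2
  have z2 : ms t l0 (P 3) = 0 := H.ms_zero hd h02 hP3
  have z3 : ms t l1 (P 0) = 0 := H.ms_zero hd h01.symm hP0
  have z4 : ms t l1 (P 1) = 0 := H.ms_zero hd h01.symm hP1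
  have z5 : ms t l1 (P 3) = 0 := H.ms_zero hd h12 hP3
  have z6 : ms t l2 (P 0) = 0 := H.ms_zero hd h02.symm hP0
  have z7 : ms t l2 (P 1) = 0 := H.ms_zero hd h02.symm hP1
  have z8 : ms t l2 (P 2) = 0 := H.ms_zero hd h12.symm hP2
  refine ⟨fun i => H.prime _ (hPS i), hinj, comp_pos H.isT _, comp_pos H.isT _,
    comp_pos H.isT _, comp_cop H.isT h01, comp_cop H.isT h02, comp_cop H.isT h12,
    sum_rel h01 h02 h12 t, H.up _, H.up _, H.up _, (mem_heavy.1 hP0).2, (mem_heavy.1 hP1).2,
    ?_, ?_, ?_⟩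
  · have h1 := H.low l0
    rw [hsum, z1, z2, add_zero, add_zero] at h1
    exact h1
  · have h1 := H.low l1
    rw [hsum, z3, z4, z5, zero_add, zero_add, add_zero] at h1
    exact h1
  · have h1 := H.low l2
    rw [hsum, z6, z7, z8, zero_add, zero_add, zero_add] at h1
    exact h1

/-- the type of a triple: the pair of heavy primes of one member, or the set of all heavy primes -/
noncomputable def typ (S : Finset ℕ) (d : ℝ) (t : ℕ × ℕ) : Finset ℕ := by
  classical exact
    if h : ∃ l, 2 ≤ (heavy S d t l).card then heavy S d t h.choose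
    else heavy S d t 0 ∪ heavy S d t 1 ∪ heavy S d t 2

/-- the two kinds of types -/
theorem Mass.cases (H : Mass δ S t) (hd : 0 < d) (hS : S.card ≤ 4) (hδ : 4 * d < 1 - δ) :
    (∃ l0 l1 l2 : Fin 3, l0 ≠ l1 ∧ l0 ≠ l2 ∧ l1 ≠ l2 ∧ typ S d t = heavy S d t l0 ∧
        (heavy S d t l0).card = 2 ∧ (heavy S d t l1).card = 1 ∧ (heavy S d t l2).card = 1 ∧
        S = heavy S d t l0 ∪ heavy S d t l1 ∪ heavy S d t l2) ∨
      ((∀ l, (heavy S d t l).card = 1) ∧
        typ S d t = heavy S d t 0 ∪ heavy S d t 1 ∪ heavy S d t 2 ∧ (typ S d t).card = 3) := by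
  classical
  have c0 := H.card_pos hd hS hδ 0
  have c1 := H.card_pos hd hS hδ 1
  have c2 := H.card_pos hd hS hδ 2
  have cs := H.card_sum hd
  by_cases h : ∃ l, 2 ≤ (heavy S d t l).card
  · left
    have ht : typ S d t = heavy S d t h.choose := by
      unfold typ
      rw [dif_pos h]
    have hl := h.choose_spec
    set l0 := h.choose with hl0
    obtain ⟨l1, l2, h01, h02, h12⟩ : ∃ l1 l2 : Fin 3, l0 ≠ l1 ∧ l0 ≠ l2 ∧ l1 ≠ l2 := by
      have e : l0 = 0 ∨ l0 = 1 ∨ l0 = 2 := by omega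
      rcases e with e | e | e <;> rw [e]
      · exact ⟨1, 2, by decide, by decide, by decide⟩
      · exact ⟨0, 2, by decide, by decide, by decide⟩
      · exact ⟨0, 1, by decide, by decide, by decide⟩
    have p1 := H.card_pos hd hS hδ l1
    have p2 := H.card_pos hd hS hδ l2
    have hu : (heavy S d t l0 ∪ heavy S d t l1 ∪ heavy S d t l2).card =
        (heavy S d t l0).card + (heavy S d t l1).card + (heavy S d t l2).card := by
      rw [card_union_of_disjoint, card_union_of_disjoint (H.disj hd h01)]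
      rw [disjoint_union_left]
      exact ⟨H.disj hd h02, H.disj hd h12⟩
    have hsub : heavy S d t l0 ∪ heavy S d t l1 ∪ heavy S d t l2 ⊆ S :=
      union_subset (union_subset heavy_subset heavy_subset) heavy_subset
    have hle := card_le_card hsub
    refine ⟨l0, l1, l2, h01, h02, h12, ht, by omega, by omega, by omega, ?_⟩
    symm
    apply eq_of_subset_of_card_le hsub
    omega
  · right
    have h' := h
    push Not at h'
    have hall : ∀ l, (heavy S d t l).card = 1 := by
      intro l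
      have a1 := h' l
      have a2 := H.card_pos hd hS hδ l
      omega
    have htyp : typ S d t = heavy S d t 0 ∪ heavy S d t 1 ∪ heavy S d t 2 := by
      unfold typ
      rw [dif_neg h]
    refine ⟨hall, htyp, ?_⟩
    rw [htyp, card_union_of_disjoint, card_union_of_disjoint (H.disj hd (by decide)), hall, hall,
      hall]
    rw [disjoint_union_left]
    exact ⟨H.disj hd (by decide), H.disj hd (by decide)⟩

theorem Mass.typ_mem (H : Mass δ S t) (hd : 0 < d) (hS : S.card ≤ 4) (hδ : 4 * d < 1 - δ) :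
    typ S d t ∈ S.powersetCard 2 ∪ S.powersetCard 3 := by
  rw [mem_union, mem_powersetCard, mem_powersetCard]
  rcases H.cases hd hS hδ with ⟨l0, l1, l2, -, -, -, h1, h2, -⟩ | ⟨-, h1, h2⟩
  · left
    rw [h1]
    exact ⟨heavy_subset, h2⟩
  · right
    refine ⟨?_, h2⟩
    rw [h1]
    exact union_subset (union_subset heavy_subset heavy_subset) heavy_subset

end

theorem card_types {S : Finset ℕ} (hS : S.card ≤ 4) :
    (S.powersetCard 2 ∪ S.powersetCard 3).card ≤ 10 := by
  refine (card_union_le _ _).trans ?_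
  rw [card_powersetCard, card_powersetCard]
  have h : S.card = 0 ∨ S.card = 1 ∨ S.card = 2 ∨ S.card = 3 ∨ S.card = 4 := by omega
  rcases h with h | h | h | h | h <;> rw [h] <;> decide

/-- The statement of the uniqueness of the edge type. -/
def EdgePair : Prop := ∃ δ0 H0 : ℝ, 0 < δ0 ∧
  ∀ (δ h1 h2 : ℝ) (P : Fin 4 → ℕ) (x y w x' y' w' : ℕ), 0 ≤ δ → δ ≤ δ0 → H0 ≤ h1 → H0 ≤ h2 →
    EConc δ (1 / 10 ^ 9) h1 P x y w → EConc δ (1 / 10 ^ 9) h2 P x' y' w' →
      x = x' ∧ y = y' ∧ w = w'

/-- **Two triples of the same type are equal.** -/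
theorem eq_of_typ (hEP : EdgePair) : ∃ d δ0 H0 : ℝ, 0 < d ∧ d ≤ 1 / 100 ∧ 0 < δ0 ∧ δ0 ≤ 1 / 10 ∧
    ∀ (δ : ℝ) (S : Finset ℕ) (t t' : ℕ × ℕ), 0 ≤ δ → δ ≤ δ0 → S.card ≤ 4 → Mass δ S t →
      Mass δ S t' → H0 ≤ ht t → H0 ≤ ht t' → typ S d t = typ S d t' → t = t' := by
  classical
  set d : ℝ := 1 / 10 ^ 9 with hdd
  have hd : 0 < d := by rw [hdd]; norm_num
  obtain ⟨δ0, H0, hδ0, hE⟩ := hEP
  refine ⟨d, min δ0 (1 / 200000000), max H0 10000, hd, by rw [hdd]; norm_num,
    lt_min hδ0 (by norm_num), (min_le_right _ _).trans (by norm_num), ?_⟩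
  intro δ S t t' h0 h1 hS H H' hh hh' htyp
  have hδ1 : δ ≤ δ0 := h1.trans (min_le_left _ _)
  have hδ2 : δ ≤ 1 / 200000000 := h1.trans (min_le_right _ _)
  have h4 : 4 * d < 1 - δ := by
    rw [hdd]
    norm_num
    linarith
  rcases H.cases hd hS h4 with ⟨l0, l1, l2, h01, h02, h12, ty, c0, c1, c2, hSe⟩ | ⟨hall, ty, tc⟩
  · rcases H'.cases hd hS h4 with
      ⟨l0', l1', l2', h01', h02', h12', ty', c0', c1', c2', hSe'⟩ | ⟨-, -, tc'⟩
    · -- both of edge type
      obtain ⟨p, p', hpp, hQ⟩ := card_eq_two.1 c0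
      obtain ⟨k1, hk1⟩ := card_eq_one.1 c1
      obtain ⟨k2, hk2⟩ := card_eq_one.1 c2
      have hQ' : heavy S d t' l0' = {p, p'} := by rw [← ty', ← htyp, ty, hQ]
      have hk1m : k1 ∈ heavy S d t l1 := by rw [hk1]; exact mem_singleton_self _
      have hk2m : k2 ∈ heavy S d t l2 := by rw [hk2]; exact mem_singleton_self _
      have hk12 : k1 ≠ k2 := by
        intro he
        rw [← he] at hk2m
        exact h12 (H.unique (heavy_subset hk1m) (H.dvd hd hk1m) (H.dvd hd hk2m))
      have hk1Q : k1 ∉ heavy S d t' l0' := by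
        rw [hQ', ← hQ]
        intro hc
        exact h01 (H.unique (heavy_subset hc) (H.dvd hd hc) (H.dvd hd hk1m))
      have hk2Q : k2 ∉ heavy S d t' l0' := by
        rw [hQ', ← hQ]
        intro hc
        exact h02 (H.unique (heavy_subset hc) (H.dvd hd hc) (H.dvd hd hk2m))
      -- the members of `t'` with `k1`, `k2`
      have hmem : ∀ k ∈ S, k ∉ heavy S d t' l0' →
          k ∈ heavy S d t' l1' ∨ k ∈ heavy S d t' l2' := by
        intro k hk hkQ
        rw [hSe', mem_union, mem_union] at hk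
        tauto
      have hEt : EConc δ d (ht t) ![p, p', k1, k2] (comp t l0) (comp t l1) (comp t l2) := by
        refine H.edge hd hS h01 h02 h12 hpp ?_ ?_ hk1m hk2m
        · show p ∈ _
          rw [hQ]
          simp
        · show p' ∈ _
          rw [hQ]
          simp
      have hp' : p ∈ heavy S d t' l0' := by rw [hQ']; simp
      have hp'' : p' ∈ heavy S d t' l0' := by rw [hQ']; simp
      have hfin : ∀ a b : Fin 3, l0' ≠ a → l0' ≠ b → a ≠ b → k1 ∈ heavy S d t' a →
          k2 ∈ heavy S d t' b → t = t' := by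
        intro a b ha hb hab hka hkb
        have hEt' : EConc δ d (ht t') ![p, p', k1, k2] (comp t' l0') (comp t' a) (comp t' b) :=
          H'.edge hd hS ha hb hab hpp hp' hp'' hka hkb
        obtain ⟨ex, ey, ew⟩ := hE δ (ht t) (ht t') _ _ _ _ _ _ _ h0 hδ1
          ((le_max_left _ _).trans hh) ((le_max_left _ _).trans hh') hEt hEt'
        refine eq_of_members H.isT H'.isT ?_ ?_
        · intro l
          rcases all_of_ne h01 h02 h12 l with rfl | rfl | rfl
          · exact ⟨l0', ex⟩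
          · exact ⟨a, ey⟩
          · exact ⟨b, ew⟩
        · intro l
          rcases all_of_ne ha hb hab l with rfl | rfl | rfl
          · exact ⟨l0, ex.symm⟩
          · exact ⟨l1, ey.symm⟩
          · exact ⟨l2, ew.symm⟩
      rcases hmem k1 (heavy_subset hk1m) hk1Q with a1 | a1 <;>
        rcases hmem k2 (heavy_subset hk2m) hk2Q with a2 | a2
      · exact absurd (card_le_one.1 c1'.le _ a1 _ a2) hk12
      · exact hfin l1' l2' h01' h02' h12' a1 a2
      · exact hfin l2' l1' h02' h01' h12'.symm a1 a2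
      · exact absurd (card_le_one.1 c2'.le _ a1 _ a2) hk12
    · exfalso
      rw [← htyp, ty, c0] at tc'
      omega
  · rcases H'.cases hd hS h4 with ⟨l0', -, -, -, -, -, ty', c0', -⟩ | ⟨hall', ty', -⟩
    · exfalso
      rw [htyp, ty', c0'] at tc
      omega
    · -- both of vertex type
      have hex : ∀ l, ∃ p, p ∈ heavy S d t l := fun l =>
        Finset.card_pos.1 (by rw [hall l]; exact Nat.one_pos)
      choose P hP using hex
      have hC := H.conc hd hS h4 hall (P := P) (Equiv.refl _) hP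
      have hex' : ∀ i, ∃ l, P i ∈ heavy S d t' l := by
        intro i
        have h5 : P i ∈ typ S d t := by
          rw [ty, mem_union, mem_union]
          have e : i = 0 ∨ i = 1 ∨ i = 2 := by omega
          have := hP i
          rcases e with rfl | rfl | rfl
          · exact Or.inl (Or.inl this)
          · exact Or.inl (Or.inr this)
          · exact Or.inr this
        rw [htyp, ty', mem_union, mem_union] at h5
        rcases h5 with (h5 | h5) | h5
        · exact ⟨0, h5⟩
        · exact ⟨1, h5⟩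
        · exact ⟨2, h5⟩
      choose τ hτ using hex'
      have hτinj : Function.Injective τ := by
        intro i j hij
        have h5 := hτ j
        rw [← hij] at h5
        have h6 : P i = P j := card_le_one.1 (hall' (τ i)).le _ (hτ i) _ h5
        have h7 := hP j
        rw [← h6] at h7
        exact H.unique (heavy_subset (hP i)) (H.dvd hd (hP i)) (H.dvd hd h7)
      set σ' : Equiv.Perm (Fin 3) := Equiv.ofBijective τ (Finite.injective_iff_bijective.1 hτinj)
        with hσ'
      have hC' := H'.conc hd hS h4 hall' (P := P) σ' (fun i => hτ i)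
      have hδd : δ + d ≤ 1 / 100000000 := by
        rw [hdd]
        norm_num
        linarith
      have hb : 10000 ≤ ht t := (le_max_right _ _).trans hh
      have hb' : 10000 ≤ ht t' := (le_max_right _ _).trans hh'
      rcases le_total (ht t) (ht t') with h | h
      · exact eq_of_conc H.isT H'.isT _ _ (by linarith) hδd hC hC' hb h
      · exact (eq_of_conc H'.isT H.isT _ _ (by linarith) hδd hC' hC hb' h).symm

/-- **At most ten.** -/
theorem card_le_ten (hEP : EdgePair) : ∃ δ0 H0 : ℝ, 0 < δ0 ∧ δ0 ≤ 1 / 10 ∧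
    ∀ (δ : ℝ) (S : Finset ℕ) (F : Finset (ℕ × ℕ)), 0 ≤ δ → δ ≤ δ0 → S.card ≤ 4 →
      (∀ t ∈ F, Mass δ S t ∧ H0 ≤ ht t) → F.card ≤ 10 := by
  obtain ⟨d, δ0, H0, hd, hd1, hδ0, hδ1, h⟩ := eq_of_typ hEP
  refine ⟨δ0, H0, hδ0, hδ1, ?_⟩
  intro δ S F h0 h1 hS hF
  refine (card_le_card_of_injOn (typ S d) (t := S.powersetCard 2 ∪ S.powersetCard 3) ?_ ?_).trans
    (card_types hS)
  · intro t ht
    have := (hF t (mem_coe.1 ht)).1.typ_mem hd hS (by linarith)
    exact this
  · intro t ht t' ht' he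
    obtain ⟨a1, a2⟩ := hF t (mem_coe.1 ht)
    obtain ⟨b1, b2⟩ := hF t' (mem_coe.1 ht')
    exact h δ S t t' h0 h1 hS a1 b1 a2 b2 he

end Pool.Agent.Lib.AbcO
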