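import Mathlib
import Pool.Agent.Lib.AbcO.Types4
import Pool.Agent.Lib.AbcO.EdgePair
import Pool.Agent.Lib.AbcO.EdgeArith
import Pool.Agent.Lib.AbcO.Struct
import Pool.Agent.Lib.AbcH.Main3

/-!
# At most ten triples above the fifth largest prime
-/

namespace Pool.Agent.Lib.AbcO

open Finset Pool.Agent.Lib.Pabc2 Pool.Agent.Lib.AbcH

theorem edgePair : EdgePair := by
  obtain ⟨d0, H0, hd0, h⟩ := edge_pair (1 / 10 ^ 9) le_rfl (by norm_num)
  exact ⟨d0, H0, hd0, h⟩

/-- **Mass** of the very tall triples. -/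
theorem mass_of_tall {κ : ℕ} (hκ : κ ≤ 2) (hE : ThmE2 κ) (hI : HInf) (δ η : ℝ) (hδ : 0 < δ)
    (hδ1 : δ ≤ 1 / 10) (hη : 0 < η) :
    ∃ K : ℝ, 0 < K ∧ ∀ (r : ℕ) (S : Finset ℕ) (Pb : ℝ) (t : ℕ × ℕ), 0 < r → 1 ≤ Pb →
      (∀ p ∈ S, p.Prime) → (∀ p ∈ r.primeFactors, p ∉ S → (p : ℝ) ≤ Pb) →
      IsT t → (N t).primeFactors ⊆ r.primeFactors →
      K * (r : ℝ) ^ (3 * η) * Pb ^ κ < ht t → Mass δ S t := by
  classical
  obtain ⟨K1, hK1, hL⟩ := member_light hκ hE (δ / 4) η (by positivity) (by linarith) hη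
  obtain ⟨K2, hK2, hI⟩ := hI (δ / 4) η (by positivity) hη
  set H0 : ℝ := 1000 + 4 / δ with hH0
  have hH0' : 0 < 4 / δ := by positivity
  refine ⟨K1 + K2 + H0, by positivity, ?_⟩
  intro r S Pb t hr hPb hSp hPS' hT hsub hbig
  have hr1 : (1 : ℝ) ≤ r := by exact_mod_cast hr
  have hr0 : (0 : ℝ) < r := by linarith
  have e1 : (1 : ℝ) ≤ (r : ℝ) ^ (3 * η) := Real.one_le_rpow hr1 (by positivity)
  have e1' : (1 : ℝ) ≤ Pb ^ κ := one_le_pow₀ hPb
  have e2 : (1 : ℝ) ≤ (r : ℝ) ^ (3 * η) * Pb ^ κ := one_le_mul_of_one_le_of_one_le e1 e1'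
  have e3 : (K1 + K2 + H0) * (r : ℝ) ^ (3 * η) * Pb ^ κ =
      K1 * (r : ℝ) ^ (3 * η) * Pb ^ κ + K2 * ((r : ℝ) ^ (3 * η) * Pb ^ κ) +
        H0 * ((r : ℝ) ^ (3 * η) * Pb ^ κ) := by ring
  rw [e3] at hbig
  have p1 : 0 < K1 * (r : ℝ) ^ (3 * η) * Pb ^ κ := by positivity
  have p2 : 0 < K2 * ((r : ℝ) ^ (3 * η) * Pb ^ κ) := by positivity
  have p3 : H0 ≤ H0 * ((r : ℝ) ^ (3 * η) * Pb ^ κ) := le_mul_of_one_le_right (by positivity) e2
  have hb : H0 < ht t := by linarith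
  have hb1 : 1000 ≤ ht t := by linarith
  have hh : 0 < ht t := by linarith
  have hδh : 4 ≤ δ * ht t := by
    have : 4 / δ ≤ ht t := by linarith
    rw [div_le_iff₀ hδ] at this
    linarith
  -- small mass outside `S`
  have hout : ∀ l, ∑ p ∈ (N t).primeFactors \ S, ((comp t l).factorization p : ℝ) * Real.log p ≤
      δ / 4 * ht t := by
    intro l
    by_contra hcon
    push Not at hcon
    have := hL r S Pb t l hr hPb hT hsub hPS' hb1 hcon
    linarith
  obtain ⟨ha, hab, hcop⟩ := id hT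
  have hbp : 0 < t.2 := hT.pos2
  have ha0 : (0 : ℝ) < t.1 := by exact_mod_cast ha
  have hb0 : (0 : ℝ) < t.2 := by exact_mod_cast hbp
  have hht : ht t = Real.log ((t.1 : ℝ) + t.2) := rfl
  -- the members are large
  have hlb : ht t - 1 ≤ Real.log t.2 := by
    have h1 : ht t ≤ Real.log 2 + Real.log t.2 := by
      rw [hht, ← Real.log_mul (by norm_num) hb0.ne']
      apply Real.log_le_log (by positivity)
      have : (t.1 : ℝ) ≤ t.2 := by exact_mod_cast hab
      linarith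
    have := Real.log_two_lt_d9
    linarith
  have hla : (1 - δ / 4) * ht t ≤ Real.log t.1 := by
    by_contra hcon
    push Not at hcon
    have h1 := hI (t.1 + t.2) t.2 hbp (by omega) (by
      rw [Nat.coprime_add_self_left]
      exact hcop) (by
      push_cast
      rw [add_sub_cancel_right]
      rw [hht] at hcon
      rw [Real.rpow_def_of_pos (by positivity)]
      calc (t.1 : ℝ) = Real.exp (Real.log t.1) := (Real.exp_log ha0).symm
        _ ≤ _ := Real.exp_le_exp.2 (by linarith))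
    have h3 : ∏ p ∈ ((t.1 + t.2) * t.2).primeFactors, (p : ℝ) ≤ r := by
      apply prod_primeFactors_le hr
      refine (Nat.primeFactors_mono (n := N t) ?_ hT.N_ne).trans hsub
      exact ⟨t.1, by unfold N; ring⟩
    have h4 : (∏ p ∈ ((t.1 + t.2) * t.2).primeFactors, (p : ℝ)) ^ η ≤ (r : ℝ) ^ η :=
      Real.rpow_le_rpow (Finset.prod_nonneg fun p _ => Nat.cast_nonneg p) h3 hη.le
    have h5 : (r : ℝ) ^ η ≤ (r : ℝ) ^ (3 * η) * Pb ^ κ := by
      calc (r : ℝ) ^ η ≤ (r : ℝ) ^ (3 * η) :=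
            Real.rpow_le_rpow_of_exponent_le hr1 (by linarith)
        _ ≤ _ := le_mul_of_one_le_right (by positivity) e1'
    have h6 : ht t ≤ K2 * ((r : ℝ) ^ (3 * η) * Pb ^ κ) := by
      rw [hht]
      push_cast at h1
      refine h1.trans ?_
      exact mul_le_mul_of_nonneg_left (h4.trans h5) hK2.le
    linarith
  have hlog_le : ∀ l, Real.log (comp t l) ≤ ht t := by
    intro l
    rw [hht]
    have hl : l = 0 ∨ l = 1 ∨ l = 2 := by omega
    rcases hl with rfl | rfl | rfl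
    · simp only [comp, if_true]
      exact Real.log_le_log ha0 (by linarith)
    · simp only [comp, one_ne_zero, if_false, if_true]
      exact Real.log_le_log hb0 (by linarith)
    · have f1 : (2 : Fin 3) ≠ 0 := by decide
      have f2 : (2 : Fin 3) ≠ 1 := by decide
      simp only [comp, f1, f2, if_false]
      push_cast
      exact le_refl _
  have hlarge : ∀ l, (1 - δ / 4) * ht t - 1 ≤ Real.log (comp t l) := by
    intro l
    have f0 : (1 - δ / 4) * ht t ≤ ht t := by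
      have : 0 ≤ δ / 4 * ht t := by positivity
      linarith
    have hl : l = 0 ∨ l = 1 ∨ l = 2 := by omega
    rcases hl with rfl | rfl | rfl
    · simp only [comp, if_true]
      linarith
    · simp only [comp, one_ne_zero, if_false, if_true]
      linarith
    · have f1 : (2 : Fin 3) ≠ 0 := by decide
      have f2 : (2 : Fin 3) ≠ 1 := by decide
      simp only [comp, f1, f2, if_false]
      push_cast
      rw [← hht]
      linarith
  -- mass on `S`
  have hcomppf : ∀ l, (comp t l).primeFactors ⊆ (N t).primeFactors := by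
    intro l
    apply Nat.primeFactors_mono _ hT.N_ne
    have hl : l = 0 ∨ l = 1 ∨ l = 2 := by omega
    unfold N
    rcases hl with rfl | rfl | rfl
    · simp only [comp, if_true]
      exact ⟨t.2 * (t.1 + t.2), by ring⟩
    · simp only [comp, one_ne_zero, if_false, if_true]
      exact ⟨t.1 * (t.1 + t.2), by ring⟩
    · have f1 : (2 : Fin 3) ≠ 0 := by decide
      have f2 : (2 : Fin 3) ≠ 1 := by decide
      simp only [comp, f1, f2, if_false]
      exact Dvd.intro_left _ rfl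
  refine ⟨hT, hSp, hlog_le, ?_⟩
  intro l
  have hm0 : comp t l ≠ 0 := (comp_pos hT l).ne'
  have h1 : Real.log (comp t l) =
      ∑ p ∈ (N t).primeFactors ∪ S, ((comp t l).factorization p : ℝ) * Real.log p := by
    have h2 : (comp t l : ℝ) = ∏ p ∈ (N t).primeFactors ∪ S, (p : ℝ) ^ (comp t l).factorization p := by
      have h3 : ∏ p ∈ (N t).primeFactors ∪ S, p ^ (comp t l).factorization p = comp t l := by
        conv_rhs => rw [← Nat.prod_factorization_pow_eq_self hm0]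
        rw [Finsupp.prod, Nat.support_factorization]
        symm
        apply Finset.prod_subset ((hcomppf l).trans Finset.subset_union_left)
        intro q _ hq
        rw [← Nat.support_factorization, Finsupp.notMem_support_iff] at hq
        rw [hq, pow_zero]
      exact_mod_cast h3.symm
    rw [h2, Real.log_prod]
    · apply Finset.sum_congr rfl
      intro p _
      rw [Real.log_pow]
    · intro p hp
      have hpp : p.Prime := by
        rcases Finset.mem_union.1 hp with h | h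
        · exact Nat.prime_of_mem_primeFactors h
        · exact hSp p h
      have := hpp.pos
      positivity
  have h2 : ∑ p ∈ (N t).primeFactors ∪ S, ((comp t l).factorization p : ℝ) * Real.log p =
      ∑ p ∈ (N t).primeFactors \ S, ((comp t l).factorization p : ℝ) * Real.log p +
      ∑ p ∈ S, ((comp t l).factorization p : ℝ) * Real.log p := by
    rw [← Finset.sdiff_union_self_eq_union, Finset.sum_union Finset.sdiff_disjoint]
  have h4 := hout l
  have h5 := hlarge l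
  rw [h1, h2] at h5
  have h6 : (1 - δ) * ht t = ht t - δ * ht t := by ring
  have h7 : (1 - δ / 4) * ht t = ht t - δ * ht t / 4 := by ring
  have h8 : δ / 4 * ht t = δ * ht t / 4 := by ring
  rw [h7] at h5
  rw [h8] at h4
  rw [h6]
  show _ ≤ ∑ p ∈ S, ((comp t l).factorization p : ℝ) * Real.log p
  linarith

/-- **At most ten** tall pairs of mass type on a set of at most four primes. -/
theorem ten_mass : ∃ δ0 H0 : ℝ, 0 < δ0 ∧ δ0 ≤ 1 / 10 ∧
    ∀ (δ : ℝ) (S : Finset ℕ) (F : Finset (ℕ × ℕ)), 0 ≤ δ → δ ≤ δ0 → S.card ≤ 4 →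
      (∀ t ∈ F, Mass δ S t ∧ H0 ≤ ht t) → F.card ≤ 10 :=
  card_le_ten edgePair

/-- **At most ten** pairs. -/
theorem ten_pairs {κ : ℕ} (hκ : κ ≤ 2) (hE : ThmE2 κ) (hI : HInf) (η : ℝ) (hη : 0 < η) :
    ∃ K : ℝ, 0 < K ∧ ∀ (r : ℕ) (S : Finset ℕ) (Pb : ℝ) (F : Finset (ℕ × ℕ)), 0 < r → 1 ≤ Pb →
      S.card ≤ 4 → (∀ p ∈ S, p.Prime) → (∀ p ∈ r.primeFactors, p ∉ S → (p : ℝ) ≤ Pb) →
      (∀ t ∈ F, IsT t ∧ (N t).primeFactors ⊆ r.primeFactors ∧
        K * (r : ℝ) ^ (3 * η) * Pb ^ κ < ht t) → F.card ≤ 10 := by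
  obtain ⟨δ0, H0, hδ0, hδ1, hT⟩ := ten_mass
  obtain ⟨K, hK, hM⟩ := mass_of_tall hκ hE hI δ0 η hδ0 hδ1 hη
  refine ⟨K + |H0|, by positivity, ?_⟩
  intro r S Pb F hr hPb hS hSp hPS hF
  have hr1 : (1 : ℝ) ≤ r := by exact_mod_cast hr
  have e1 : (1 : ℝ) ≤ (r : ℝ) ^ (3 * η) := Real.one_le_rpow hr1 (by positivity)
  have e2 : (1 : ℝ) ≤ (r : ℝ) ^ (3 * η) * Pb ^ κ :=
    one_le_mul_of_one_le_of_one_le e1 (one_le_pow₀ hPb)
  have e3 : (K + |H0|) * (r : ℝ) ^ (3 * η) * Pb ^ κ =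
      K * (r : ℝ) ^ (3 * η) * Pb ^ κ + |H0| * ((r : ℝ) ^ (3 * η) * Pb ^ κ) := by ring
  have p1 : 0 < K * (r : ℝ) ^ (3 * η) * Pb ^ κ := by positivity
  have p2 : |H0| ≤ |H0| * ((r : ℝ) ^ (3 * η) * Pb ^ κ) :=
    le_mul_of_one_le_right (abs_nonneg _) e2
  have p3 := le_abs_self H0
  have p4 := abs_nonneg H0
  refine hT δ0 S F hδ0.le le_rfl hS ?_
  intro t ht
  obtain ⟨h1, h2, h3⟩ := hF t ht
  rw [e3] at h3
  exact ⟨hM r S Pb t hr hPb hSp hPS h1 h2 (by linarith), by linarith⟩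

/-- the pair `(min a b, max a b)` of an abc-triple -/
def pairOf (t : ℕ × ℕ × ℕ) : ℕ × ℕ := (min t.1 t.2.1, max t.1 t.2.1)

/-- **At most ten** abc-triples up to exchanging `a` and `b`: `P` bounds the prime factors of `r`
outside a set of at most four primes. -/
theorem ten_P {κ : ℕ} (hκ : κ ≤ 2) (hE : ThmE2 κ) (hI : HInf) (ε : ℝ) (hε : 0 < ε) :
    ∃ K : ℝ, 0 < K ∧ ∀ (r : ℕ) (S : Finset ℕ) (P : ℝ), 0 < r → 1 ≤ P → S.card ≤ 4 →
      (∀ p ∈ S, p.Prime) → (∀ p ∈ r.primeFactors, p ∉ S → (p : ℝ) ≤ P) →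
      (pairOf '' high r (K * (r : ℝ) ^ ε * P ^ κ)).ncard ≤ 10 := by
  classical
  obtain ⟨K, hK, h1⟩ := ten_pairs hκ hE hI (ε / 3) (by positivity)
  refine ⟨K, hK, ?_⟩
  intro r S P hr hP hS hSp hPS
  have hε3 : 3 * (ε / 3) = ε := by ring
  rw [hε3] at h1
  by_contra hcon
  push Not at hcon
  obtain ⟨F, hF, hc⟩ := Set.exists_subset_card_eq (s := pairOf '' high r (K * (r : ℝ) ^ ε * P ^ κ))
    (n := 11) (by omega)
  have hfin : F.Finite := by
    apply Set.finite_of_ncard_ne_zero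
    omega
  have h2 := h1 r S P hfin.toFinset hr hP hS hSp hPS (by
    intro t ht
    rw [Set.Finite.mem_toFinset] at ht
    obtain ⟨⟨a, b, c⟩, habc, rfl⟩ := hF ht
    exact toPair hr habc)
  rw [Set.ncard_eq_toFinset_card F hfin] at hc
  omega

/-- **At most ten** abc-triples composed of primes of `r`, up to exchanging `a` and `b`, have
`log c > K r ^ (κ / 5 + ε)`. -/
theorem ten_fifth {κ : ℕ} (hκ : κ ≤ 2) (hE : ThmE2 κ) (hI : HInf) (ε : ℝ) (hε : 0 < ε) :
    ∃ K : ℝ, 0 < K ∧ ∀ r : ℕ, 0 < r →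
      (pairOf '' high r (K * (r : ℝ) ^ ((κ : ℝ) / 5 + ε))).ncard ≤ 10 := by
  obtain ⟨K, hK, h1⟩ := ten_P hκ hE hI ε hε
  refine ⟨K, hK, ?_⟩
  intro r hr
  have hr1 : (1 : ℝ) ≤ r := by exact_mod_cast hr
  have hr0 : (0 : ℝ) < r := by linarith
  have h4 := card_large r 4 hr
  norm_num at h4
  have h2 : K * (r : ℝ) ^ ε * ((r : ℝ) ^ ((1 : ℝ) / 5)) ^ κ =
      K * (r : ℝ) ^ ((κ : ℝ) / 5 + ε) := by
    rw [← Real.rpow_natCast, ← Real.rpow_mul hr0.le, mul_assoc, ← Real.rpow_add hr0]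
    congr 2
    ring
  rw [← h2]
  refine h1 r (r.primeFactors.filter (fun p : ℕ => (r : ℝ) ^ ((1 : ℝ) / 5) < p))
    ((r : ℝ) ^ ((1 : ℝ) / 5)) hr (Real.one_le_rpow hr1 (by norm_num)) h4 ?_ ?_
  · intro p hp
    exact Nat.prime_of_mem_primeFactors (Finset.filter_subset _ _ hp)
  · intro p hp hpS
    by_contra hcon
    push Not at hcon
    exact hpS (Finset.mem_filter.2 ⟨hp, hcon⟩)

end Pool.Agent.Lib.AbcO
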