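import Mathlib
import Pool.Agent.Lib.AbcO.Struct
import Pool.Agent.Lib.AbcH.Decay

/-!
# The individual bound: `log c ≤ K r ^ (κ / 3 + η)`
-/

namespace Pool.Agent.Lib.AbcO

open Finset Pool.Agent.Lib.Pabc2 Pool.Agent.Lib.AbcH

theorem third_pair {κ : ℕ} (hκ : κ ≤ 2) (hE : ThmE2 κ) (hI : HInf) (η : ℝ) (hη : 0 < η) :
    ∃ K : ℝ, 0 < K ∧ ∀ (r : ℕ) (t : ℕ × ℕ), 0 < r → IsT t →
      (N t).primeFactors ⊆ r.primeFactors → ht t ≤ K * (r : ℝ) ^ ((κ : ℝ) / 3 + η) := by
  classical
  obtain ⟨K1, hK1, hL⟩ := member_light hκ hE (1 / 2) (η / 3) (by norm_num) (by norm_num)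
    (by positivity)
  obtain ⟨K2, hK2, hI⟩ := hI (1 / 4) η (by norm_num) hη
  refine ⟨K1 + K2 + 1000, by positivity, ?_⟩
  intro r t hr hT hsub
  have hr1 : (1 : ℝ) ≤ r := by exact_mod_cast hr
  have hr0 : (0 : ℝ) < r := by linarith
  have hexp : (1 : ℝ) ≤ (r : ℝ) ^ ((κ : ℝ) / 3 + η) := Real.one_le_rpow hr1 (by positivity)
  have hexp2 : (r : ℝ) ^ η ≤ (r : ℝ) ^ ((κ : ℝ) / 3 + η) := by
    apply Real.rpow_le_rpow_of_exponent_le hr1
    have : (0 : ℝ) ≤ (κ : ℝ) / 3 := by positivity
    linarith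
  have hsum : (K1 + K2 + 1000) * (r : ℝ) ^ ((κ : ℝ) / 3 + η) =
      K1 * (r : ℝ) ^ ((κ : ℝ) / 3 + η) + K2 * (r : ℝ) ^ ((κ : ℝ) / 3 + η) +
        1000 * (r : ℝ) ^ ((κ : ℝ) / 3 + η) := by ring
  have p1 : 0 < K1 * (r : ℝ) ^ ((κ : ℝ) / 3 + η) := by positivity
  have p2 : 0 < K2 * (r : ℝ) ^ ((κ : ℝ) / 3 + η) := by positivity
  rw [hsum]
  by_contra hcon
  push Not at hcon
  have hb1 : 1000 ≤ ht t := by linarith
  obtain ⟨ha, hab, hcop⟩ := id hT
  have hbp : 0 < t.2 := hT.pos2
  have ha0 : (0 : ℝ) < t.1 := by exact_mod_cast ha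
  have hb0 : (0 : ℝ) < t.2 := by exact_mod_cast hbp
  have hht : ht t = Real.log ((t.1 : ℝ) + t.2) := rfl
  -- the members are large
  have hla : (1 - 1 / 4) * ht t ≤ Real.log t.1 := by
    by_contra hcon2
    push Not at hcon2
    have h1 := hI (t.1 + t.2) t.2 hbp (by omega) (by
      rw [Nat.coprime_add_self_left]
      exact hcop) (by
      push_cast
      rw [add_sub_cancel_right]
      rw [hht] at hcon2
      rw [Real.rpow_def_of_pos (by positivity)]
      calc (t.1 : ℝ) = Real.exp (Real.log t.1) := (Real.exp_log ha0).symm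
        _ ≤ _ := Real.exp_le_exp.2 (by linarith))
    have h3 : ∏ p ∈ ((t.1 + t.2) * t.2).primeFactors, (p : ℝ) ≤ r := by
      apply prod_primeFactors_le hr
      refine (Nat.primeFactors_mono (n := N t) ?_ hT.N_ne).trans hsub
      exact ⟨t.1, by unfold N; ring⟩
    have h4 : (∏ p ∈ ((t.1 + t.2) * t.2).primeFactors, (p : ℝ)) ^ η ≤ (r : ℝ) ^ η :=
      Real.rpow_le_rpow (Finset.prod_nonneg fun p _ => Nat.cast_nonneg p) h3 hη.le
    have h6 : ht t ≤ K2 * (r : ℝ) ^ ((κ : ℝ) / 3 + η) := by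
      rw [hht]
      push_cast at h1
      refine h1.trans ?_
      exact mul_le_mul_of_nonneg_left (h4.trans hexp2) hK2.le
    linarith
  have hlarge : ∀ l, 1 / 2 * ht t < Real.log (comp t l) := by
    intro l
    have hlab : Real.log t.1 ≤ Real.log t.2 := Real.log_le_log ha0 (by exact_mod_cast hab)
    have hl : l = 0 ∨ l = 1 ∨ l = 2 := by omega
    rcases hl with rfl | rfl | rfl
    · simp only [comp, if_true]
      linarith
    · simp only [comp, one_ne_zero, if_false, if_true]
      linarith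
    · have f1 : (2 : Fin 3) ≠ 0 := by decide
      have f2 : (2 : Fin 3) ≠ 1 := by decide
      simp only [comp, f1, f2, if_false]
      push_cast
      rw [← hht]
      linarith
  have hcomppf : ∀ l, (comp t l).primeFactors ⊆ (N t).primeFactors := by
    intro l
    apply Nat.primeFactors_mono _ hT.N_ne
    have hl : l = 0 ∨ l = 1 ∨ l = 2 := by omega
    unfold N
    rcases hl with rfl | rfl | rfl
    · simp only [comp, if_true]
      exact ⟨t.2 * (t.1 + t.2), by ring⟩
    · simp only [comp, one_ne_zero, if_false, if_true]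
      exact ⟨t.1 * (t.1 + t.2), by ring⟩
    · have f1 : (2 : Fin 3) ≠ 0 := by decide
      have f2 : (2 : Fin 3) ≠ 1 := by decide
      simp only [comp, f1, f2, if_false]
      exact Dvd.intro_left _ rfl
  -- the large primes
  have h3 := card_large r 2 hr
  norm_num at h3
  set S := r.primeFactors.filter (fun p : ℕ => (r : ℝ) ^ ((1 : ℝ) / 3) < p) with hS
  -- a member free of them
  have hfree : ∃ l, ∀ p ∈ S, ¬ p ∣ comp t l := by
    by_contra hno
    push Not at hno
    choose q hqS hqd using hno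
    have hqp : ∀ l, (q l).Prime := fun l =>
      Nat.prime_of_mem_primeFactors (Finset.filter_subset _ _ (hqS l))
    have hinj : Function.Injective q := by
      intro l l' hll
      by_contra hne
      have hc := comp_cop hT hne
      have h1 := hqd l'
      rw [← hll] at h1
      exact Nat.not_coprime_of_dvd_of_dvd (hqp l).one_lt (hqd l) h1 hc
    have h4 : (Finset.univ.image q).card ≤ S.card := by
      apply Finset.card_le_card
      intro p hp
      obtain ⟨l, -, rfl⟩ := Finset.mem_image.1 hp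
      exact hqS l
    rw [Finset.card_image_of_injective _ hinj, Finset.card_univ, Fintype.card_fin] at h4
    omega
  obtain ⟨l, hl⟩ := hfree
  have hm0 : comp t l ≠ 0 := (comp_pos hT l).ne'
  have hlogeq : ∑ p ∈ (N t).primeFactors \ S, ((comp t l).factorization p : ℝ) * Real.log p =
      Real.log (comp t l) := by
    have hsub2 : (comp t l).primeFactors ⊆ (N t).primeFactors \ S := by
      intro p hp
      rw [Finset.mem_sdiff]
      exact ⟨hcomppf l hp, fun hpS => hl p hpS (Nat.dvd_of_mem_primeFactors hp)⟩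
    have h2 : ∏ p ∈ (comp t l).primeFactors, (p : ℝ) ^ (comp t l).factorization p =
        (comp t l : ℝ) := by
      have h5 : ∏ p ∈ (comp t l).primeFactors, p ^ (comp t l).factorization p = comp t l := by
        conv_rhs => rw [← Nat.prod_factorization_pow_eq_self hm0]
        rw [Finsupp.prod, Nat.support_factorization]
      exact_mod_cast h5
    rw [← Finset.sum_subset hsub2 (fun p _ hp => by
      have h6 : (comp t l).factorization p = 0 := by
        rw [← Nat.support_factorization, Finsupp.mem_support_iff, not_not] at hp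
        exact hp
      rw [h6, Nat.cast_zero, zero_mul])]
    rw [← h2, Real.log_prod (fun p hp => by
      have := (Nat.prime_of_mem_primeFactors hp).pos
      positivity)]
    refine Finset.sum_congr rfl fun p _ => ?_
    rw [Real.log_pow]
  have hfin := hL r S ((r : ℝ) ^ ((1 : ℝ) / 3)) t l hr (Real.one_le_rpow hr1 (by norm_num)) hT hsub
    (by
      intro p hp hpS
      by_contra hcon3
      push Not at hcon3
      exact hpS (Finset.mem_filter.2 ⟨hp, hcon3⟩)) hb1 (by
      rw [hlogeq]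
      exact hlarge l)
  have hpow : K1 * (r : ℝ) ^ (3 * (η / 3)) * ((r : ℝ) ^ ((1 : ℝ) / 3)) ^ κ =
      K1 * (r : ℝ) ^ ((κ : ℝ) / 3 + η) := by
    rw [← Real.rpow_natCast, ← Real.rpow_mul hr0.le, mul_assoc, ← Real.rpow_add hr0]
    congr 2
    ring
  rw [hpow] at hfin
  have p3 : 0 < 1000 * (r : ℝ) ^ ((κ : ℝ) / 3 + η) := by positivity
  linarith

/-- Every abc-triple composed of primes of `r` has `log c ≤ K r ^ (κ / 3 + η)`. -/
theorem third_gen {κ : ℕ} (hκ : κ ≤ 2) (hE : ThmE2 κ) (hI : HInf) (η : ℝ) (hη : 0 < η) :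
    ∃ K : ℝ, 0 < K ∧ ∀ a b c r : ℕ, AbcTriple a b c → 0 < r →
      (∀ p : ℕ, p.Prime → p ∣ a * b * c → p ∣ r) →
      Real.log c ≤ K * (r : ℝ) ^ ((κ : ℝ) / 3 + η) := by
  obtain ⟨K, hK, h1⟩ := third_pair hκ hE hI η hη
  refine ⟨K, hK, ?_⟩
  intro a b c r habc hr hdiv
  obtain ⟨ha, hb, hc, hcop⟩ := habc
  rcases le_total a b with hab | hab
  · have h2 := h1 r (a, b) hr ⟨ha, hab, hcop⟩ (primeFactors_sub (c := c) ha hb hr hc hdiv)
    have h3 : ht (a, b) = Real.log c := by
      unfold ht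
      have : ((a : ℝ) + (b : ℝ)) = (c : ℝ) := by exact_mod_cast hc
      simp only
      rw [this]
    rwa [h3] at h2
  · have h2 := h1 r (b, a) hr ⟨hb, hab, hcop.symm⟩
      (primeFactors_sub (c := c) hb ha hr (by omega) (by
        intro p hp hpd
        apply hdiv p hp
        rwa [mul_comm a b]))
    have h3 : ht (b, a) = Real.log c := by
      unfold ht
      have : ((b : ℝ) + (a : ℝ)) = (c : ℝ) := by
        rw [add_comm]
        exact_mod_cast hc
      simp only
      rw [this]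
    rwa [h3] at h2

/-- Every abc-triple composed of primes of `r` has `log c ≤ K r ^ (1 / 3 + η)`. -/
theorem third (hE : ThmE2 1) (hI : HInf) (η : ℝ) (hη : 0 < η) :
    ∃ K : ℝ, 0 < K ∧ ∀ a b c r : ℕ, AbcTriple a b c → 0 < r →
      (∀ p : ℕ, p.Prime → p ∣ a * b * c → p ∣ r) →
      Real.log c ≤ K * (r : ℝ) ^ ((1 : ℝ) / 3 + η) := by
  obtain ⟨K, hK, h1⟩ := third_gen (κ := 1) (by norm_num) hE hI η hη
  refine ⟨K, hK, fun a b c r h hr hd => ?_⟩
  have := h1 a b c r h hr hd
  rwa [Nat.cast_one] at this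

end Pool.Agent.Lib.AbcO
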